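import Pool.Agent.Lib.MP_0c183c_co_P9A.Sec5Lin
import Pool.Agent.Lib.MP_0c183c_co_P9T.Row

/-!
The filtration (3.3) for tangent spaces of arrays, and the counts of section 5 of
p9_C_helper29.md in the form which the assembly uses. [helper64]
-/

set_option autoImplicit false

namespace Pool.Agent.Lib.P9Sec5

open Module
open Pool.Agent.Lib.MP_0c183c_co_P9T (Pr off fam rowv rowL)

variable {F : Type*} [Field F] {ι : Type*} [LinearOrder ι]

/-- A triangular family of subspaces: `W i ≤ T` and `π j` kills `W i` for `i < j`. -/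
theorem sum_finrank_map_le {E : Type*} [AddCommGroup E] [Module F E] [FiniteDimensional F E]
    {G : ι → Type*} [∀ i, AddCommGroup (G i)] [∀ i, Module F (G i)]
    (π : ∀ i, E →ₗ[F] G i) (W : ι → Submodule F E) (I : Finset ι) :
    ∀ T : Submodule F E, (∀ i ∈ I, W i ≤ T) →
      (∀ i ∈ I, ∀ j ∈ I, i < j → W i ≤ LinearMap.ker (π j)) →
      ∑ i ∈ I, finrank F ((W i).map (π i)) ≤ finrank F T := by
  induction I using Finset.induction_on_max with
  | empty => intro T _ _; simp
  | insert m I hm ih =>
    intro T hW hπ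
    have hmI : m ∉ I := fun h => lt_irrefl _ (hm m h)
    rw [Finset.sum_insert hmI]
    have h1 := ih (T ⊓ LinearMap.ker (π m))
      (fun i hi => le_inf (hW i (Finset.mem_insert_of_mem hi))
        (hπ i (Finset.mem_insert_of_mem hi) m (Finset.mem_insert_self _ _) (hm i hi)))
      (fun i hi j hj => hπ i (Finset.mem_insert_of_mem hi) j (Finset.mem_insert_of_mem hj))
    have h2 := finrank_map_add_ker (π m) T
    have h3 : finrank F ((W m).map (π m)) ≤ finrank F (T.map (π m)) :=
      Submodule.finrank_mono (Submodule.map_mono (hW m (Finset.mem_insert_self _ _)))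
    omega

/-- the elements of `I` right of `a` -/
def rgt (I : Finset ι) (a : ι) : Finset ι := I.filter fun y => a < y

/-- the elements of `I` left of `a` -/
def lft (I : Finset ι) (a : ι) : Finset ι := I.filter fun y => y < a

theorem mem_rgt {I : Finset ι} {a y : ι} : y ∈ rgt I a ↔ y ∈ I ∧ a < y := by
  rw [rgt, Finset.mem_filter]

theorem mem_lft {I : Finset ι} {a y : ι} : y ∈ lft I a ↔ y ∈ I ∧ y < a := by
  rw [lft, Finset.mem_filter]

instance finite_off (I : Finset ι) : Finite (off I) := by
  have h : off I ⊆ (((I ×ˢ Finset.univ) ×ˢ (I ×ˢ Finset.univ) :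
      Finset ((ι × Bool) × (ι × Bool))) : Set (Pr ι)) := by
    intro p hp
    have h1 : p.1.1 ∈ I := hp.1
    have h2 : p.2.1 ∈ I := hp.2.1
    rw [Finset.mem_coe, Finset.mem_product, Finset.mem_product, Finset.mem_product]
    exact ⟨⟨h1, Finset.mem_univ _⟩, h2, Finset.mem_univ _⟩
  exact (Finset.finite_toSet _).subset h

/-- the pair `(a, i), (y, j)` with `y` right of `a` -/
def prR (I : Finset ι) {a : ι} (ha : a ∈ I) (i : Bool) (y : rgt I a × Bool) : off I :=
  ⟨((a, i), (y.1.1, y.2)), ha, (mem_rgt.1 y.1.2).1, (mem_rgt.1 y.1.2).2.ne⟩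

/-- restriction of `v : off I → F` to the blocks `(a, y)`, `a < y` -/
def grpR (F : Type*) [Field F] (I : Finset ι) (a : ι) :
    (off I → F) →ₗ[F] (Bool → rgt I a × Bool → F) where
  toFun v i y := if ha : a ∈ I then v (prR I ha i y) else 0
  map_add' v w := by
    funext i y
    simp only [Pi.add_apply]
    split_ifs
    · rfl
    · rw [add_zero]
  map_smul' c v := by
    funext i y
    simp only [Pi.smul_apply, smul_eq_mul, RingHom.id_apply]
    split_ifs
    · rfl
    · rw [mul_zero]

theorem grpR_apply {I : Finset ι} {a : ι} (ha : a ∈ I) (v : off I → F) (i : Bool)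
    (y : rgt I a × Bool) : grpR F I a v i y = v (prR I ha i y) := by
  change (if ha : a ∈ I then v (prR I ha i y) else 0) = _
  rw [dif_pos ha]

/-- the vectors of `T` which are supported on the row and column of `a` -/
def rowSub {I : Finset ι} (T : Submodule F (off I → F)) (a : ι) : Submodule F (off I → F) where
  carrier := {v | v ∈ T ∧ ∀ p : off I, p.1.1.1 ≠ a → p.1.2.1 ≠ a → v p = 0}
  add_mem' := by
    rintro v w ⟨h1, h2⟩ ⟨h3, h4⟩
    exact ⟨add_mem h1 h3, fun p hp hp' => by rw [Pi.add_apply, h2 p hp hp', h4 p hp hp', add_zero]⟩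
  zero_mem' := ⟨zero_mem _, fun _ _ _ => rfl⟩
  smul_mem' := by
    rintro c v ⟨h1, h2⟩
    exact ⟨Submodule.smul_mem _ c h1, fun p hp hp' => by
      rw [Pi.smul_apply, h2 p hp hp', smul_zero]⟩

theorem mem_rowSub {I : Finset ι} {T : Submodule F (off I → F)} {a : ι} {v : off I → F} :
    v ∈ rowSub T a ↔ v ∈ T ∧ ∀ p : off I, p.1.1.1 ≠ a → p.1.2.1 ≠ a → v p = 0 := Iff.rfl

/-- (3.3) -/
theorem array_filtration (I : Finset ι) (T : Submodule F (off I → F)) :
    ∑ a ∈ I, finrank F ((rowSub T a).map (grpR F I a)) ≤ finrank F T := by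
  refine sum_finrank_map_le (G := fun a => Bool → rgt I a × Bool → F) (fun a => grpR F I a)
    (fun a => rowSub T a) I T (fun a _ v hv => hv.1) ?_
  intro a _ b hb hab v hv
  rw [LinearMap.mem_ker]
  funext i y
  rw [grpR_apply hb]
  refine hv.2 _ (ne_of_gt hab) ?_
  exact ne_of_gt (hab.trans (mem_rgt.1 y.1.2).2)

/-- the number of elements right of `a`, summed up, with exceptions near the two ends -/
theorem sum_count (I : Finset ι) (d : ι → ℕ) (β c s : ℕ)
    (h : ∀ a ∈ I, s ≤ (rgt I a).card → s ≤ (lft I a).card → β * (rgt I a).card ≤ d a + c) :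
    β * I.card ^ 2 ≤ 2 * ∑ a ∈ I, d a + (2 * c + β * (4 * s + 1)) * I.card := by
  classical
  -- `card (rgt I a)` is a bijection from `I` to `range I.card`
  have hle : ∀ a ∈ I, (rgt I a).card < I.card := by
    intro a ha
    refine Finset.card_lt_card ⟨Finset.filter_subset _ _, fun hsub => ?_⟩
    have := mem_rgt.1 (hsub ha)
    exact lt_irrefl _ this.2
  have hlr : ∀ a ∈ I, (lft I a).card + (rgt I a).card + 1 = I.card := by
    intro a ha
    have h1 : I = insert a (lft I a ∪ rgt I a) := by
      ext y
      rw [Finset.mem_insert, Finset.mem_union, mem_lft, mem_rgt]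
      constructor
      · intro hy
        rcases lt_trichotomy y a with h | h | h
        · exact Or.inr (Or.inl ⟨hy, h⟩)
        · exact Or.inl h
        · exact Or.inr (Or.inr ⟨hy, h⟩)
      · rintro (h | h | h)
        · rw [h]; exact ha
        · exact h.1
        · exact h.1
    have h2 : a ∉ lft I a ∪ rgt I a := by
      rw [Finset.mem_union, mem_lft, mem_rgt]
      rintro (h | h) <;> exact lt_irrefl _ h.2
    have h3 : Disjoint (lft I a) (rgt I a) := by
      rw [Finset.disjoint_left]
      intro y hy hy'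
      exact lt_asymm (mem_lft.1 hy).2 (mem_rgt.1 hy').2
    have h4 := congrArg Finset.card h1
    rw [Finset.card_insert_of_notMem h2, Finset.card_union_of_disjoint h3] at h4
    omega
  have hinj : Set.InjOn (fun a => (rgt I a).card) (I : Set ι) := by
    intro a ha b hb hab
    by_contra hne
    wlog hlt : a < b generalizing a b with H
    · exact H hb ha hab.symm (Ne.symm hne) (lt_of_le_of_ne (not_lt.1 hlt) (Ne.symm hne))
    have hsub : rgt I b ⊂ rgt I a := by
      refine ⟨fun y hy => mem_rgt.2 ⟨(mem_rgt.1 hy).1, hlt.trans (mem_rgt.1 hy).2⟩, fun hsub => ?_⟩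
      have := mem_rgt.1 (hsub (mem_rgt.2 ⟨hb, hlt⟩))
      exact lt_irrefl _ this.2
    have := Finset.card_lt_card hsub
    simp only at hab
    omega
  have himg : I.image (fun a => (rgt I a).card) = Finset.range I.card := by
    refine Finset.eq_of_subset_of_card_le ?_ ?_
    · intro j hj
      rw [Finset.mem_image] at hj
      obtain ⟨a, ha, rfl⟩ := hj
      exact Finset.mem_range.2 (hle a ha)
    · rw [Finset.card_image_of_injOn hinj, Finset.card_range]
  -- transport `d`
  let e : ℕ → ℕ := fun j => ∑ a ∈ I.filter (fun a => (rgt I a).card = j), d a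
  have he : ∀ a ∈ I, e (rgt I a).card = d a := by
    intro a ha
    have : I.filter (fun b => (rgt I b).card = (rgt I a).card) = {a} := by
      ext b
      rw [Finset.mem_filter, Finset.mem_singleton]
      constructor
      · rintro ⟨hb, h⟩
        exact hinj hb ha h
      · rintro rfl
        exact ⟨ha, rfl⟩
    simp only [e]
    rw [this, Finset.sum_singleton]
  have hsum : ∑ j ∈ Finset.range I.card, e j = ∑ a ∈ I, d a := by
    rw [← himg, Finset.sum_image hinj]
    exact Finset.sum_congr rfl he
  have hq := quadratic_lower e β c s I.card (by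
    intro j hj hj'
    have hjr : j ∈ Finset.range I.card := Finset.mem_range.2 (by omega)
    rw [← himg, Finset.mem_image] at hjr
    obtain ⟨a, ha, rfl⟩ := hjr
    rw [he a ha]
    refine h a ha hj ?_
    have := hlr a ha
    omega)
  rw [hsum] at hq
  exact hq

/-- (3.3) together with the count -/
theorem array_count (I : Finset ι) (T : Submodule F (off I → F)) (β c s : ℕ)
    (h : ∀ a ∈ I, s ≤ (rgt I a).card → s ≤ (lft I a).card →
      β * (rgt I a).card ≤ finrank F ((rowSub T a).map (grpR F I a)) + c) :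
    β * I.card ^ 2 ≤ 2 * finrank F T + (2 * c + β * (4 * s + 1)) * I.card := by
  have h1 := array_filtration I T
  have h2 := sum_count I (fun a => finrank F ((rowSub T a).map (grpR F I a))) β c s h
  omega

/-- blocks as functions of two variables -/
def curryD (F : Type*) [Field F] : (Bool × Bool → F) ≃ₗ[F] (Bool → Bool → F) :=
  LinearEquiv.curry F F Bool Bool

/-- the columns right of `a` of the array `M` -/
def colsR (M : ι × Bool → ι × Bool → F) (I : Finset ι) (a : ι) :
    ι × Bool → rgt I a × Bool → F := fun x y => M x (y.1.1, y.2)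

/-- `grpR` of the row vector of `δ` -/
theorem grpR_rowv {I : Finset ι} {a : ι} (ha : a ∈ I) (M : ι × Bool → ι × Bool → F) (b : ι)
    (δ : Bool × Bool → F) :
    grpR F I a (fam (off I) (rowv M b a δ)) = rowMap (colsR M I a) b (curryD F δ) := by
  funext i y
  rw [grpR_apply ha]
  have hy : (y.1.1 : ι) ≠ a := (mem_rgt.1 y.1.2).2.ne'
  simp only [fam, rowv, prR, if_true, if_neg hy, rowMap, colsR, curryD, LinearMap.coe_mk,
    AddHom.coe_mk]
  rfl

theorem rowv_support {I : Finset ι} {a : ι} (M : ι × Bool → ι × Bool → F) (b : ι)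
    (δ : Bool × Bool → F) (p : off I) (h1 : p.1.1.1 ≠ a) (h2 : p.1.2.1 ≠ a) :
    fam (off I) (rowv M b a δ) p = 0 := by
  simp only [fam, rowv, if_neg h1, if_neg h2]

/-- the rows of the elements `b ∈ B` generate a space contained in `grpR (rowSub T a)` -/
theorem iSup_le_map_rowSub {I : Finset ι} {a : ι} (ha : a ∈ I) (T : Submodule F (off I → F))
    (M : ι × Bool → ι × Bool → F) (B : Finset ι) (D : ι → Submodule F (Bool × Bool → F))
    (hD : ∀ b ∈ B, ∀ δ ∈ D b, fam (off I) (rowv M b a δ) ∈ T) :
    (⨆ b : B, ((D b).map (curryD F).toLinearMap).map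
      (rowMap (fun x y => M (x.1.1, x.2) (y.1.1, y.2) : B × Bool → rgt I a × Bool → F) b) :
        Submodule F (Bool → rgt I a × Bool → F)) ≤ (rowSub T a).map (grpR F I a) := by
  refine iSup_le fun b => ?_
  rintro _ ⟨_, ⟨δ, hδ, rfl⟩, rfl⟩
  refine ⟨fam (off I) (rowv M b a δ), ⟨hD b b.2 δ hδ, rowv_support M b δ⟩, ?_⟩
  rw [grpR_rowv ha]
  rfl

/-- CASE (2,2) -/
theorem case22 (I : Finset ι) (T : Submodule F (off I → F)) (β s : ℕ)
    (h : ∀ a ∈ I, s ≤ (rgt I a).card → s ≤ (lft I a).card →
      ∃ (M : ι × Bool → ι × Bool → F) (B : Finset ι) (D : ι → Submodule F (Bool × Bool → F)),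
        B.card = (rgt I a).card ∧ (∀ b ∈ B, β ≤ finrank F (D b)) ∧
        (∀ b ∈ B, ∀ δ ∈ D b, fam (off I) (rowv M b a δ) ∈ T) ∧
        2 * (rgt I a).card ≤ (Matrix.of fun (x : B × Bool) (y : rgt I a × Bool) =>
          M (x.1.1, x.2) (y.1.1, y.2)).rank + 1) :
    β * I.card ^ 2 ≤ 2 * finrank F T + (4 + β * (4 * s + 1)) * I.card := by
  refine array_count I T β 2 s fun a ha hs hs' => ?_
  obtain ⟨M, B, D, hB, hβ, hD, hr⟩ := h a ha hs hs'
  have h1 := Submodule.finrank_mono (iSup_le_map_rowSub ha T M B D hD)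
  have h2 := sum_finrank_le_iSup_rowMap
    (fun x y => M (x.1.1, x.2) (y.1.1, y.2) : B × Bool → rgt I a × Bool → F)
    (fun b : B => (D b).map (curryD F).toLinearMap)
  have h3 : ∀ b : B, β ≤ finrank F ((D b).map (curryD F).toLinearMap) := by
    intro b
    rw [LinearEquiv.finrank_map_eq]
    exact hβ b b.2
  have h4 : ∑ _b : B, β ≤ ∑ b : B, finrank F ((D b).map (curryD F).toLinearMap) :=
    Finset.sum_le_sum fun b _ => h3 b
  rw [Finset.sum_const, Finset.card_univ, Fintype.card_coe, smul_eq_mul, hB, Nat.mul_comm] at h4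
  rw [Fintype.card_coe, hB] at h2
  have h5 : 2 * (2 * (rgt I a).card - (Matrix.of fun (x : B × Bool) (y : rgt I a × Bool) =>
          M (x.1.1, x.2) (y.1.1, y.2)).rank) ≤ 2 := by omega
  omega

/-- a block killing the vector `w ≠ 0` on the right is `u ⊗ lam`, and its row vector is
`u ⊗ P(w, .)` (characteristic two) -/
theorem exists_tens [CharP F 2] {ι' γ : Type*} (P : ι' × Bool → γ → F) (b : ι') (w : Bool → F)
    (hw : w ≠ 0) (D : Submodule F (Bool → Bool → F))
    (hD : ∀ δ ∈ D, ∀ i, δ i false * w false + δ i true * w true = 0) :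
    ∃ A : Submodule F (Bool → F), finrank F A = finrank F D ∧
      A.map (tens (fun y => w false * P (b, false) y + w true * P (b, true) y)) =
        D.map (rowMap P b) := by
  classical
  let lam : Bool → F := fun j => w (!j)
  have hlam : lam ≠ 0 := by
    intro h
    apply hw
    funext j
    have := congrFun h (!j)
    simpa [lam] using this
  have hinj : Function.Injective (tens lam : (Bool → F) →ₗ[F] (Bool → Bool → F)) := by
    intro u v huv
    obtain ⟨j, hj⟩ := Function.ne_iff.1 hlam
    funext i
    have h1 := congrFun (congrFun huv i) j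
    exact mul_right_cancel₀ (by simpa using hj) h1
  have hneg : ∀ x : F, -x = x := fun x => CharTwo.neg_eq x
  -- every element of `D` is a tensor
  have hsurj : ∀ δ ∈ D, ∃ u : Bool → F, tens lam u = δ := by
    intro δ hδ
    by_cases h0 : w false = 0
    · have h1 : w true ≠ 0 := by
        intro h1
        apply hw
        funext j
        cases j
        · exact h0
        · exact h1
      refine ⟨fun i => δ i false / w true, ?_⟩
      funext i j
      have h2 := hD δ hδ i
      rw [h0, mul_zero, zero_add] at h2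
      have h3 : δ i true = 0 := (mul_eq_zero.1 h2).resolve_right h1
      cases j
      · simp only [tens, LinearMap.coe_mk, AddHom.coe_mk, lam, Bool.not_false]
        rw [div_mul_cancel₀ _ h1]
      · simp only [tens, LinearMap.coe_mk, AddHom.coe_mk, lam, Bool.not_true]
        rw [h0, mul_zero, h3]
    · refine ⟨fun i => δ i true / w false, ?_⟩
      funext i j
      have h2 := hD δ hδ i
      cases j
      · simp only [tens, LinearMap.coe_mk, AddHom.coe_mk, lam, Bool.not_false]
        have h3 : δ i true * w true = δ i false * w false := by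
          have : δ i true * w true = -(δ i false * w false) := by linear_combination h2
          rw [this, hneg]
        rw [div_mul_eq_mul_div, h3, mul_div_assoc, div_self h0, mul_one]
      · simp only [tens, LinearMap.coe_mk, AddHom.coe_mk, lam, Bool.not_true]
        rw [div_mul_cancel₀ _ h0]
  refine ⟨D.comap (tens lam), ?_, ?_⟩
  · have h1 : (D.comap (tens lam : (Bool → F) →ₗ[F] (Bool → Bool → F))).map (tens lam) = D := by
      apply le_antisymm
      · exact Submodule.map_comap_le _ _
      · intro δ hδ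
        obtain ⟨u, hu⟩ := hsurj δ hδ
        exact ⟨u, by rw [SetLike.mem_coe, Submodule.mem_comap, hu]; exact hδ, hu⟩
    have h2 := LinearEquiv.finrank_eq (Submodule.equivMapOfInjective
      (tens lam : (Bool → F) →ₗ[F] (Bool → Bool → F)) hinj (D.comap (tens lam)))
    rw [h1] at h2
    exact h2
  · have hrow : ∀ u : Bool → F, rowMap P b (tens lam u) =
        tens (fun y => w false * P (b, false) y + w true * P (b, true) y) u := by
      intro u
      rw [rowMap_tens]
      have he : (fun y => lam false * P (b, true) y + lam true * P (b, false) y) =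
          fun y => w false * P (b, false) y + w true * P (b, true) y := by
        funext y
        simp only [lam, Bool.not_false, Bool.not_true]
        ring
      rw [he]
    apply le_antisymm
    · rintro _ ⟨u, hu, rfl⟩
      exact ⟨tens lam u, hu, hrow u⟩
    · rintro _ ⟨δ, hδ, rfl⟩
      obtain ⟨u, hu⟩ := hsurj δ hδ
      refine ⟨u, ?_, ?_⟩
      · rw [SetLike.mem_coe, Submodule.mem_comap, hu]
        exact hδ
      · rw [← hrow, hu]

/-- the vector `P(w, .)` on the columns right of `a` -/
def nvec (M : ι × Bool → ι × Bool → F) (I : Finset ι) (a b : ι) (w : Bool → F) :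
    rgt I a × Bool → F :=
  fun y => w false * M (b, false) (y.1.1, y.2) + w true * M (b, true) (y.1.1, y.2)

/-- CASE `e₁ = 1`, `f` unbounded: the blocks `δ` kill the narrow vectors `w b` on the right -/
theorem case1 [CharP F 2] (I : Finset ι) (T : Submodule F (off I → F)) (β C s : ℕ)
    (h : ∀ a ∈ I, s ≤ (rgt I a).card → s ≤ (lft I a).card →
      ∃ (M : ι × Bool → ι × Bool → F) (B : Finset ι) (D : ι → Submodule F (Bool × Bool → F))
        (w : ι → Bool → F), (∀ b ∈ B, w b ≠ 0) ∧ (∀ b ∈ B, β ≤ finrank F (D b)) ∧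
        (∀ b ∈ B, ∀ δ ∈ D b, ∀ i, δ (i, false) * w b false + δ (i, true) * w b true = 0) ∧
        (∀ b ∈ B, ∀ δ ∈ D b, fam (off I) (rowv M b a δ) ∈ T) ∧
        (rgt I a).card ≤ finrank F (Submodule.span F
          (Set.range fun b : B => nvec M I a b (w b))) + C) :
    β * I.card ^ 2 ≤ 2 * finrank F T + (2 * (β * C) + β * (4 * s + 1)) * I.card := by
  refine array_count I T β (β * C) s fun a ha hs hs' => ?_
  obtain ⟨M, B, D, w, hw, hβ, hDw, hD, hr⟩ := h a ha hs hs'
  have h1 := Submodule.finrank_mono (iSup_le_map_rowSub ha T M B D hD)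
  choose A hA1 hA2 using fun b : B => exists_tens
    (fun x y => M (x.1.1, x.2) (y.1.1, y.2) : B × Bool → rgt I a × Bool → F) b (w b) (hw b b.2)
    ((D b).map (curryD F).toLinearMap) (by
      rintro _ ⟨δ, hδ, rfl⟩ i
      exact hDw b b.2 δ hδ i)
  have h2 := mul_rank_le_iSup_tens (fun b : B => nvec M I a b (w b)) A β (by
    intro b
    rw [hA1, LinearEquiv.finrank_map_eq]
    exact hβ b b.2)
  have h3 : (⨆ b : B, (A b).map (tens (nvec M I a b (w b))) :
      Submodule F (Bool → rgt I a × Bool → F)) =
      ⨆ b : B, ((D b).map (curryD F).toLinearMap).map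
      (rowMap (fun x y => M (x.1.1, x.2) (y.1.1, y.2) : B × Bool → rgt I a × Bool → F) b) := by
    refine iSup_congr fun b => ?_
    exact hA2 b
  rw [h3] at h2
  have h4 : β * (rgt I a).card ≤ β * (finrank F (Submodule.span F
          (Set.range fun b : B => nvec M I a b (w b))) + C) := Nat.mul_le_mul_left _ hr
  rw [Nat.mul_add] at h4
  omega

end Pool.Agent.Lib.P9Sec5
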