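import Pool.Agent.Lib.MP_0c183c_co_P9A.Two
import Pool.Agent.Lib.MP_0c183c_co_P9A.Filt
import Pool.Agent.Lib.MP_0c183c_co_P9S7.Ker

/-!
# P9, block (A): narrow lines and their growth in case (c)

Case (c): `e₁ = 1` and the two-sided ranks are full.  `KerS (W.P T) (V (insert b Y₀)) (V X)`,
`X < b < Y₀`, is the space of right relations; its projection to `V_b` is the line of `b`.
[helper72]
-/

set_option autoImplicit false

namespace Pool.Agent.Lib.MP_0c183c_co_P9A

open Module Pool.Agent.Lib.P9RankMat Pool.Agent.Lib.MP_0c183c_co_P9W Pool.Agent.MP_0c183c.P9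
open Pool.Agent.Lib.MP_0c183c_co_P9S7

/-- CASE (c): slope one from the right, full two-sided ranks. -/
structure CaseC (W : World) (N₀ : ℕ) : Prop where
  slope : ∀ N v, N₀ ≤ N → 2 * (N + 1) ≤ v → W.R (N + 1) v = W.R N v + 1
  full : ∀ l v r, 2 * v ≤ l → 2 * v ≤ r → W.R2 l v r = 2 * v

/-- The class of far arrays, abstractly. -/
structure FarClass (W : World) (L : Finset ℚ → Finset ℚ → Prop) : Prop where
  sub : ∀ {T I}, L T I → I ⊆ T
  anti : ∀ {T I I'}, L T I → I' ⊆ I → L T I'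
  ext : ∀ I T₀ : Finset ℚ, I ⊆ T₀ → ∃ T, T₀ ⊆ T ∧ L T I
  conj : ∀ {T T' I : Finset ℚ} {f : ℚ → ℚ}, StrictMonoOn f (I : Set ℚ) → L T I →
    L T' (I.image f) → ∃ σ : W.Ω ≃+* W.Ω, ∀ x y : Vx, x.1 ∈ I → y.1 ∈ I → x.1 ≠ y.1 →
      σ (W.P T x y) = W.P T' (f x.1, x.2) (f y.1, y.2)

/-- the matrix whose row `b` is `P(w_b, ·)` -/
def nmat {Ω : Type*} [Field Ω] (M : Vx → Vx → Ω) (w : ℚ → Bool → Ω) : Matrix ℚ Vx Ω :=
  fun b y => w b false * M (b, false) y + w b true * M (b, true) y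

theorem rk_scale {α β F : Type*} [Field F] (M M' : Matrix α β F) (A : Finset α) (B : Finset β)
    (h : ∀ a ∈ A, ∃ c : F, c ≠ 0 ∧ ∀ b ∈ B, M' a b = c * M a b) : rk M' A B = rk M A B := by
  have key : ∀ (M M' : Matrix α β F), (∀ a ∈ A, ∃ c : F, ∀ b ∈ B, M' a b = c * M a b) →
      rowSpan M' A B ≤ rowSpan M A B := by
    intro M M' h
    unfold rowSpan
    rw [Submodule.span_le]
    rintro _ ⟨a, ha, rfl⟩
    obtain ⟨c, hc⟩ := h a (by exact_mod_cast ha)
    have : rowOn M' B a = c • rowOn M B a := by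
      funext b
      exact hc b b.2
    rw [this]
    exact Submodule.smul_mem _ _ (Submodule.subset_span ⟨a, ha, rfl⟩)
  unfold rk
  have e : rowSpan M' A B = rowSpan M A B := by
    apply le_antisymm
    · exact key M M' fun a ha => by
        obtain ⟨c, -, hc⟩ := h a ha
        exact ⟨c, hc⟩
    · exact key M' M fun a ha => by
        obtain ⟨c, hc0, hc⟩ := h a ha
        refine ⟨c⁻¹, fun b hb => ?_⟩
        rw [hc b hb, ← mul_assoc, inv_mul_cancel₀ hc0, one_mul]
  rw [e]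

/-- two rows per element: the rank is at most `|B|` plus the rank of the rows `w_b` -/
theorem rk_le_nmat {Ω : Type*} [Field Ω] (M : Vx → Vx → Ω) (w : ℚ → Bool → Ω) (B : Finset ℚ)
    (hw : ∀ b ∈ B, w b ≠ 0) (C : Finset Vx) :
    rk (M : Matrix Vx Vx Ω) (V B) C ≤ B.card + rk (nmat M w) B C := by
  classical
  -- the other row
  have hs : ∀ b : ℚ, ∃ s : Bool, b ∈ B → w b s ≠ 0 := by
    intro b
    by_cases hb : b ∈ B
    · obtain ⟨s, hs⟩ := Function.ne_iff.1 (hw b hb)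
      exact ⟨s, fun _ => hs⟩
    · exact ⟨true, fun h => absurd h hb⟩
  choose s hs using hs
  let M2 : Matrix ℚ Vx Ω := fun b y => M (b, !(s b)) y
  have hle : rowSpan (M : Matrix Vx Vx Ω) (V B) C ≤ rowSpan M2 B C ⊔ rowSpan (nmat M w) B C := by
    conv_lhs => unfold rowSpan
    rw [Submodule.span_le]
    rintro _ ⟨⟨b, t⟩, hbt, rfl⟩
    have hb : b ∈ B := mem_V.1 (by exact_mod_cast hbt)
    have h2 : rowOn M2 C b ∈ rowSpan M2 B C :=
      Submodule.subset_span ⟨b, by exact_mod_cast hb, rfl⟩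
    have h3 : rowOn (nmat M w) C b ∈ rowSpan (nmat M w) B C :=
      Submodule.subset_span ⟨b, by exact_mod_cast hb, rfl⟩
    by_cases ht : t = s b
    · have e : rowOn (M : Matrix Vx Vx Ω) C (b, t) =
          (w b (s b))⁻¹ • (rowOn (nmat M w) C b - w b (!(s b)) • rowOn M2 C b) := by
        funext y
        have hne := hs b hb
        show M (b, t) y = (w b (s b))⁻¹ * ((w b false * M (b, false) y + w b true * M (b, true) y)
          - w b (!(s b)) * M (b, !(s b)) y)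
        rw [ht]
        cases hsb : s b
        · rw [hsb] at hne
          simp only [Bool.not_false]
          rw [add_sub_cancel_right, ← mul_assoc, inv_mul_cancel₀ hne, one_mul]
        · rw [hsb] at hne
          simp only [Bool.not_true]
          rw [add_sub_cancel_left, ← mul_assoc, inv_mul_cancel₀ hne, one_mul]
      rw [SetLike.mem_coe, e]
      refine Submodule.smul_mem _ _ (Submodule.sub_mem _ ?_ (Submodule.smul_mem _ _ ?_))
      · exact Submodule.mem_sup_right h3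
      · exact Submodule.mem_sup_left h2
    · have ht' : t = !(s b) := by
        cases t <;> cases hsb : s b <;> simp_all
      rw [SetLike.mem_coe, ht']
      exact Submodule.mem_sup_left h2
  have h1 := Submodule.finrank_mono hle
  have h2 := Submodule.finrank_add_le_finrank_add_finrank (rowSpan M2 B C)
    (rowSpan (nmat M w) B C)
  have h3 := rk_le_card_left M2 B C
  unfold rk at h3 ⊢
  omega

/-- the rows `w_b`, `b ∈ B`, on the columns `A` lie in the span of the rows over `Y₀` -/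
theorem rk_nmat_le {Ω : Type*} [Field Ω] (M : Vx → Vx → Ω) (w : ℚ → Bool → Ω) (B Y₀ : Finset ℚ)
    (A : Finset Vx) (hbY : ∀ b ∈ B, b ∉ Y₀)
    (h : ∀ b ∈ B, ∃ κ ∈ KerS M (V (insert b Y₀)) A, ∀ s, κ (b, s) = w b s) :
    rk (nmat M w) B A ≤ 2 * Y₀.card := by
  classical
  have hle : rowSpan (nmat M w) B A ≤ rowSpan (M : Matrix Vx Vx Ω) (V Y₀) A := by
    conv_lhs => unfold rowSpan
    rw [Submodule.span_le]
    rintro _ ⟨b, hb, rfl⟩
    have hb : b ∈ B := by exact_mod_cast hb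
    obtain ⟨κ, hκ, hκw⟩ := h b hb
    rw [SetLike.mem_coe, mem_rowSpan_iff]
    refine ⟨fun y => -κ y, ?_⟩
    funext y
    have h1 := hκ.2 y.1 y.2
    have h2 : V (insert b Y₀) = insert (b, false) (insert (b, true) (V Y₀)) := by
      ext ⟨q, s⟩
      simp only [mem_V, Finset.mem_insert, Prod.mk.injEq]
      cases s <;> simp
    rw [h2, Finset.sum_insert, Finset.sum_insert] at h1
    · rw [Finset.sum_apply]
      show w b false * M (b, false) y + w b true * M (b, true) y =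
        ∑ x ∈ V Y₀, (-κ x) * M x y
      rw [← hκw, ← hκw]
      have h3 : ∑ x ∈ V Y₀, (-κ x) * M x y = - ∑ x ∈ V Y₀, κ x * M x y := by
        rw [← Finset.sum_neg_distrib]
        exact Finset.sum_congr rfl fun x _ => by ring
      rw [h3]
      linear_combination h1
    · intro hmem
      exact hbY b hb (mem_V.1 hmem)
    · rw [Finset.mem_insert]
      rintro (hmem | hmem)
      · simp at hmem
      · exact hbY b hb (mem_V.1 hmem)
  have h1 := Submodule.finrank_mono hle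
  have h2 := rk_le_card_left (M : Matrix Vx Vx Ω) (V Y₀) A
  rw [card_V] at h2
  unfold rk at h2 ⊢
  omega

/-! ### Relations -/

section

variable {W : World} {N₀ : ℕ}

/-- relations over `Y` against `X < Y` -/
theorem finrank_ker {T X Y : Finset ℚ} (hX : X ⊆ T) (hY : Y ⊆ T) (h : ∀ x ∈ X, ∀ y ∈ Y, x < y) :
    finrank W.Ω (KerS (W.P T) (V Y) (V X)) + W.R Y.card X.card = 2 * Y.card := by
  have h1 := finrank_KerS (W.P T) (V Y) (V X)
  rw [card_V] at h1
  have h2 : rk (W.P T : Matrix Vx Vx W.Ω) (V Y) (V X) = W.R Y.card X.card := by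
    have := W.rk_comm T (V Y) (V X)
    rw [W.rk_eq hX hY h] at this
    exact this
  rw [h2] at h1
  exact h1

/-- (4.1) right relations extend to all elements left of `b ∪ Y₀` (in EVERY array) -/
theorem ker_extend {T X X' Y : Finset ℚ} (hX : X ⊆ T) (hX' : X' ⊆ T) (hY : Y ⊆ T)
    (h : ∀ x ∈ X, ∀ y ∈ Y, x < y) (h' : ∀ x ∈ X', ∀ y ∈ Y, x < y) (hc : 2 * Y.card ≤ X.card)
    {κ : Vx → W.Ω} (hκ : κ ∈ KerS (W.P T) (V Y) (V X)) : κ ∈ KerS (W.P T) (V Y) (V X') := by
  classical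
  have h1 : κ ∈ KerS (W.P T) (V Y) (V (X ∪ X')) := by
    refine KerS_extend (V_mono Finset.subset_union_left) ?_ hκ
    have e1 := W.rk_comm T (V Y) (V X)
    have e2 := W.rk_comm T (V Y) (V (X ∪ X'))
    rw [W.rk_eq hX hY h] at e1
    rw [W.rk_eq (Finset.union_subset hX hX') hY (fun x hx y hy => by
      rcases Finset.mem_union.1 hx with hx | hx
      · exact h x hx y hy
      · exact h' x hx y hy)] at e2
    show rk (W.mat T) (V Y) (V (X ∪ X')) ≤ rk (W.mat T) (V Y) (V X)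
    rw [e1, e2, W.rankFun.eq_inf _ _ hc,
      W.rankFun.eq_inf _ _ (hc.trans (Finset.card_le_card Finset.subset_union_left))]
  exact KerS_anti_right _ (V_mono Finset.subset_union_right) h1

/-- the form used with K1 (ii) -/
theorem kills_a {T X Y₀ : Finset ℚ} {a b : ℚ} (hX : X ⊆ T) (hY : Y₀ ⊆ T) (ha : a ∈ T) (hb : b ∈ T)
    (hXb : ∀ x ∈ X, x < b) (hXY : ∀ x ∈ X, ∀ y ∈ Y₀, x < y) (hab : a < b) (haY : ∀ y ∈ Y₀, a < y)
    (hbY : b ∉ Y₀) (hc : 2 * (Y₀.card + 1) ≤ X.card)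
    {κ : Vx → W.Ω} (hκ : κ ∈ KerS (W.P T) (V (insert b Y₀)) (V X)) (i : Bool) :
    ∑ c ∈ V (insert b Y₀), κ c * W.P T c (a, i) = 0 := by
  classical
  have h1 := ker_extend (W := W) (T := T) (X := X) (X' := {a}) (Y := insert b Y₀) hX
    (by simpa using ha) (Finset.insert_subset hb hY)
    (fun x hx y hy => by
      rcases Finset.mem_insert.1 hy with rfl | hy
      · exact hXb x hx
      · exact hXY x hx y hy)
    (fun x hx y hy => by
      rw [Finset.mem_singleton] at hx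
      subst hx
      rcases Finset.mem_insert.1 hy with rfl | hy
      · exact hab
      · exact haY y hy)
    (by rw [Finset.card_insert_of_notMem hbY]; exact hc) hκ
  exact h1.2 (a, i) (by rw [mem_V]; simp)

variable (hC : CaseC W N₀)

include hC

/-- the line of `b` has dimension one -/
theorem finrank_ker_insert {T X Y₀ : Finset ℚ} {b : ℚ} (hX : X ⊆ T) (hY : Y₀ ⊆ T) (hb : b ∈ T)
    (hXb : ∀ x ∈ X, x < b) (hXY : ∀ x ∈ X, ∀ y ∈ Y₀, x < y) (hbY : b ∉ Y₀)
    (hN : N₀ ≤ Y₀.card) (hc : 2 * (Y₀.card + 1) ≤ X.card) :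
    finrank W.Ω (KerS (W.P T) (V (insert b Y₀)) (V X)) =
      finrank W.Ω (KerS (W.P T) (V Y₀) (V X)) + 1 := by
  have h1 := finrank_ker (W := W) hX hY hXY
  have h2 := finrank_ker (W := W) hX (Finset.insert_subset hb hY) (fun x hx y hy => by
    rcases Finset.mem_insert.1 hy with rfl | hy
    · exact hXb x hx
    · exact hXY x hx y hy)
  rw [Finset.card_insert_of_notMem hbY] at h2
  have h3 := hC.slope _ _ hN hc
  have h4 := W.rankFun.le_left Y₀.card X.card
  omega

/-- the line exists -/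
theorem exists_line {T X Y₀ : Finset ℚ} {b : ℚ} (hX : X ⊆ T) (hY : Y₀ ⊆ T) (hb : b ∈ T)
    (hXb : ∀ x ∈ X, x < b) (hXY : ∀ x ∈ X, ∀ y ∈ Y₀, x < y) (hbY : b ∉ Y₀)
    (hN : N₀ ≤ Y₀.card) (hc : 2 * (Y₀.card + 1) ≤ X.card) :
    ∃ κ ∈ KerS (W.P T) (V (insert b Y₀)) (V X), (fun s => κ (b, s)) ≠ 0 := by
  classical
  by_contra hcon
  push Not at hcon
  have h1 := finrank_ker_insert hC hX hY hb hXb hXY hbY hN hc
  have h2 : KerS (W.P T) (V (insert b Y₀)) (V X) ≤ KerS (W.P T) (V Y₀) (V X) := by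
    intro κ hκ
    refine mem_KerS_of_support (V_mono (Finset.subset_insert _ _)) hκ ?_
    rintro ⟨q, s⟩ hq hq'
    have hq1 : q = b := by
      rcases Finset.mem_insert.1 (mem_V.1 hq) with h | h
      · exact h
      · exact absurd (mem_V.2 h) hq'
    subst hq1
    exact congrFun (hcon κ hκ) s
  have h3 := Submodule.finrank_mono h2
  omega

/-- the line is unique -/
theorem line_unique {T X Y₀ : Finset ℚ} {b : ℚ} (hX : X ⊆ T) (hY : Y₀ ⊆ T) (hb : b ∈ T)
    (hXb : ∀ x ∈ X, x < b) (hXY : ∀ x ∈ X, ∀ y ∈ Y₀, x < y) (hbY : b ∉ Y₀)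
    (hN : N₀ ≤ Y₀.card) (hc : 2 * (Y₀.card + 1) ≤ X.card) {κ κ' : Vx → W.Ω}
    (hκ : κ ∈ KerS (W.P T) (V (insert b Y₀)) (V X))
    (hκ' : κ' ∈ KerS (W.P T) (V (insert b Y₀)) (V X)) (h0 : (fun s => κ (b, s)) ≠ 0)
    (h0' : (fun s => κ' (b, s)) ≠ 0) :
    ∃ c : W.Ω, c ≠ 0 ∧ ∀ s, κ' (b, s) = c * κ (b, s) := by
  classical
  have h1 := (finrank_ker_insert hC hX hY hb hXb hXY hbY hN hc).le
  have hs : ∀ s : Bool, (b, s) ∉ V Y₀ := fun s h => hbY (mem_V.1 h)
  have h2 := cross_eq_zero (V_mono (Finset.subset_insert b Y₀)) (hs false) (hs true) h1 hκ hκ'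
  have hne : κ (b, false) ≠ 0 ∨ κ (b, true) ≠ 0 := by
    by_contra hcon
    push Not at hcon
    apply h0
    funext s
    cases s
    · exact hcon.1
    · exact hcon.2
  have hfin : ∀ c : W.Ω, (∀ s, κ' (b, s) = c * κ (b, s)) → c ≠ 0 := by
    intro c hc hc0
    apply h0'
    funext s
    rw [hc s, hc0, zero_mul]
    rfl
  rcases hne with hne | hne
  · refine ⟨κ' (b, false) / κ (b, false), ?_, ?_⟩
    · apply hfin
      intro s
      cases s
      · rw [div_mul_cancel₀ _ hne]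
      · rw [div_mul_eq_mul_div, eq_div_iff hne]
        linear_combination h2
    · intro s
      cases s
      · rw [div_mul_cancel₀ _ hne]
      · rw [div_mul_eq_mul_div, eq_div_iff hne]
        linear_combination h2
  · refine ⟨κ' (b, true) / κ (b, true), ?_, ?_⟩
    · apply hfin
      intro s
      cases s
      · rw [div_mul_eq_mul_div, eq_div_iff hne]
        linear_combination -h2
      · rw [div_mul_cancel₀ _ hne]
    · intro s
      cases s
      · rw [div_mul_eq_mul_div, eq_div_iff hne]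
        linear_combination -h2
      · rw [div_mul_cancel₀ _ hne]

end

/-! ### Growth -/

/-- numeric end -/
theorem concave_reach {G : ℕ → ℕ} {m N : ℕ} (hmono : ∀ n, n < m → G n ≤ G (n + 1))
    (hconc : ∀ n, n + 2 ≤ m → G (n + 2) + G n ≤ 2 * G (n + 1)) (hN : N ≤ m) (hG : N ≤ G m) :
    N ≤ G N := by
  by_contra hcon
  push Not at hcon
  have hex : ∃ n, n < N ∧ G (n + 1) ≤ G n := by
    by_contra h
    push Not at h
    have h1 : ∀ n, n ≤ N → n ≤ G n := by
      intro n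
      induction n with
      | zero => intro _; omega
      | succ n ih => intro hn; have := ih (by omega); have := h n (by omega); omega
    have := h1 N le_rfl
    omega
  obtain ⟨n, hn, h⟩ := hex
  have hst : ∀ k, n ≤ k → k + 1 ≤ m → G (k + 1) ≤ G k := by
    intro k hk
    induction k, hk using Nat.le_induction with
    | base => intro _; exact h
    | succ k hk ih =>
      intro hkm
      have h1 := ih (by omega)
      have h2 : G (k + 1 + 1) + G k ≤ 2 * G (k + 1) := hconc k (by omega)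
      have h3 := hmono k (by omega)
      omega
  have hst2 : ∀ k, n ≤ k → k ≤ m → G k ≤ G n := by
    intro k hk
    induction k, hk using Nat.le_induction with
    | base => intro _; exact le_rfl
    | succ k hk ih =>
      intro hkm
      exact (hst k hk hkm).trans (ih (by omega))
  have hup : ∀ k, n ≤ k → k ≤ m → G n ≤ G k := by
    intro k hk
    induction k, hk using Nat.le_induction with
    | base => intro _; exact le_rfl
    | succ k hk ih =>
      intro hkm
      exact (ih (by omega)).trans (hmono k (by omega))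
  have h1 := hst2 m (by omega) le_rfl
  have h2 := hup N hn.le hN
  omega

/-- many rationals in a gap -/
theorem exists_mid (S S' : Finset ℚ) (k : ℕ) (h : ∀ s ∈ S, ∀ t ∈ S', s < t) :
    ∃ Z : Finset ℚ, Z.card = k ∧ ∀ z ∈ Z, (∀ s ∈ S, s < z) ∧ ∀ t ∈ S', z < t := by
  classical
  obtain ⟨c, hc1, hc2⟩ := Order.exists_between_finsets S S' h
  obtain ⟨d, hd1, hd2⟩ := Order.exists_between_finsets {c} S' (by
    intro x hx y hy
    rw [Finset.mem_singleton] at hx
    rw [hx]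
    exact hc2 y hy)
  have hcd : c < d := hd1 c (Finset.mem_singleton_self c)
  obtain ⟨Z, hZ1, hZ2⟩ := (Set.Ioo_infinite hcd).exists_subset_card_eq k
  refine ⟨Z, hZ2, fun z hz => ?_⟩
  have h1 : z ∈ Set.Ioo c d := hZ1 (by exact_mod_cast hz)
  exact ⟨fun s hs => (hc1 s hs).trans h1.1, fun t ht => h1.2.trans (hd2 t ht)⟩

/-- an automorphism moving `Y₁` to `Y₂` and fixing everything in `A` (left) and `Z` (right) -/
theorem exists_orderIso_fix {A Y₁ Y₂ Z : Finset ℚ} (hc : Y₁.card = Y₂.card)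
    (h1 : ∀ a ∈ A, ∀ y ∈ Y₁, a < y) (h2 : ∀ a ∈ A, ∀ y ∈ Y₂, a < y)
    (h3 : ∀ y ∈ Y₁, ∀ z ∈ Z, y < z) (h4 : ∀ y ∈ Y₂, ∀ z ∈ Z, y < z)  :
    ∃ g : ℚ ≃o ℚ, (∀ x ∈ A, g x = x) ∧ (∀ x ∈ Z, g x = x) ∧ Y₁.image g = Y₂ := by
  classical
  obtain ⟨q, hq, hq1, hq2⟩ := exists_pairs hc
  have m1 : ∀ x ∈ q, x.1 ∈ Y₁ := fun x hx => hq1 ▸ Finset.mem_image_of_mem _ hx
  have m2 : ∀ x ∈ q, x.2 ∈ Y₂ := fun x hx => hq2 ▸ Finset.mem_image_of_mem _ hx
  have hd : ∀ {S : Finset ℚ} {x : ℚ × ℚ}, x ∈ S.image (fun s => (s, s)) → x.1 ∈ S ∧ x.2 = x.1 := by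
    intro S x hx
    obtain ⟨s, hs, rfl⟩ := Finset.mem_image.1 hx
    exact ⟨hs, rfl⟩
  obtain ⟨g, hg⟩ := exists_orderIso_extend
      (A.image (fun s => (s, s)) ∪ q ∪ Z.image (fun s => (s, s))) (by
    intro x hx y hy
    rcases Finset.mem_union.1 hx with hx | hx
    · rcases Finset.mem_union.1 hx with hx | hx
      · obtain ⟨hx1, hx2⟩ := hd hx
        rcases Finset.mem_union.1 hy with hy | hy
        · rcases Finset.mem_union.1 hy with hy | hy
          · obtain ⟨hy1, hy2⟩ := hd hy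
            rw [hx2, hy2]
          · rw [hx2, (cmp_eq_lt_iff _ _).2 (h1 _ hx1 _ (m1 y hy)),
              (cmp_eq_lt_iff _ _).2 (h2 _ hx1 _ (m2 y hy))]
        · obtain ⟨hy1, hy2⟩ := hd hy
          rw [hx2, hy2]
      · rcases Finset.mem_union.1 hy with hy | hy
        · rcases Finset.mem_union.1 hy with hy | hy
          · obtain ⟨hy1, hy2⟩ := hd hy
            rw [hy2, (cmp_eq_gt_iff _ _).2 (h1 _ hy1 _ (m1 x hx)),
              (cmp_eq_gt_iff _ _).2 (h2 _ hy1 _ (m2 x hx))]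
          · exact hq x hx y hy
        · obtain ⟨hy1, hy2⟩ := hd hy
          rw [hy2, (cmp_eq_lt_iff _ _).2 (h3 _ (m1 x hx) _ hy1),
            (cmp_eq_lt_iff _ _).2 (h4 _ (m2 x hx) _ hy1)]
    · obtain ⟨hx1, hx2⟩ := hd hx
      rcases Finset.mem_union.1 hy with hy | hy
      · rcases Finset.mem_union.1 hy with hy | hy
        · obtain ⟨hy1, hy2⟩ := hd hy
          rw [hx2, hy2]
        · rw [hx2, (cmp_eq_gt_iff _ _).2 (h3 _ (m1 y hy) _ hx1),
            (cmp_eq_gt_iff _ _).2 (h4 _ (m2 y hy) _ hx1)]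
      · obtain ⟨hy1, hy2⟩ := hd hy
        rw [hx2, hy2])
  refine ⟨g, fun x hx => ?_, fun x hx => ?_, ?_⟩
  · exact hg (x, x) (Finset.mem_union_left _ (Finset.mem_union_left _
      (Finset.mem_image_of_mem _ hx)))
  · exact hg (x, x) (Finset.mem_union_right _ (Finset.mem_image_of_mem _ hx))
  · rw [← hq1, ← hq2, Finset.image_image]
    exact Finset.image_congr fun x hx =>
      hg x (Finset.mem_union_left _ (Finset.mem_union_right _ hx))

/-- transport of relations -/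
theorem ker_map {Ω : Type*} [Field Ω] (σ : Ω ≃+* Ω) (M M' : Vx → Vx → Ω) (A B : Finset Vx)
    (h : ∀ x ∈ A, ∀ y ∈ B, σ (M x y) = M' x y) {κ : Vx → Ω} (hκ : κ ∈ KerS M A B) :
    (fun x => σ (κ x)) ∈ KerS M' A B := by
  refine ⟨fun x hx => by simp [hκ.1 x hx], fun y hy => ?_⟩
  have h1 := congrArg σ (hκ.2 y hy)
  rw [map_sum, map_zero] at h1
  rw [← h1]
  refine Finset.sum_congr rfl fun x hx => ?_
  rw [map_mul, h x hx y hy]

/-- The configuration of the growth argument. -/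
structure Cfg (W : World) (N₀ : ℕ) (L : Finset ℚ → Finset ℚ → Prop) (T A B Y Y₀ : Finset ℚ)
    (w : ℚ → Bool → W.Ω) : Prop where
  far : L T (A ∪ B ∪ Y ∪ Y₀)
  hAB : ∀ x ∈ A, ∀ y ∈ B, x < y
  hAY : ∀ x ∈ A, ∀ y ∈ Y, x < y
  hAZ : ∀ x ∈ A, ∀ y ∈ Y₀, x < y
  hBY : ∀ x ∈ B, ∀ y ∈ Y, x < y
  hBZ : ∀ x ∈ B, ∀ y ∈ Y₀, x < y
  hYZ : ∀ x ∈ Y, ∀ y ∈ Y₀, x < y
  hY₀ : N₀ ≤ Y₀.card
  hA : 2 * (Y₀.card + 1) ≤ A.card
  hw0 : ∀ b ∈ B, w b ≠ 0
  hw : ∀ b ∈ B, ∃ κ ∈ KerS (W.P T) (V (insert b Y₀)) (V A), ∀ s, κ (b, s) = w b s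

section

variable {W : World} {N₀ : ℕ} {L : Finset ℚ → Finset ℚ → Prop} (hC : CaseC W N₀)
  (hL : FarClass W L)

include hC hL

theorem Cfg.homog {T A B Y Y₀ : Finset ℚ} {w : ℚ → Bool → W.Ω} (h : Cfg W N₀ L T A B Y Y₀ w)
    {Y₁ Y₂ : Finset ℚ} (h1 : Y₁ ⊆ Y) (h2 : Y₂ ⊆ Y) (hc : Y₁.card = Y₂.card) :
    rk (nmat (W.P T) w) B (V Y₁) = rk (nmat (W.P T) w) B (V Y₂) := by
  classical
  have hIT := hL.sub h.far
  obtain ⟨g, hg1, hg2, hg3⟩ := exists_orderIso_fix (A := A ∪ B) (Z := Y₀) hc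
    (fun a ha y hy => by
      rcases Finset.mem_union.1 ha with ha | ha
      · exact h.hAY a ha y (h1 hy)
      · exact h.hBY a ha y (h1 hy))
    (fun a ha y hy => by
      rcases Finset.mem_union.1 ha with ha | ha
      · exact h.hAY a ha y (h2 hy)
      · exact h.hBY a ha y (h2 hy))
    (fun y hy z hz => h.hYZ y (h1 hy) z hz) (fun y hy z hz => h.hYZ y (h2 hy) z hz)
  have hsub1 : A ∪ B ∪ Y₁ ∪ Y₀ ⊆ A ∪ B ∪ Y ∪ Y₀ :=
    Finset.union_subset_union (Finset.union_subset_union le_rfl h1) le_rfl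
  have hsub2 : A ∪ B ∪ Y₂ ∪ Y₀ ⊆ A ∪ B ∪ Y ∪ Y₀ :=
    Finset.union_subset_union (Finset.union_subset_union le_rfl h2) le_rfl
  have him : (A ∪ B ∪ Y₁ ∪ Y₀).image g = A ∪ B ∪ Y₂ ∪ Y₀ := by
    rw [Finset.image_union, Finset.image_union, hg3]
    congr 1
    · congr 1
      rw [Finset.image_congr (g := id) (fun x hx => hg1 x hx), Finset.image_id]
    · rw [Finset.image_congr (g := id) (fun x hx => hg2 x hx), Finset.image_id]
  obtain ⟨σ, hσ⟩ := hL.conj (f := g) (g.strictMono.strictMonoOn _) (hL.anti h.far hsub1)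
    (T' := T) (by rw [him]; exact hL.anti h.far hsub2)
  have memA : ∀ x ∈ A, x ∈ A ∪ B ∪ Y₁ ∪ Y₀ := fun x hx => by simp [hx]
  have memB : ∀ x ∈ B, x ∈ A ∪ B ∪ Y₁ ∪ Y₀ := fun x hx => by simp [hx]
  have memY : ∀ x ∈ Y₁, x ∈ A ∪ B ∪ Y₁ ∪ Y₀ := fun x hx => by simp [hx]
  have memZ : ∀ x ∈ Y₀, x ∈ A ∪ B ∪ Y₁ ∪ Y₀ := fun x hx => by simp [hx]
  have gA : ∀ x ∈ A, g x = x := fun x hx => hg1 x (Finset.mem_union_left _ hx)
  have gB : ∀ x ∈ B, g x = x := fun x hx => hg1 x (Finset.mem_union_right _ hx)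
  -- step 1 : the relabelled matrix
  have e1 := rk_map σ (nmat (W.P T) w) (nmat (W.P T) fun b s => σ (w b s)) B (V Y₁) id
    (fun x => (g x.1, x.2))
    (fun x y hxy => by
      have e1 := congrArg Prod.fst hxy
      have e2 := congrArg Prod.snd hxy
      exact Prod.ext (g.injective e1) e2)
    (fun b hb y hy => by
      have hy' := mem_V.1 hy
      have e2 : ∀ s, σ (W.P T (b, s) y) = W.P T (b, s) (g y.1, y.2) := fun s => by
        have := hσ (b, s) y (memB b hb) (memY _ hy') (h.hBY b hb _ (h1 hy')).ne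
        rw [this]
        show W.P T (g b, s) _ = _
        rw [gB b hb]
      show σ (w b false) * W.P T (b, false) (g y.1, y.2) +
        σ (w b true) * W.P T (b, true) (g y.1, y.2) =
        σ (w b false * W.P T (b, false) y + w b true * W.P T (b, true) y)
      rw [map_add, map_mul, map_mul, e2, e2])
  rw [Finset.image_id, ← V_image, hg3] at e1
  rw [← e1]
  -- step 2 : scaling
  refine rk_scale _ _ _ _ fun b hb => ?_
  obtain ⟨κ, hκ, hκw⟩ := h.hw b hb
  have hbY : b ∉ Y₀ := fun hb' => lt_irrefl _ (h.hBZ b hb b hb')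
  have hκ' : (fun x => σ (κ x)) ∈ KerS (W.P T) (V (insert b Y₀)) (V A) := by
    refine ker_map σ _ _ _ _ ?_ hκ
    intro x hx y hy
    have hx1 := mem_V.1 hx
    have hy1 := mem_V.1 hy
    have hx2 : x.1 ∈ A ∪ B ∪ Y₁ ∪ Y₀ := by
      rcases Finset.mem_insert.1 hx1 with hx1 | hx1
      · rw [hx1]; exact memB b hb
      · exact memZ _ hx1
    have hx3 : g x.1 = x.1 := by
      rcases Finset.mem_insert.1 hx1 with hx1 | hx1
      · rw [hx1]; exact gB b hb
      · exact hg2 _ hx1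
    have hxy : x.1 ≠ y.1 := by
      rcases Finset.mem_insert.1 hx1 with hx1 | hx1
      · rw [hx1]; exact (h.hAB _ hy1 _ hb).ne'
      · exact (h.hAZ _ hy1 _ hx1).ne'
    rw [hσ x y hx2 (memA _ hy1) hxy, hx3, gA _ hy1]
  have h0 : (fun s => κ (b, s)) ≠ 0 := by
    intro h0
    apply h.hw0 b hb
    funext s
    rw [← hκw s]
    exact congrFun h0 s
  have h0' : (fun s => σ (κ (b, s))) ≠ 0 := by
    intro h0'
    apply h0
    funext s
    have := congrFun h0' s
    exact (map_eq_zero σ).1 this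
  have hAT : A ⊆ T := fun x hx => hIT (by simp [hx])
  have hZT : Y₀ ⊆ T := fun x hx => hIT (by simp [hx])
  have hbT : b ∈ T := hIT (by simp [hb])
  obtain ⟨c, hc0, hc'⟩ := line_unique hC hAT hZT hbT
    (fun x hx => h.hAB x hx b hb) h.hAZ hbY h.hY₀ h.hA hκ hκ' h0 h0'
  refine ⟨c, hc0, fun y _ => ?_⟩
  show σ (w b false) * W.P T (b, false) y + σ (w b true) * W.P T (b, true) y =
    c * (w b false * W.P T (b, false) y + w b true * W.P T (b, true) y)
  rw [← hκw, ← hκw]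
  have h5 := hc' false
  have h6 := hc' true
  rw [h5, h6]
  ring

theorem Cfg.lower {T A B Y Y₀ : Finset ℚ} {w : ℚ → Bool → W.Ω} (h : Cfg W N₀ L T A B Y Y₀ w)
    (hA : 2 * B.card ≤ A.card) (hY : 2 * B.card ≤ Y.card) :
    B.card ≤ rk (nmat (W.P T) w) B (V Y) + 2 * Y₀.card := by
  classical
  have hIT := hL.sub h.far
  have h1 : rk (W.mat T) (V B) (V (A ∪ Y)) = 2 * B.card := by
    rw [W.rk_eq_two (T := T) (A := A) (X := B) (B := Y) (fun x hx => hIT (by simp [hx]))
      (fun x hx => hIT (by simp [hx])) (fun x hx => hIT (by simp [hx])) h.hAB h.hBY h.hAY]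
    exact hC.full _ _ _ hA hY
  have h2 := rk_le_nmat (W.P T) w B h.hw0 (V (A ∪ Y))
  have h3 := rk_submod_right (nmat (W.P T) w) B (V A) (V Y)
  have h4 := rk_nmat_le (W.P T) w B Y₀ (V A)
    (fun b hb hb' => lt_irrefl _ (h.hBZ b hb b hb')) h.hw
  rw [← V_union] at h3
  have h5 : rk (W.mat T) (V B) (V (A ∪ Y)) = rk (W.P T : Matrix Vx Vx W.Ω) (V B) (V (A ∪ Y)) := rfl
  omega

theorem Cfg.growth_big {T A B Y Y₀ : Finset ℚ} {w : ℚ → Bool → W.Ω}
    (h : Cfg W N₀ L T A B Y Y₀ w) (hA : 2 * B.card ≤ A.card) (hY : 2 * B.card ≤ Y.card)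
    {Y₁ : Finset ℚ} (h1 : Y₁ ⊆ Y) (hc : Y₁.card + 2 * Y₀.card ≤ B.card) :
    Y₁.card ≤ rk (nmat (W.P T) w) B (V Y₁) := by
  classical
  have hZ : ∀ n, ∃ Z : Finset ℚ, n ≤ Y.card → Z ⊆ Y ∧ Z.card = n := by
    intro n
    by_cases hn : n ≤ Y.card
    · obtain ⟨Z, hZ1, hZ2⟩ := Finset.exists_subset_card_eq hn
      exact ⟨Z, fun _ => ⟨hZ1, hZ2⟩⟩
    · exact ⟨∅, fun h => absurd h hn⟩
  choose Z hZ using hZ
  set G : ℕ → ℕ := fun n => rk (nmat (W.P T) w) B (V (Z n)) with hG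
  have hGeq : ∀ {Y₂ : Finset ℚ}, Y₂ ⊆ Y → rk (nmat (W.P T) w) B (V Y₂) = G Y₂.card := by
    intro Y₂ hY₂
    have h2 := hZ Y₂.card (Finset.card_le_card hY₂)
    exact h.homog hC hL hY₂ h2.1 h2.2.symm
  have hmono : ∀ n, n < Y.card → G n ≤ G (n + 1) := by
    intro n hn
    have h2 := hZ (n + 1) hn
    obtain ⟨S, hS1, hS2⟩ := Finset.exists_subset_card_eq (s := Z (n + 1)) (n := n)
      (by rw [h2.2]; exact Nat.le_succ n)
    have h3 := hGeq (hS1.trans h2.1)
    rw [hS2] at h3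
    rw [← h3]
    exact rk_mono_right _ _ (V_mono hS1)
  have hconc : ∀ n, n + 2 ≤ Y.card → G (n + 2) + G n ≤ 2 * G (n + 1) := by
    intro n hn
    have h2 := hZ (n + 2) hn
    -- remove two elements
    have hne : (Z (n + 2)).Nonempty := by
      rw [← Finset.card_pos, h2.2]; omega
    obtain ⟨y, hy⟩ := hne
    have hne' : ((Z (n + 2)).erase y).Nonempty := by
      rw [← Finset.card_pos, Finset.card_erase_of_mem hy, h2.2]; omega
    obtain ⟨z, hz⟩ := hne'
    have hzy : z ≠ y := (Finset.mem_erase.1 hz).1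
    have hz' : z ∈ Z (n + 2) := (Finset.mem_erase.1 hz).2
    have c1 : ((Z (n + 2)).erase y).card = n + 1 := by
      rw [Finset.card_erase_of_mem hy, h2.2]; omega
    have c2 : ((Z (n + 2)).erase z).card = n + 1 := by
      rw [Finset.card_erase_of_mem hz', h2.2]; omega
    have hu : (Z (n + 2)).erase y ∪ (Z (n + 2)).erase z = Z (n + 2) := by
      ext x
      simp only [Finset.mem_union, Finset.mem_erase, ne_eq]
      constructor
      · rintro (⟨_, h⟩ | ⟨_, h⟩) <;> exact h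
      · intro hx
        by_cases hxy : x = y
        · right
          exact ⟨fun h => hzy (h ▸ hxy), hx⟩
        · left
          exact ⟨hxy, hx⟩
    have hi : (Z (n + 2)).erase y ∩ (Z (n + 2)).erase z = ((Z (n + 2)).erase y).erase z := by
      ext x
      simp only [Finset.mem_inter, Finset.mem_erase, ne_eq]
      tauto
    have c3 : (((Z (n + 2)).erase y).erase z).card = n := by
      rw [Finset.card_erase_of_mem hz, c1]; omega
    have h5 := rk_submod_right (nmat (W.P T) w) B (V ((Z (n + 2)).erase y))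
      (V ((Z (n + 2)).erase z))
    rw [← V_union, ← V_inter, hu, hi, hGeq h2.1, h2.2,
      hGeq ((Finset.erase_subset _ _).trans h2.1), hGeq ((Finset.erase_subset _ _).trans h2.1),
      hGeq (((Finset.erase_subset _ _).trans (Finset.erase_subset _ _)).trans h2.1), c1, c2,
      c3] at h5
    omega
  have hlow := h.lower hC hL hA hY
  rw [hGeq (Finset.Subset.refl Y)] at hlow
  rw [hGeq h1]
  exact concave_reach hmono hconc (Finset.card_le_card h1) (by omega)

/-- GROWTH: in case (c), for far arrays, `N` right elements and `|B| ≥ N + 2 |Y₀|`, the rows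
`P(w_b, ·)` on these `N` elements have rank at least `N`. -/
theorem Cfg.growth {T A B Y Y₀ : Finset ℚ} {w : ℚ → Bool → W.Ω}
    (h : Cfg W N₀ L T A B Y Y₀ w) (hc : Y.card + 2 * Y₀.card ≤ B.card) :
    Y.card ≤ rk (nmat (W.P T) w) B (V Y) := by
  classical
  obtain ⟨ZL, hZL1, hZL2⟩ := exists_mid ∅ (A ∪ B ∪ Y ∪ Y₀) (2 * B.card) (by simp)
  obtain ⟨ZM, hZM1, hZM2⟩ := exists_mid (ZL ∪ A ∪ B ∪ Y) Y₀ (2 * B.card) (by
    intro s hs t ht
    rcases Finset.mem_union.1 hs with hs | hs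
    · rcases Finset.mem_union.1 hs with hs | hs
      · rcases Finset.mem_union.1 hs with hs | hs
        · exact (hZL2 s hs).2 t (by simp [ht])
        · exact h.hAZ s hs t ht
      · exact h.hBZ s hs t ht
    · exact h.hYZ s hs t ht)
  obtain ⟨T', -, hT'⟩ := hL.ext (A ∪ ZL ∪ B ∪ (Y ∪ ZM) ∪ Y₀) (A ∪ ZL ∪ B ∪ (Y ∪ ZM) ∪ Y₀)
    le_rfl
  have hsub : A ∪ B ∪ Y ∪ Y₀ ⊆ A ∪ ZL ∪ B ∪ (Y ∪ ZM) ∪ Y₀ := by
    intro x hx
    simp only [Finset.mem_union] at hx ⊢
    tauto
  obtain ⟨σ, hσ⟩ := hL.conj (f := id) (strictMono_id.strictMonoOn _) h.far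
    (T' := T') (by rw [Finset.image_id]; exact hL.anti hT' hsub)
  have memA : ∀ x ∈ A, x ∈ A ∪ B ∪ Y ∪ Y₀ := fun x hx => by simp [hx]
  have memB : ∀ x ∈ B, x ∈ A ∪ B ∪ Y ∪ Y₀ := fun x hx => by simp [hx]
  have memY : ∀ x ∈ Y, x ∈ A ∪ B ∪ Y ∪ Y₀ := fun x hx => by simp [hx]
  have memZ : ∀ x ∈ Y₀, x ∈ A ∪ B ∪ Y ∪ Y₀ := fun x hx => by simp [hx]
  have hσ' : ∀ x y : Vx, x.1 ∈ A ∪ B ∪ Y ∪ Y₀ → y.1 ∈ A ∪ B ∪ Y ∪ Y₀ → x.1 ≠ y.1 →
      σ (W.P T x y) = W.P T' x y := fun x y hx hy hxy => hσ x y hx hy hxy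
  have hIT := hL.sub hT'
  have hcfg : Cfg W N₀ L T' (A ∪ ZL) B (Y ∪ ZM) Y₀ (fun b s => σ (w b s)) := by
    refine ⟨hT', ?_, ?_, ?_, ?_, h.hBZ, ?_, h.hY₀,
      h.hA.trans (Finset.card_le_card Finset.subset_union_left), ?_, ?_⟩
    · intro x hx y hy
      rcases Finset.mem_union.1 hx with hx | hx
      · exact h.hAB x hx y hy
      · exact (hZL2 x hx).2 y (by simp [hy])
    · intro x hx y hy
      rcases Finset.mem_union.1 hx with hx | hx
      · rcases Finset.mem_union.1 hy with hy | hy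
        · exact h.hAY x hx y hy
        · exact (hZM2 y hy).1 x (by simp [hx])
      · rcases Finset.mem_union.1 hy with hy | hy
        · exact (hZL2 x hx).2 y (by simp [hy])
        · exact (hZM2 y hy).1 x (by simp [hx])
    · intro x hx y hy
      rcases Finset.mem_union.1 hx with hx | hx
      · exact h.hAZ x hx y hy
      · exact (hZL2 x hx).2 y (by simp [hy])
    · intro x hx y hy
      rcases Finset.mem_union.1 hy with hy | hy
      · exact h.hBY x hx y hy
      · exact (hZM2 y hy).1 x (by simp [hx])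
    · intro x hx y hy
      rcases Finset.mem_union.1 hx with hx | hx
      · exact h.hYZ x hx y hy
      · exact (hZM2 x hx).2 y hy
    · intro b hb h0
      apply h.hw0 b hb
      funext s
      have := congrFun h0 s
      exact (map_eq_zero σ).1 this
    · intro b hb
      obtain ⟨κ, hκ, hκw⟩ := h.hw b hb
      have hbY : b ∉ Y₀ := fun hb' => lt_irrefl _ (h.hBZ b hb b hb')
      refine ⟨fun x => σ (κ x), ?_, fun s => by
        show σ (κ (b, s)) = σ (w b s)
        rw [hκw s]⟩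
      have h1 : (fun x => σ (κ x)) ∈ KerS (W.P T') (V (insert b Y₀)) (V A) := by
        refine ker_map σ _ _ _ _ ?_ hκ
        intro x hx y hy
        have hx1 := mem_V.1 hx
        have hy1 := mem_V.1 hy
        rcases Finset.mem_insert.1 hx1 with hx1 | hx1
        · exact hσ' x y (hx1 ▸ memB b hb) (memA _ hy1) (hx1 ▸ (h.hAB _ hy1 _ hb).ne')
        · exact hσ' x y (memZ _ hx1) (memA _ hy1) (h.hAZ _ hy1 _ hx1).ne'
      have hins : ∀ x ∈ A ∪ ZL, ∀ y ∈ insert b Y₀, x < y := by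
        intro x hx y hy
        rcases Finset.mem_insert.1 hy with rfl | hy
        · rcases Finset.mem_union.1 hx with hx | hx
          · exact h.hAB x hx _ hb
          · exact (hZL2 x hx).2 _ (by simp [hb])
        · rcases Finset.mem_union.1 hx with hx | hx
          · exact h.hAZ x hx y hy
          · exact (hZL2 x hx).2 y (by simp [hy])
      refine ker_extend (W := W) (X := A) ?_ ?_ ?_ ?_ hins ?_ h1
      · exact fun x hx => hIT (by simp [hx])
      · exact fun x hx => hIT (by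
          rcases Finset.mem_union.1 hx with hx | hx <;> simp [hx])
      · intro x hx
        rcases Finset.mem_insert.1 hx with hx | hx
        · exact hIT (by simp [hx, hb])
        · exact hIT (by simp [hx])
      · exact fun x hx y hy => hins x (Finset.mem_union_left _ hx) y hy
      · rw [Finset.card_insert_of_notMem hbY]
        exact h.hA
  have hbig := hcfg.growth_big hC hL
    (by rw [← hZL1]; exact Finset.card_le_card Finset.subset_union_right)
    (by rw [← hZM1]; exact Finset.card_le_card Finset.subset_union_right)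
    (Y₁ := Y) Finset.subset_union_left hc
  have e1 := rk_map σ (nmat (W.P T) w) (nmat (W.P T') fun b s => σ (w b s)) B (V Y) id id
    Function.injective_id
    (fun b hb y hy => by
      have hy' := mem_V.1 hy
      have e2 : ∀ s, σ (W.P T (b, s) y) = W.P T' (b, s) y := fun s =>
        hσ' (b, s) y (memB b hb) (memY _ hy') (h.hBY b hb _ hy').ne
      show σ (w b false) * W.P T' (b, false) y + σ (w b true) * W.P T' (b, true) y =
        σ (w b false * W.P T (b, false) y + w b true * W.P T (b, true) y)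
      rw [map_add, map_mul, map_mul, e2, e2])
  rw [Finset.image_id, Finset.image_id] at e1
  rw [← e1]
  exact hbig

end

end Pool.Agent.Lib.MP_0c183c_co_P9A
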