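import Pool.Agent.Lib.MP_0c183c_co_P9A.Rev

/-!
# P9, block (A): two-sided ranks and the dichotomy (H)

`W.R2 l v r` is the rank of `v` elements against `l` elements on their left together with `r`
elements on their right.  `H_or_full`: if `R` is unbounded then either all these ranks are full for
`l, r ≥ 2 v`, or they are `v + min v ρ` (this is (H)).
[helper72]
-/

set_option autoImplicit false

namespace Pool.Agent.Lib.MP_0c183c_co_P9A

open Module Pool.Agent.Lib.MP_0c183c_co_P9W Pool.Agent.MP_0c183c.P9 Pool.Agent.Lib.P9RankMat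

/-- three blocks in a row are conjugate -/
theorem exists_orderIso_triple {A X B A' X' B' : Finset ℚ}
    (hA : A.card = A'.card) (hX : X.card = X'.card) (hB : B.card = B'.card)
    (h1 : ∀ a ∈ A, ∀ x ∈ X, a < x) (h2 : ∀ x ∈ X, ∀ b ∈ B, x < b) (h3 : ∀ a ∈ A, ∀ b ∈ B, a < b)
    (h1' : ∀ a ∈ A', ∀ x ∈ X', a < x) (h2' : ∀ x ∈ X', ∀ b ∈ B', x < b)
    (h3' : ∀ a ∈ A', ∀ b ∈ B', a < b) :
    ∃ g : ℚ ≃o ℚ, A.image g = A' ∧ X.image g = X' ∧ B.image g = B' := by
  classical
  obtain ⟨p, hp, hp1, hp2⟩ := exists_pairs hA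
  obtain ⟨q, hq, hq1, hq2⟩ := exists_pairs hX
  obtain ⟨r, hr, hr1, hr2⟩ := exists_pairs hB
  have m1 : ∀ x ∈ p, x.1 ∈ A := fun x hx => hp1 ▸ Finset.mem_image_of_mem _ hx
  have m2 : ∀ x ∈ p, x.2 ∈ A' := fun x hx => hp2 ▸ Finset.mem_image_of_mem _ hx
  have m3 : ∀ x ∈ q, x.1 ∈ X := fun x hx => hq1 ▸ Finset.mem_image_of_mem _ hx
  have m4 : ∀ x ∈ q, x.2 ∈ X' := fun x hx => hq2 ▸ Finset.mem_image_of_mem _ hx
  have m5 : ∀ x ∈ r, x.1 ∈ B := fun x hx => hr1 ▸ Finset.mem_image_of_mem _ hx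
  have m6 : ∀ x ∈ r, x.2 ∈ B' := fun x hx => hr2 ▸ Finset.mem_image_of_mem _ hx
  obtain ⟨g, hg⟩ := exists_orderIso_extend (p ∪ q ∪ r) (by
    intro x hx y hy
    rcases Finset.mem_union.1 hx with hx | hx
    · rcases Finset.mem_union.1 hx with hx | hx
      · rcases Finset.mem_union.1 hy with hy | hy
        · rcases Finset.mem_union.1 hy with hy | hy
          · exact hp x hx y hy
          · rw [(cmp_eq_lt_iff _ _).2 (h1 _ (m1 x hx) _ (m3 y hy)),
              (cmp_eq_lt_iff _ _).2 (h1' _ (m2 x hx) _ (m4 y hy))]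
        · rw [(cmp_eq_lt_iff _ _).2 (h3 _ (m1 x hx) _ (m5 y hy)),
            (cmp_eq_lt_iff _ _).2 (h3' _ (m2 x hx) _ (m6 y hy))]
      · rcases Finset.mem_union.1 hy with hy | hy
        · rcases Finset.mem_union.1 hy with hy | hy
          · rw [(cmp_eq_gt_iff _ _).2 (h1 _ (m1 y hy) _ (m3 x hx)),
              (cmp_eq_gt_iff _ _).2 (h1' _ (m2 y hy) _ (m4 x hx))]
          · exact hq x hx y hy
        · rw [(cmp_eq_lt_iff _ _).2 (h2 _ (m3 x hx) _ (m5 y hy)),
            (cmp_eq_lt_iff _ _).2 (h2' _ (m4 x hx) _ (m6 y hy))]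
    · rcases Finset.mem_union.1 hy with hy | hy
      · rcases Finset.mem_union.1 hy with hy | hy
        · rw [(cmp_eq_gt_iff _ _).2 (h3 _ (m1 y hy) _ (m5 x hx)),
            (cmp_eq_gt_iff _ _).2 (h3' _ (m2 y hy) _ (m6 x hx))]
        · rw [(cmp_eq_gt_iff _ _).2 (h2 _ (m3 y hy) _ (m5 x hx)),
            (cmp_eq_gt_iff _ _).2 (h2' _ (m4 y hy) _ (m6 x hx))]
      · exact hr x hx y hy)
  refine ⟨g, ?_, ?_, ?_⟩
  · rw [← hp1, ← hp2, Finset.image_image]
    exact Finset.image_congr fun x hx =>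
      hg x (Finset.mem_union_left _ (Finset.mem_union_left _ hx))
  · rw [← hq1, ← hq2, Finset.image_image]
    exact Finset.image_congr fun x hx =>
      hg x (Finset.mem_union_left _ (Finset.mem_union_right _ hx))
  · rw [← hr1, ← hr2, Finset.image_image]
    exact Finset.image_congr fun x hx => hg x (Finset.mem_union_right _ hx)

/-- stabilisation of a bounded concave function with steps `≥ 0` -/
theorem concave_stable {g : ℕ → ℕ} {C : ℕ} (hmono : ∀ n, g n ≤ g (n + 1))
    (hconc : ∀ n, g (n + 2) + g n ≤ 2 * g (n + 1)) (hC : ∀ n, g n ≤ C) :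
    ∀ n, C ≤ n → g n = g C := by
  have incr : ∀ m n, m ≤ n → g (n + 1) + g m ≤ g n + g (m + 1) := by
    intro m n hmn
    induction n, hmn using Nat.le_induction with
    | base => omega
    | succ n _ ih =>
      have h1 : g (n + 1 + 1) + g n ≤ 2 * g (n + 1) := hconc n
      omega
  have hex : ∃ m, m ≤ C ∧ g (m + 1) ≤ g m := by
    by_contra hcon
    push Not at hcon
    have h2 : ∀ m, m ≤ C + 1 → m ≤ g m := by
      intro m
      induction m with
      | zero => intro _; omega
      | succ m ih => intro hm; have := ih (by omega); have := hcon m (by omega); omega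
    have h3 := h2 (C + 1) le_rfl
    have h4 := hC (C + 1)
    omega
  obtain ⟨m, hm, h⟩ := hex
  have hst : ∀ n, m ≤ n → g n = g m := by
    intro n hn
    induction n, hn using Nat.le_induction with
    | base => rfl
    | succ n hn ih =>
      have h1 := incr m n hn
      have h2 := hmono n
      omega
  intro n hn
  rw [hst n (hm.trans hn), hst C hm]

/-- the numeric dichotomy -/
theorem conc_dichotomy {h : ℕ → ℕ} (hc : Conc h) (hinc : ∀ v, h v + 1 ≤ h (v + 1)) :
    (∀ v, h v = 2 * v) ∨ ∃ ρ, ∀ v, h v = v + min v ρ := by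
  by_cases hall : ∀ v, h v + 2 ≤ h (v + 1)
  · left
    intro v
    induction v with
    | zero => simp [hc.zero]
    | succ v ih =>
      have := hall v
      have := hc.step v
      omega
  · right
    push Not at hall
    classical
    set ρ := Nat.find hall with hρ
    have h1 : h (ρ + 1) < h ρ + 2 := Nat.find_spec hall
    have h2 : ∀ v, v < ρ → h v + 2 ≤ h (v + 1) := fun v hv => by
      have := Nat.find_min hall hv
      omega
    have h3 : ∀ v, v ≤ ρ → h v = 2 * v := by
      intro v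
      induction v with
      | zero => intro _; simp [hc.zero]
      | succ v ih =>
        intro hv
        have e1 := ih (by omega)
        have e2 := h2 v (by omega)
        have e3 := hc.step v
        omega
    refine ⟨ρ, fun v => ?_⟩
    rcases le_or_gt v ρ with hv | hv
    · rw [h3 v hv, min_eq_left hv]; omega
    · rw [min_eq_right hv.le]
      have h4 : ∀ w, ρ ≤ w → h w = w + ρ := by
        intro w hw
        induction w, hw using Nat.le_induction with
        | base => rw [h3 ρ le_rfl]; omega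
        | succ w hw ih =>
          have e1 := hc.incr hw
          have e2 := hinc w
          omega
      exact h4 v hv.le

end Pool.Agent.Lib.MP_0c183c_co_P9A

namespace Pool.Agent.Lib.MP_0c183c_co_P9W.World

open Module Pool.Agent.Lib.MP_0c183c_co_P9A Pool.Agent.MP_0c183c.P9 Pool.Agent.Lib.P9RankMat

variable (W : World)

/-- standard far right sets: `v, v + 1, .., v + r - 1` -/
def stdF (v r : ℕ) : Finset ℚ := (Finset.range r).image fun i : ℕ => (v : ℚ) + (i : ℚ)

theorem card_stdF (v r : ℕ) : (stdF v r).card = r := by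
  unfold stdF
  rw [Finset.card_image_of_injective _ (fun a b h => by simpa using h), Finset.card_range]

theorem stdR_lt_stdF {v r : ℕ} : ∀ x ∈ stdR v, ∀ y ∈ stdF v r, x < y := by
  intro x hx y hy
  obtain ⟨i, hi, rfl⟩ := Finset.mem_image.1 hx
  obtain ⟨j, -, rfl⟩ := Finset.mem_image.1 hy
  have h1 : (i : ℚ) < v := by exact_mod_cast Finset.mem_range.1 hi
  have h2 : (0 : ℚ) ≤ j := Nat.cast_nonneg j
  linarith

theorem stdL_lt_stdF {l v r : ℕ} : ∀ x ∈ stdL l, ∀ y ∈ stdF v r, x < y := by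
  intro x hx y hy
  obtain ⟨i, -, rfl⟩ := Finset.mem_image.1 hx
  obtain ⟨j, -, rfl⟩ := Finset.mem_image.1 hy
  have h1 : (0 : ℚ) ≤ i := Nat.cast_nonneg i
  have h2 : (0 : ℚ) ≤ j := Nat.cast_nonneg j
  have h3 : (0 : ℚ) ≤ v := Nat.cast_nonneg v
  linarith

/-- the two-sided rank -/
noncomputable def R2 (l v r : ℕ) : ℕ :=
  rk (W.mat (stdR v ∪ (stdL l ∪ stdF v r))) (V (stdR v)) (V (stdL l ∪ stdF v r))

/-- the rank of `X` against `A ∪ B`, `A < X < B`, depends only on the cardinalities -/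
theorem rk_eq_two {T A X B : Finset ℚ} (hA : A ⊆ T) (hX : X ⊆ T) (hB : B ⊆ T)
    (h1 : ∀ a ∈ A, ∀ x ∈ X, a < x) (h2 : ∀ x ∈ X, ∀ b ∈ B, x < b) (h3 : ∀ a ∈ A, ∀ b ∈ B, a < b) :
    rk (W.mat T) (V X) (V (A ∪ B)) = W.R2 A.card X.card B.card := by
  classical
  obtain ⟨g, hg1, hg2, hg3⟩ := exists_orderIso_triple (A := A) (X := X) (B := B)
    (A' := stdL A.card) (X' := stdR X.card) (B' := stdF X.card B.card)
    (card_stdL _).symm (card_stdR _).symm (card_stdF _ _).symm h1 h2 h3
    stdL_lt_stdR stdR_lt_stdF stdL_lt_stdF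
  obtain ⟨σ, hσ⟩ := W.aut g
  have hdis : ∀ a ∈ V X, ∀ b ∈ V (A ∪ B), a.1 ≠ b.1 := fun a ha b hb => by
    rcases Finset.mem_union.1 (mem_V.1 hb) with hb | hb
    · exact (h1 _ hb _ (mem_V.1 ha)).ne'
    · exact (h2 _ (mem_V.1 ha) _ hb).ne
  have e1 : rk (W.mat T) (V X) (V (A ∪ B)) = rk (W.mat (X ∪ (A ∪ B))) (V X) (V (A ∪ B)) := by
    refine W.rk_indep hdis ?_ ?_
    · intro x hx
      rcases Finset.mem_union.1 hx with hx | hx
      · exact hX (mem_V.1 hx)
      · exact Finset.union_subset hA hB (mem_V.1 hx)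
    · intro x hx
      rcases Finset.mem_union.1 hx with hx | hx
      · exact Finset.mem_union_left _ (mem_V.1 hx)
      · exact Finset.mem_union_right _ (mem_V.1 hx)
  have e2 := rk_map σ (W.mat (X ∪ (A ∪ B))) (W.mat ((X ∪ (A ∪ B)).image g)) (V X) (V (A ∪ B))
    (fun x => (g x.1, x.2)) (fun x => (g x.1, x.2))
    (fun x y hxy => by
      have e1 := congrArg Prod.fst hxy
      have e2 := congrArg Prod.snd hxy
      exact Prod.ext (g.injective e1) e2)
    (fun a ha b hb => (hσ (X ∪ (A ∪ B)) a b (Finset.mem_union_left _ (mem_V.1 ha))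
      (Finset.mem_union_right _ (mem_V.1 hb))).symm)
  rw [e1, ← e2, ← V_image, ← V_image, Finset.image_union, Finset.image_union, hg1, hg2, hg3]
  rfl

theorem R2_le (l v r : ℕ) : W.R2 l v r ≤ 2 * v := by
  unfold R2
  refine (rk_le_card_left _ _ _).trans ?_
  rw [card_V, card_stdR]

/-- everything inside one array -/
theorem R2_inst (l v r : ℕ) {A X B : Finset ℚ} (hA : A ⊆ stdL l) (hX : X ⊆ stdR v)
    (hB : B ⊆ stdF v r) :
    rk (W.mat (stdR v ∪ (stdL l ∪ stdF v r))) (V X) (V (A ∪ B)) = W.R2 A.card X.card B.card :=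
  W.rk_eq_two (hA.trans (Finset.subset_union_left.trans Finset.subset_union_right))
    (hX.trans Finset.subset_union_left)
    (hB.trans (Finset.subset_union_right.trans Finset.subset_union_right))
    (fun a ha x hx => stdL_lt_stdR a (hA ha) x (hX hx))
    (fun x hx b hb => stdR_lt_stdF x (hX hx) b (hB hb))
    (fun a ha b hb => stdL_lt_stdF a (hA ha) b (hB hb))

theorem stdL_mono {a b : ℕ} (h : a ≤ b) : stdL a ⊆ stdL b :=
  Finset.image_subset_image (Finset.range_subset_range.2 h)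

theorem stdR_mono {a b : ℕ} (h : a ≤ b) : stdR a ⊆ stdR b :=
  Finset.image_subset_image (Finset.range_subset_range.2 h)

theorem stdF_mono {v a b : ℕ} (h : a ≤ b) : stdF v a ⊆ stdF v b :=
  Finset.image_subset_image (Finset.range_subset_range.2 h)

theorem R2_mono {l l' v v' r r' : ℕ} (hl : l ≤ l') (hv : v ≤ v') (hr : r ≤ r') :
    W.R2 l v r ≤ W.R2 l' v' r' := by
  have h1 := W.R2_inst l' v' r' (stdL_mono hl) (stdR_mono hv) (stdF_mono (v := v') hr)
  have h2 := W.R2_inst l' v' r' (stdL_mono (le_refl l')) (stdR_mono (le_refl v'))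
    (stdF_mono (v := v') (le_refl r'))
  rw [card_stdL, card_stdR, card_stdF] at h1 h2
  rw [← h1, ← h2]
  exact rk_mono _ (V_mono (stdR_mono hv))
    (V_mono (Finset.union_subset_union (stdL_mono hl) (stdF_mono hr)))

/-- a general concavity statement: adding `x` or `y` to the middle set -/
theorem R2_conc_mid (l v r : ℕ) : W.R2 l (v + 2) r + W.R2 l v r ≤ 2 * W.R2 l (v + 1) r := by
  classical
  have hins : stdR (v + 2) = insert ((v + 1 : ℕ) : ℚ) (insert (v : ℚ) (stdR v)) := by
    unfold stdR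
    rw [Finset.range_add_one, Finset.range_add_one, Finset.image_insert, Finset.image_insert]
  have hins1 : stdR (v + 1) = insert (v : ℚ) (stdR v) := by
    unfold stdR
    rw [Finset.range_add_one, Finset.image_insert]
  have hn : ((v + 1 : ℕ) : ℚ) ∉ stdR v := fun hm => by
    obtain ⟨i, hi, hib⟩ := Finset.mem_image.1 hm
    have h2 : i = v + 1 := by exact_mod_cast hib
    have := Finset.mem_range.1 hi
    omega
  have hn' : ((v + 1 : ℕ) : ℚ) ∉ stdR (v + 1) := fun hm => by
    obtain ⟨i, hi, hib⟩ := Finset.mem_image.1 hm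
    have h2 : i = v + 1 := by exact_mod_cast hib
    have := Finset.mem_range.1 hi
    omega
  have hY : insert ((v + 1 : ℕ) : ℚ) (stdR v) ⊆ stdR (v + 2) := by
    rw [hins]
    exact Finset.insert_subset_insert _ (Finset.subset_insert _ _)
  have h1 := W.R2_inst l (v + 2) r (stdL_mono (le_refl l)) (stdR_mono (le_refl (v + 2)))
    (stdF_mono (v := v + 2) (le_refl r))
  have h2 := W.R2_inst l (v + 2) r (stdL_mono (le_refl l)) (stdR_mono (show v ≤ v + 2 by omega))
    (stdF_mono (v := v + 2) (le_refl r))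
  have h3 := W.R2_inst l (v + 2) r (stdL_mono (le_refl l))
    (stdR_mono (show v + 1 ≤ v + 2 by omega)) (stdF_mono (v := v + 2) (le_refl r))
  have h4 := W.R2_inst l (v + 2) r (stdL_mono (le_refl l)) hY (stdF_mono (v := v + 2) (le_refl r))
  rw [Finset.card_insert_of_notMem hn] at h4
  rw [card_stdL, card_stdR, card_stdF] at h1 h2 h3 h4
  have h5 := rk_submod_left (W.mat (stdR (v + 2) ∪ (stdL l ∪ stdF (v + 2) r)))
    (V (stdR (v + 1))) (V (insert ((v + 1 : ℕ) : ℚ) (stdR v))) (V (stdL l ∪ stdF (v + 2) r))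
  have h6 : stdR (v + 1) ∪ insert ((v + 1 : ℕ) : ℚ) (stdR v) = stdR (v + 2) := by
    rw [hins, hins1]
    ext x
    simp only [Finset.mem_union, Finset.mem_insert]
    tauto
  have h7 : stdR (v + 1) ∩ insert ((v + 1 : ℕ) : ℚ) (stdR v) = stdR v := by
    ext x
    simp only [Finset.mem_inter, Finset.mem_insert]
    constructor
    · rintro ⟨hx1, rfl | hx2⟩
      · exact absurd hx1 hn'
      · exact hx2
    · intro hx
      exact ⟨stdR_mono (Nat.le_succ v) hx, Or.inr hx⟩
  rw [← V_union, ← V_inter, h6, h7, h1, h2, h3, h4] at h5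
  omega

theorem R2_conc_right (l v r : ℕ) : W.R2 l v (r + 2) + W.R2 l v r ≤ 2 * W.R2 l v (r + 1) := by
  classical
  have hins : stdF v (r + 2) = insert ((v : ℚ) + ((r + 1 : ℕ) : ℚ))
      (insert ((v : ℚ) + (r : ℚ)) (stdF v r)) := by
    unfold stdF
    rw [Finset.range_add_one, Finset.range_add_one, Finset.image_insert, Finset.image_insert]
  have hins1 : stdF v (r + 1) = insert ((v : ℚ) + (r : ℚ)) (stdF v r) := by
    unfold stdF
    rw [Finset.range_add_one, Finset.image_insert]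
  have hn : ∀ s, s ≤ r + 1 → ((v : ℚ) + ((r + 1 : ℕ) : ℚ)) ∉ stdF v s := fun s hs hm => by
    obtain ⟨i, hi, hib⟩ := Finset.mem_image.1 hm
    have h1 : (i : ℚ) = ((r + 1 : ℕ) : ℚ) := by linarith
    have h2 : i = r + 1 := by exact_mod_cast h1
    have := Finset.mem_range.1 hi
    omega
  have hY : insert ((v : ℚ) + ((r + 1 : ℕ) : ℚ)) (stdF v r) ⊆ stdF v (r + 2) := by
    rw [hins]
    exact Finset.insert_subset_insert _ (Finset.subset_insert _ _)
  have h1 := W.R2_inst l v (r + 2) (stdL_mono (le_refl l)) (stdR_mono (le_refl v))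
    (stdF_mono (v := v) (le_refl (r + 2)))
  have h2 := W.R2_inst l v (r + 2) (stdL_mono (le_refl l)) (stdR_mono (le_refl v))
    (stdF_mono (v := v) (show r ≤ r + 2 by omega))
  have h3 := W.R2_inst l v (r + 2) (stdL_mono (le_refl l)) (stdR_mono (le_refl v))
    (stdF_mono (v := v) (show r + 1 ≤ r + 2 by omega))
  have h4 := W.R2_inst l v (r + 2) (stdL_mono (le_refl l)) (stdR_mono (le_refl v)) hY
  rw [Finset.card_insert_of_notMem (hn r (Nat.le_succ r))] at h4
  rw [card_stdL, card_stdR, card_stdF] at h1 h2 h3 h4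
  have h5 := rk_submod_right (W.mat (stdR v ∪ (stdL l ∪ stdF v (r + 2))))
    (V (stdR v)) (V (stdL l ∪ stdF v (r + 1)))
    (V (stdL l ∪ insert ((v : ℚ) + ((r + 1 : ℕ) : ℚ)) (stdF v r)))
  have h6 : (stdL l ∪ stdF v (r + 1)) ∪
      (stdL l ∪ insert ((v : ℚ) + ((r + 1 : ℕ) : ℚ)) (stdF v r)) = stdL l ∪ stdF v (r + 2) := by
    rw [hins, hins1]
    ext x
    simp only [Finset.mem_union, Finset.mem_insert]
    tauto
  have h7 : (stdL l ∪ stdF v (r + 1)) ∩
      (stdL l ∪ insert ((v : ℚ) + ((r + 1 : ℕ) : ℚ)) (stdF v r)) = stdL l ∪ stdF v r := by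
    ext x
    simp only [Finset.mem_inter, Finset.mem_union, Finset.mem_insert]
    constructor
    · rintro ⟨hx1 | hx1, hx2⟩
      · exact Or.inl hx1
      · rcases hx2 with hx2 | rfl | hx2
        · exact Or.inl hx2
        · exact absurd hx1 (hn (r + 1) le_rfl)
        · exact Or.inr hx2
    · rintro (hx | hx)
      · exact ⟨Or.inl hx, Or.inl hx⟩
      · exact ⟨Or.inr (stdF_mono (Nat.le_succ r) hx), Or.inr (Or.inr hx)⟩
  rw [← V_union, ← V_inter, h6, h7, h1, h2, h3, h4] at h5
  omega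

theorem rev_R2 (l v r : ℕ) : W.rev.R2 l v r = W.R2 r v l := by
  have h1 := W.rev.R2_inst l v r (stdL_mono (le_refl l)) (stdR_mono (le_refl v))
    (stdF_mono (v := v) (le_refl r))
  rw [card_stdL, card_stdR, card_stdF, rev_rk, negF_union (stdL l) (stdF v r),
    Finset.union_comm (negF (stdL l))] at h1
  rw [← h1, W.rk_eq_two, card_negF, card_negF, card_negF, card_stdL, card_stdR, card_stdF]
  · exact negF_mono (Finset.subset_union_right.trans Finset.subset_union_right)
  · exact negF_mono Finset.subset_union_left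
  · exact negF_mono (Finset.subset_union_left.trans Finset.subset_union_right)
  · intro x hx y hy
    have := stdR_lt_stdF (-y) (mem_negF.1 hy) (-x) (mem_negF.1 hx)
    linarith
  · intro x hx y hy
    have := stdL_lt_stdR (-y) (mem_negF.1 hy) (-x) (mem_negF.1 hx)
    linarith
  · intro x hx y hy
    have := stdL_lt_stdF (-y) (mem_negF.1 hy) (-x) (mem_negF.1 hx)
    linarith

theorem R2_conc_left (l v r : ℕ) : W.R2 (l + 2) v r + W.R2 l v r ≤ 2 * W.R2 (l + 1) v r := by
  have := W.rev.R2_conc_right r v l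
  rwa [rev_R2, rev_R2, rev_R2] at this

/-- the two-sided rank is stable for `l, r ≥ 2 v` -/
theorem R2_stable {l v r : ℕ} (hl : 2 * v ≤ l) (hr : 2 * v ≤ r) :
    W.R2 l v r = W.R2 (2 * v) v (2 * v) := by
  have h1 := concave_stable (g := fun l => W.R2 l v r) (C := 2 * v)
    (fun n => W.R2_mono (Nat.le_succ n) le_rfl le_rfl) (fun n => W.R2_conc_left n v r)
    (fun n => W.R2_le n v r) l hl
  have h2 := concave_stable (g := fun r => W.R2 (2 * v) v r) (C := 2 * v)
    (fun n => W.R2_mono le_rfl le_rfl (Nat.le_succ n)) (fun n => W.R2_conc_right (2 * v) v n)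
    (fun n => W.R2_le (2 * v) v n) r hr
  exact h1.trans h2

theorem R_le_R2 (N v : ℕ) : W.R N v ≤ W.R2 0 v N := by
  have h1 := W.R2_inst 0 v N (A := ∅) (X := stdR v) (B := stdF v N) (Finset.empty_subset _)
    (stdR_mono le_rfl) (stdF_mono le_rfl)
  rw [Finset.card_empty, card_stdR, card_stdF, Finset.empty_union, W.rk_eq] at h1
  · rw [card_stdR, card_stdF] at h1
    exact h1.le
  · exact Finset.subset_union_left
  · exact Finset.subset_union_right.trans Finset.subset_union_right
  · exact stdR_lt_stdF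

/-- THE DICHOTOMY: if `R` is unbounded, then the two-sided ranks are all full, or (H) holds. -/
theorem H_or_full (hunb : ∀ C, ∃ N v, C < W.R N v) :
    (∀ l v r : ℕ, 2 * v ≤ l → 2 * v ≤ r → W.R2 l v r = 2 * v) ∨
      ∃ ρ : ℕ, ∀ l v r : ℕ, 2 * v ≤ l → 2 * v ≤ r → W.R2 l v r = v + min v ρ := by
  set h : ℕ → ℕ := fun v => W.R2 (2 * v) v (2 * v) with hh
  have hconc : Conc h := by
    refine ⟨?_, fun n => ?_, fun n => ?_, fun n => ?_⟩
    · have := W.R2_le 0 0 0
      show W.R2 0 0 0 = 0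
      omega
    · exact W.R2_mono (by omega) (Nat.le_succ n) (by omega)
    · -- step ≤ 2, from concavity at 0 and `R2 ≤ 2 v`
      have e : ∀ m, m ≤ n + 1 → h m = W.R2 (2 * (n + 1)) m (2 * (n + 1)) := fun m hm =>
        (W.R2_stable (by omega) (by omega)).symm
      have hc : ∀ m, W.R2 (2 * (n + 1)) (m + 1) (2 * (n + 1)) + W.R2 (2 * (n + 1)) 0 (2 * (n + 1)) ≤
          W.R2 (2 * (n + 1)) 1 (2 * (n + 1)) + W.R2 (2 * (n + 1)) m (2 * (n + 1)) := by
        intro m
        induction m with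
        | zero => exact le_of_eq rfl
        | succ m ih =>
          have h5 : W.R2 (2 * (n + 1)) (m + 1 + 1) (2 * (n + 1)) +
              W.R2 (2 * (n + 1)) m (2 * (n + 1)) ≤ 2 * W.R2 (2 * (n + 1)) (m + 1) (2 * (n + 1)) :=
            W.R2_conc_mid (2 * (n + 1)) m (2 * (n + 1))
          omega
      have h1 := hc n
      have h2 := W.R2_le (2 * (n + 1)) 1 (2 * (n + 1))
      rw [e n (Nat.le_succ n), e (n + 1) le_rfl]
      omega
    · have e : ∀ m, m ≤ n + 2 → h m = W.R2 (2 * (n + 2)) m (2 * (n + 2)) := fun m hm =>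
        (W.R2_stable (by omega) (by omega)).symm
      rw [e n (by omega), e (n + 1) (by omega), e (n + 2) le_rfl]
      exact W.R2_conc_mid _ _ _
  have hinc : ∀ v, h v + 1 ≤ h (v + 1) := by
    intro v
    by_contra hcon
    have heq : ∀ m, v ≤ m → h m = h v := fun m hm => hconc.eq_of_le (by omega) hm
    obtain ⟨N, w, hw⟩ := hunb (h v)
    have h1 := W.R_le_R2 N w
    have h2 : W.R2 0 w N ≤ W.R2 (2 * max v w) (max v w) (max N (2 * max v w)) :=
      W.R2_mono (Nat.zero_le _) (le_max_right _ _) (le_max_left _ _)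
    rw [W.R2_stable (v := max v w) le_rfl (le_max_right _ _)] at h2
    have h3 := heq (max v w) (le_max_left _ _)
    have h4 : h (max v w) = W.R2 (2 * max v w) (max v w) (2 * max v w) := rfl
    omega
  rcases conc_dichotomy hconc hinc with h1 | ⟨ρ, h1⟩
  · left
    intro l v r hl hr
    rw [W.R2_stable hl hr]
    exact h1 v
  · right
    refine ⟨ρ, fun l v r hl hr => ?_⟩
    rw [W.R2_stable hl hr]
    exact h1 v

end Pool.Agent.Lib.MP_0c183c_co_P9W.World
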