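import Pool.Agent.Lib.MP_0c183c_co_P9A.Growth
import Pool.Agent.Lib.MP_0c183c_co_P9S.Defs
import Pool.Agent.Lib.MP_0c183c_co_P9S.StarNum
import Pool.Agent.Lib.MP_0c183c_co_P9F.Bridge

/-!
# P9, block (A): case (c) of the star argument, end to end
`K1W W`, the two-sided ranks full, `e₁ = 1`  ⟹  `False`.  [helper72]
-/

set_option autoImplicit false

namespace Pool.Agent.Lib.MP_0c183c_co_P9A

open Module Pool.Agent.Lib.P9RankMat Pool.Agent.Lib.MP_0c183c_co_P9W Pool.Agent.MP_0c183c.P9
open Pool.Agent.Lib.MP_0c183c_co_P9S7 Pool.Agent.Lib.MP_0c183c_co_P9G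
open Pool.Agent.Lib.MP_0c183c_co_P9F Pool.Agent.Lib.MP_0c183c_co_P9Star
open Pool.Agent.Lib.P9Sec5 (rgt lft mem_rgt mem_lft nvec case1)
open Pool.Agent.Lib.MP_0c183c_co_P9T (off fam rowv Tan)

/-- the far arrays form a class -/
theorem farClass_far (W : World) : FarClass W (Far W) where
  sub h := h.1
  anti h hI := h.anti hI
  ext I T₀ h := exists_far W I T₀ h
  conj hf h h' := h.conj_map hf h'

/-- the slope form of case (c) -/
theorem caseC_of {W : World} {n₀ C₁ : ℕ} (he : ∀ N, n₀ ≤ N → RankFun.inf W.R N = 1 * N + C₁)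
    (hfull : ∀ l v r, 2 * v ≤ l → 2 * v ≤ r → W.R2 l v r = 2 * v) : CaseC W n₀ where
  slope := by
    intro N v hN hv
    have h1 := W.rankFun.eq_inf (N + 1) v hv
    have h2 := W.rankFun.eq_inf N v (by omega)
    have h3 := he N hN
    have h4 := he (N + 1) (by omega)
    omega
  full := hfull

/-- the last `k` elements -/
theorem exists_last (S : Finset ℚ) : ∀ k, k ≤ S.card →
    ∃ Z ⊆ S, Z.card = k ∧ ∀ y ∈ S \ Z, ∀ z ∈ Z, y < z := by
  classical
  intro k
  induction k with
  | zero => intro _; exact ⟨∅, Finset.empty_subset _, rfl, by simp⟩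
  | succ k ih =>
    intro hk
    obtain ⟨Z, hZ, hc, hlt⟩ := ih (by omega)
    have hne : (S \ Z).Nonempty := by
      rw [← Finset.card_pos, Finset.card_sdiff_of_subset hZ]
      omega
    set m := (S \ Z).max' hne with hm
    have hmem : m ∈ S \ Z := Finset.max'_mem _ _
    rw [Finset.mem_sdiff] at hmem
    refine ⟨insert m Z, Finset.insert_subset hmem.1 hZ, ?_, ?_⟩
    · rw [Finset.card_insert_of_notMem hmem.2, hc]
    · intro y hy z hz
      rw [Finset.mem_sdiff, Finset.mem_insert, not_or] at hy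
      have hy' : y ∈ S \ Z := Finset.mem_sdiff.2 ⟨hy.1, hy.2.2⟩
      rcases Finset.mem_insert.1 hz with rfl | hz
      · exact lt_of_le_of_ne (Finset.le_max' _ _ hy') hy.2.1
      · exact hlt y hy' z hz

/-- the rank of `nmat` as the dimension of the span of the vectors `nvec` -/
theorem rk_nmat_eq {F : Type} [Field F] (M : Vx → Vx → F) (w : ℚ → Bool → F) (I B : Finset ℚ)
    (a : ℚ) : rk (nmat M w) B (V (rgt I a)) = finrank F (Submodule.span F
          (Set.range fun b : B => nvec M I a b (w b))) := by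
  classical
  let e : (V (rgt I a) → F) ≃ₗ[F] (rgt I a × Bool → F) :=
    LinearEquiv.funCongrLeft F F
      ⟨fun x => (⟨(x.1.1, x.2), mem_V.2 x.1.2⟩ : V (rgt I a)),
        fun x => (⟨x.1.1, mem_V.1 x.2⟩, x.1.2), fun _ => rfl, fun _ => rfl⟩
  have h1 : (rowSpan (nmat M w) B (V (rgt I a))).map e.toLinearMap = Submodule.span F
          (Set.range fun b : B => nvec M I a b (w b)) := by
    unfold rowSpan
    rw [Submodule.map_span]
    congr 1
    ext v
    constructor
    · rintro ⟨_, ⟨b, hb, rfl⟩, rfl⟩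
      exact ⟨⟨b, hb⟩, rfl⟩
    · rintro ⟨b, rfl⟩
      exact ⟨_, ⟨b.1, b.2, rfl⟩, rfl⟩
  rw [← h1]
  exact (LinearEquiv.finrank_map_eq e _).symm

theorem charP_world (W : World) : CharP W.Ω 2 :=
  charP_of_injective_algebraMap (algebraMap (ZMod 2) W.Ω).injective 2

/-- the count in case (c) -/
theorem count_caseC {W : World} {N₀ : ℕ} (hC : CaseC W N₀) (K : K1W W) (I : Finset ℚ) :
    (beta (rkL W) + 1) * I.card ^ 2 ≤ 2 * rkL W (prs I) +
      (2 * ((beta (rkL W) + 1) * N₀) + (beta (rkL W) + 1) * (4 * (2 * (N₀ + 1)) + 1)) * I.card := by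
  classical
  have := charP_world W
  have hL := farClass_far W
  -- the gaps
  have hgap : ∀ a : ℚ, ∃ B : Finset ℚ, B.card = I.card + 2 * N₀ ∧
      ∀ z ∈ B, (∀ s ∈ insert a (lft I a), s < z) ∧ ∀ t ∈ rgt I a, z < t := by
    intro a
    refine exists_mid _ _ _ ?_
    intro s hs t ht
    rcases Finset.mem_insert.1 hs with rfl | hs
    · exact (mem_rgt.1 ht).2
    · exact (mem_lft.1 hs).2.trans (mem_rgt.1 ht).2
  choose Bf hBc hB using hgap
  obtain ⟨T, hT1, hT⟩ := exists_far W (I ∪ I.biUnion Bf) (I ∪ I.biUnion Bf) subset_rfl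
  have hIfar : Far W T I := hT.anti Finset.subset_union_left
  rw [← finrank_Tan_far W hIfar]
  refine case1 I (Tan (ZMod 2) (fam (off I) (W.P T))) (beta (rkL W) + 1) N₀ (2 * (N₀ + 1))
    fun a ha hr hl => ?_
  -- the sets
  obtain ⟨Y₀, hY₀, hY₀c, hYlt⟩ := exists_last (rgt I a) N₀ (by omega)
  set Y := rgt I a \ Y₀ with hY
  set A := lft I a with hA
  set B := Bf a with hBdef
  have hAI : A ⊆ I := Finset.filter_subset _ _
  have hRI : rgt I a ⊆ I := Finset.filter_subset _ _
  have hYR : Y ⊆ rgt I a := Finset.sdiff_subset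
  have hAlt : ∀ x ∈ A, x < a := fun x hx => (mem_lft.1 hx).2
  have hRlt : ∀ x ∈ rgt I a, a < x := fun x hx => (mem_rgt.1 hx).2
  have hBa : ∀ b ∈ B, a < b := fun b hb => (hB a b hb).1 a (Finset.mem_insert_self _ _)
  have hAB : ∀ x ∈ A, ∀ b ∈ B, x < b := fun x hx b hb =>
    (hB a b hb).1 x (Finset.mem_insert_of_mem hx)
  have hBR : ∀ b ∈ B, ∀ y ∈ rgt I a, b < y := fun b hb y hy => (hB a b hb).2 y hy
  have hBT : B ⊆ I ∪ I.biUnion Bf :=
    (Finset.subset_biUnion_of_mem Bf ha).trans Finset.subset_union_right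
  have hIT : I ⊆ T := hIfar.1
  have hBT' : B ⊆ T := hBT.trans hT.1
  have hbY₀ : ∀ b ∈ B, b ∉ Y₀ := fun b hb hb' => lt_irrefl _ (hBR b hb b (hY₀ hb'))
  have hbI : ∀ b ∈ B, b ∉ I := by
    intro b hb hbI
    rcases lt_trichotomy b a with h | h | h
    · exact lt_asymm h (hBa b hb)
    · exact (hBa b hb).ne' h
    · exact lt_irrefl _ (hBR b hb b (mem_rgt.2 ⟨hbI, h⟩))
  -- the lines
  have hline : ∀ b, ∃ κ : Vx → W.Ω, b ∈ B →
      κ ∈ KerS (W.P T) (V (insert b Y₀)) (V A) ∧ (fun s => κ (b, s)) ≠ 0 := by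
    intro b
    by_cases hb : b ∈ B
    · obtain ⟨κ, h1, h2⟩ := exists_line hC (T := T) (X := A) (Y₀ := Y₀) (b := b)
        (hAI.trans hIT) ((hY₀.trans hRI).trans hIT) (hBT' hb) (fun x hx => hAB x hx b hb)
        (fun x hx y hy => (hAlt x hx).trans (hRlt y (hY₀ hy))) (hbY₀ b hb) hY₀c.ge
        (by rw [hY₀c]; exact hl)
      exact ⟨κ, fun _ => ⟨h1, h2⟩⟩
    · exact ⟨0, fun h => absurd h hb⟩
  choose κ hκ using hline
  -- the blocks
  have hD : ∀ b, ∃ D : Submodule W.Ω (Bool × Bool → W.Ω), b ∈ B →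
      beta (rkL W) + 1 ≤ finrank W.Ω D ∧
      (∀ δ ∈ D, fam (off I) (rowv (W.P T) b a δ) ∈ Tan (ZMod 2) (fam (off I) (W.P T))) ∧
      ∀ δ ∈ D, ∀ α, ∑ β, δ (α, β) * κ b (b, β) = 0 := by
    intro b
    by_cases hb : b ∈ B
    · have hins : insert a (I.erase a) = I := Finset.insert_erase ha
      have hfar : Far W T (insert a (insert b (I.erase a))) := by
        refine hT.anti ?_
        rw [Finset.insert_comm, hins]
        exact Finset.insert_subset (hBT hb) Finset.subset_union_left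
      obtain ⟨D, h1, h2, h3, -, -⟩ := K (I.erase a) a b T (hBa b hb) (by
        intro q hq
        rw [Finset.mem_erase] at hq
        rcases lt_or_gt_of_ne hq.1 with h | h
        · exact Or.inl h
        · exact Or.inr (hBR b hb q (mem_rgt.2 ⟨hq.2, h⟩))) hfar
      rw [hins] at h2
      refine ⟨D, fun _ => ⟨h1, h2, ?_⟩⟩
      have hYY : ∀ y ∈ Y₀, y ∈ I.erase a := fun y hy =>
        Finset.mem_erase.2 ⟨(hRlt y (hY₀ hy)).ne', hRI (hY₀ hy)⟩
      refine h3 (V A) (V (insert b Y₀)) ?_ ?_ ?_ ?_ ?_ (κ b) ?_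
      · intro β
        exact mem_V.2 (Finset.mem_insert_self _ _)
      · intro x hx
        have hx' := mem_V.1 hx
        exact Finset.mem_erase.2 ⟨(hAlt _ hx').ne, hAI hx'⟩
      · intro y hy
        rcases Finset.mem_insert.1 (mem_V.1 hy) with h | h
        · exact Finset.mem_insert.2 (Or.inl h)
        · exact Finset.mem_insert_of_mem (hYY _ h)
      · intro x hx y hy
        have hx' := mem_V.1 hx
        rcases Finset.mem_insert.1 (mem_V.1 hy) with h | h
        · rw [h]
          exact (hAB _ hx' b hb).ne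
        · exact ((hAlt _ hx').trans (hRlt _ (hY₀ h))).ne
      · -- the rank condition
        have hcard : (insert b Y₀).card = N₀ + 1 := by
          rw [Finset.card_insert_of_notMem (hbY₀ b hb), hY₀c]
        have haA : a ∉ A := fun h => lt_irrefl _ (hAlt a h)
        have hVA : V A ∪ V {a} = V (insert a A) := by
          rw [← V_union]
          congr 1
          rw [Finset.union_comm]
          rfl
        have hsub : insert b Y₀ ⊆ T :=
          Finset.insert_subset (hBT' hb) ((hY₀.trans hRI).trans hIT)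
        have hlt1 : ∀ x ∈ A, ∀ y ∈ insert b Y₀, x < y := by
          intro x hx y hy
          rcases Finset.mem_insert.1 hy with rfl | hy
          · exact hAB x hx _ hb
          · exact (hAlt x hx).trans (hRlt y (hY₀ hy))
        have hlt2 : ∀ x ∈ insert a A, ∀ y ∈ insert b Y₀, x < y := by
          intro x hx y hy
          rcases Finset.mem_insert.1 hx with rfl | hx
          · rcases Finset.mem_insert.1 hy with rfl | hy
            · exact hBa _ hb
            · exact hRlt y (hY₀ hy)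
          · exact hlt1 x hx y hy
        rw [hVA, W.rk_eq (Finset.insert_subset (hIT ha) (hAI.trans hIT)) hsub hlt2,
          W.rk_eq (hAI.trans hIT) hsub hlt1, hcard, Finset.card_insert_of_notMem haA,
          W.rankFun.eq_inf _ _ (show 2 * (N₀ + 1) ≤ A.card + 1 by omega),
          W.rankFun.eq_inf _ _ (show 2 * (N₀ + 1) ≤ A.card from hl)]
      · intro x hx
        have h4 := (hκ b hb).1.2 x hx
        rw [← h4]
        refine Finset.sum_congr rfl fun y _ => ?_
        rw [W.symm T x y, mul_comm]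
    · exact ⟨⊥, fun h => absurd h hb⟩
  choose D hD using hD
  refine ⟨W.P T, B, D, fun b s => κ b (b, s), fun b hb => (hκ b hb).2, fun b hb => (hD b hb).1,
    ?_, fun b hb => (hD b hb).2.1, ?_⟩
  · intro b hb δ hδ i
    have h1 := (hD b hb).2.2 δ hδ i
    rw [Fintype.sum_bool] at h1
    rw [← h1]
    ring
  · -- growth
    have e0 := rk_nmat_eq (W.P T) (fun b s => κ b (b, s)) I B a
    have hcfg : Cfg W N₀ (Far W) T A B Y Y₀ (fun b s => κ b (b, s)) := by
      refine ⟨?_, hAB, ?_, ?_, ?_, ?_, hYlt, hY₀c.ge, ?_, fun b hb => (hκ b hb).2, ?_⟩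
      · refine hT.anti ?_
        refine Finset.union_subset (Finset.union_subset (Finset.union_subset ?_ hBT) ?_) ?_
        · exact hAI.trans Finset.subset_union_left
        · exact (hYR.trans hRI).trans Finset.subset_union_left
        · exact (hY₀.trans hRI).trans Finset.subset_union_left
      · exact fun x hx y hy => (hAlt x hx).trans (hRlt y (hYR hy))
      · exact fun x hx y hy => (hAlt x hx).trans (hRlt y (hY₀ hy))
      · exact fun x hx y hy => hBR x hx y (hYR hy)
      · exact fun x hx y hy => hBR x hx y (hY₀ hy)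
      · rw [hY₀c]; exact hl
      · exact fun b hb => ⟨κ b, (hκ b hb).1, fun s => rfl⟩
    have hYcard : Y.card + N₀ = (rgt I a).card := by
      rw [hY, Finset.card_sdiff_of_subset hY₀, hY₀c]
      omega
    have hRcard : (rgt I a).card ≤ I.card := Finset.card_le_card hRI
    have h1 := hcfg.growth hC hL (by rw [hY₀c, hBc]; omega)
    have h2 := rk_mono_right (nmat (W.P T) fun b s => κ b (b, s)) B (V_mono hYR)
    have h3 : (rgt I a).card ≤ rk (nmat (W.P T) fun b s => κ b (b, s)) B (V (rgt I a)) + N₀ := by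
      omega
    rw [e0] at h3
    exact h3

/-- CASE (c). -/
theorem false_caseC {W : World} (K : K1W W) {n₀ C₁ : ℕ}
    (he : ∀ N, n₀ ≤ N → RankFun.inf W.R N = 1 * N + C₁)
    (hfull : ∀ l v r, 2 * v ≤ l → 2 * v ≤ r → W.R2 l v r = 2 * v) : False := by
  have hC := caseC_of he hfull
  obtain ⟨n1, a1, hg⟩ := rn_growth (psys_world W) (rkL_far W)
  refine growth_contra (rn (rkL W)) (beta (rkL W)) a1 n1
    (2 * ((beta (rkL W) + 1) * n₀) + (beta (rkL W) + 1) * (4 * (2 * (n₀ + 1)) + 1)) 0 hg ?_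
  intro n
  have h1 := count_caseC hC K (World.stdR n)
  rw [World.card_stdR, rkL_eq_rn (psys_world W) (rkL_far W), World.card_stdR] at h1
  have h2 : n * (n - 1) ≤ n ^ 2 := by
    rw [sq]
    exact Nat.mul_le_mul_left _ (Nat.sub_le _ _)
  have h3 := Nat.mul_le_mul_left (beta (rkL W) + 1) h2
  omega

end Pool.Agent.Lib.MP_0c183c_co_P9A
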