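import Pool.Agent.Lib.MP_0c183c_co_P9A.RankW
import Pool.Agent.Lib.MP_0c183c_co_P9A.Filt
import Pool.Agent.Lib.MP_0c183c_co_P9T.K1core

/-!
# P9: the rank statement of case (b) and the case (a) (`R` bounded)  [helper64]
-/

set_option autoImplicit false

namespace Pool.Agent.Lib.P9RankMat
end Pool.Agent.Lib.P9RankMat

namespace Pool.Agent.Lib.MP_0c183c_co_P9A

open Module Pool.Agent.Lib.MP_0c183c_co_P9W Pool.Agent.MP_0c183c.P9
open Pool.Agent.Lib.P9Sec5 (rgt lft mem_rgt mem_lft)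
open Pool.Agent.Lib.P9RankMat

/-- the vertices over `X`, as a product type -/
def eV (X : Finset ℚ) : (X × Bool) ≃ (V X) where
  toFun x := ⟨(x.1.1, x.2), mem_V.2 x.1.2⟩
  invFun x := (⟨x.1.1, mem_V.1 x.2⟩, x.1.2)
  left_inv _ := rfl
  right_inv _ := rfl

theorem rank_of_eq (W : World) (T B C : Finset ℚ) :
    (Matrix.of fun (x : B × Bool) (y : C × Bool) => W.P T (x.1.1, x.2) (y.1.1, y.2)).rank =
      rk (W.mat T) (V B) (V C) := by
  rw [W.rk_eq_sub_rank, ← Matrix.rank_submatrix (sub (W.P T) (V B) (V C)) (eV B) (eV C)]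
  rfl

/-- case (b): the rank hypothesis of `case22` -/
theorem rank_case22 (W : World) (h1 : ∀ N, ∃ v, W.R N v = 2 * N) (h2 : ∀ v, ∃ N, W.R N v = 2 * v)
    {T B C : Finset ℚ} (hB : B ⊆ T) (hC : C ⊆ T) (hBC : ∀ x ∈ B, ∀ y ∈ C, x < y)
    (hcard : B.card = C.card) :
    2 * C.card ≤ (Matrix.of fun (x : B × Bool) (y : C × Bool) =>
      W.P T (x.1.1, x.2) (y.1.1, y.2)).rank + 1 := by
  rw [rank_of_eq, W.rk_eq hB hC hBC, hcard]
  exact W.rankFun.diag h1 h2 C.card

/-- a bounded rank function is eventually constant -/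
theorem stable_of_bounded (W : World) (hb : ∃ C, ∀ N v, W.R N v ≤ C) :
    ∃ n₀ c, ∀ N v, n₀ ≤ N → n₀ ≤ v → W.R N v = c := by
  classical
  obtain ⟨C, hC⟩ := hb
  have hR := W.rankFun
  -- a maximal value
  have hex : ∃ c, ∀ N v, W.R N v ≤ c := ⟨C, hC⟩
  have hmax := Nat.find_spec hex
  set c := Nat.find hex with hc
  have hatt : ∃ N v, W.R N v = c := by
    by_contra hne
    push Not at hne
    rcases Nat.eq_zero_or_pos c with h0 | h0
    · have := hmax 0 0
      exact hne 0 0 (by omega)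
    · have h1 : ¬ ∀ N v, W.R N v ≤ c - 1 := Nat.find_min hex (by omega)
      apply h1
      intro N v
      have h2 := hmax N v
      have h3 := hne N v
      omega
  obtain ⟨N₀, v₀, h0⟩ := hatt
  refine ⟨max N₀ v₀, c, fun N v hN hv => le_antisymm (hmax N v) ?_⟩
  calc c = W.R N₀ v₀ := h0.symm
    _ ≤ W.R N v₀ := (hR.left v₀).monotone ((le_max_left _ _).trans hN)
    _ ≤ W.R N v := (hR.right N).monotone ((le_max_right _ _).trans hv)

/-- case (a): the relations on the right extend to `a` -/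
theorem rel_ext_a (W : World) {n₀ c : ℕ} (h : ∀ N v, n₀ ≤ N → n₀ ≤ v → W.R N v = c)
    {T X Y : Finset ℚ} {a b : ℚ} (hX : X ⊆ T) (hY : Y ⊆ T) (ha : a ∈ T) (hb : b ∈ T)
    (hab : a < b) (hXa : ∀ x ∈ X, x < a) (hbY : ∀ y ∈ Y, b < y)
    (hXc : n₀ ≤ X.card) (hYc : n₀ ≤ Y.card) (κ : Vx → W.Ω)
    (hκ : ∀ x ∈ V X, ∑ y ∈ V (insert b Y), W.P T x y * κ y = 0) (α : Bool) :
    ∑ y ∈ V (insert b Y), W.P T (a, α) y * κ y = 0 := by
  have haX : a ∉ X := fun hm => lt_irrefl _ (hXa a hm)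
  have hbY' : b ∉ Y := fun hm => lt_irrefl _ (hbY b hm)
  have c1 : (insert a X).card = X.card + 1 := Finset.card_insert_of_notMem haX
  have c2 : (insert b Y).card = Y.card + 1 := Finset.card_insert_of_notMem hbY'
  have i1 : insert a X ⊆ T := Finset.insert_subset ha hX
  have i2 : insert b Y ⊆ T := Finset.insert_subset hb hY
  have l2 : ∀ x ∈ insert a X, ∀ y ∈ insert b Y, x < y := by
    intro x hx y hy
    rcases Finset.mem_insert.1 hx with rfl | hx <;> rcases Finset.mem_insert.1 hy with rfl | hy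
    · exact hab
    · exact hab.trans (hbY y hy)
    · exact (hXa x hx).trans hab
    · exact (hXa x hx).trans (hab.trans (hbY y hy))
  have r1 := W.rk_eq hX i2 fun x hx y hy => l2 x (Finset.mem_insert_of_mem hx) y hy
  have r2 := W.rk_eq i1 i2 l2
  have key := relation_extends_col (W.mat T) (B := V (insert b Y))
    (V_mono (Finset.subset_insert a X))
    (by rw [r1, r2, h _ _ (by omega) (by omega), h _ _ (by omega) (by omega)]) κ hκ
  exact key (a, α) (mem_V.2 (Finset.mem_insert_self a X))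

/-- case (a): every vector at `b` extends to a relation -/
theorem exists_kappa_a (W : World) {n₀ c : ℕ} (h : ∀ N v, n₀ ≤ N → n₀ ≤ v → W.R N v = c)
    {T X Y : Finset ℚ} {b : ℚ} (hX : X ⊆ T) (hY : Y ⊆ T) (hb : b ∈ T)
    (hXb : ∀ x ∈ X, x < b) (hbY : ∀ y ∈ Y, b < y)
    (hXc : n₀ ≤ X.card) (hYc : n₀ ≤ Y.card) (β : Bool) :
    ∃ κ : Vx → W.Ω, (∀ x ∈ V X, ∑ y ∈ V (insert b Y), W.P T x y * κ y = 0) ∧
      κ (b, β) = 1 ∧ κ (b, !β) = 0 := by
  classical
  have hbY' : b ∉ Y := fun hm => lt_irrefl _ (hbY b hm)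
  have c2 : (insert b Y).card = Y.card + 1 := Finset.card_insert_of_notMem hbY'
  have i2 : insert b Y ⊆ T := Finset.insert_subset hb hY
  have l2 : ∀ x ∈ X, ∀ y ∈ insert b Y, x < y := by
    intro x hx y hy
    rcases Finset.mem_insert.1 hy with rfl | hy
    · exact hXb x hx
    · exact (hXb x hx).trans (hbY y hy)
  have r1 := W.rk_eq hX i2 l2
  have r2 := W.rk_eq hX hY fun x hx y hy => l2 x hx y (Finset.mem_insert_of_mem hy)
  have hle : rk (W.mat T) (insert (b, β) (V Y)) (V X) ≤ rk (W.mat T) (V Y) (V X) := by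
    have h1 : rk (W.mat T) (insert (b, β) (V Y)) (V X) ≤ rk (W.mat T) (V (insert b Y)) (V X) := by
      refine rk_mono_left _ ?_ _
      refine Finset.insert_subset (mem_V.2 (Finset.mem_insert_self b Y)) ?_
      exact V_mono (Finset.subset_insert b Y)
    rw [W.rk_comm T (V (insert b Y)) (V X), r1, h _ _ (by omega) hXc] at h1
    rw [W.rk_comm T (V Y) (V X), r2, h _ _ hYc hXc]
    exact h1
  obtain ⟨l, hl⟩ := (mem_rowSpan_iff (W.mat T)).1 (mem_rowSpan_of_rk (W.mat T) hle)
  refine ⟨fun y => if y = (b, β) then 1 else if y = (b, !β) then 0 else - l y, ?_, ?_, ?_⟩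
  · intro x hx
    have hx' := congrFun hl ⟨x, hx⟩
    rw [Finset.sum_apply] at hx'
    change W.P T (b, β) x = ∑ y ∈ V Y, l y * W.P T y x at hx'
    have hsplit : V (insert b Y) = insert (b, β) (insert (b, !β) (V Y)) := by
      ext y
      obtain ⟨y, s⟩ := y
      rw [mem_V]
      simp only [Finset.mem_insert, Prod.mk.injEq, mem_V]
      constructor
      · rintro (h | h)
        · rcases Bool.eq_or_eq_not s β with hs | hs
          · exact Or.inl ⟨h, hs⟩
          · exact Or.inr (Or.inl ⟨h, hs⟩)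
        · exact Or.inr (Or.inr h)
      · rintro (h | h | h)
        · exact Or.inl h.1
        · exact Or.inl h.1
        · exact Or.inr h
    have n1 : (b, β) ∉ insert (b, !β) (V Y) := by
      rw [Finset.mem_insert, mem_V]
      rintro (h | h)
      · have := congrArg Prod.snd h
        cases β <;> simp at this
      · exact hbY' h
    have n2 : (b, !β) ∉ V Y := fun h => hbY' (mem_V.1 h)
    rw [hsplit, Finset.sum_insert n1, Finset.sum_insert n2]
    have hne : (b, !β) ≠ (b, β) := by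
      intro h
      have := congrArg Prod.snd h
      cases β <;> simp at this
    beta_reduce
    rw [if_pos rfl, if_neg hne, if_pos rfl]
    have h3 : ∑ y ∈ V Y, W.P T x y * (if y = (b, β) then 1 else if y = (b, !β) then 0 else - l y) =
        - ∑ y ∈ V Y, l y * W.P T y x := by
      rw [← Finset.sum_neg_distrib]
      refine Finset.sum_congr rfl fun y hy => ?_
      have e1 : y ≠ (b, β) := fun h => by rw [h] at hy; exact hbY' (mem_V.1 hy)
      have e2 : y ≠ (b, !β) := fun h => by rw [h] at hy; exact hbY' (mem_V.1 hy)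
      rw [if_neg e1, if_neg e2, W.symm T y x]
      ring
    rw [h3, ← hx', W.symm T (b, β) x]
    ring
  · exact if_pos rfl
  · have hne : (b, !β) ≠ (b, β) := by
      intro h
      have := congrArg Prod.snd h
      cases β <;> simp at this
    exact (if_neg hne).trans (if_pos rfl)

/-- case (a): a block which kills the right relations is zero -/
theorem eq_zero_of_bounded (W : World) {n₀ c : ℕ} (h : ∀ N v, n₀ ≤ N → n₀ ≤ v → W.R N v = c)
    {T X Y : Finset ℚ} {b : ℚ} (hX : X ⊆ T) (hY : Y ⊆ T) (hb : b ∈ T)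
    (hXb : ∀ x ∈ X, x < b) (hbY : ∀ y ∈ Y, b < y)
    (hXc : n₀ ≤ X.card) (hYc : n₀ ≤ Y.card) (δ : Bool × Bool → W.Ω)
    (hδ : ∀ κ : Vx → W.Ω, (∀ x ∈ V X, ∑ y ∈ V (insert b Y), W.P T x y * κ y = 0) →
      ∀ α, ∑ β, δ (α, β) * κ (b, β) = 0) : δ = 0 := by
  funext ⟨α, β⟩
  obtain ⟨κ, h1, h2, h3⟩ := exists_kappa_a W h hX hY hb hXb hbY hXc hYc β
  have h4 := hδ κ h1 α
  rw [Fintype.sum_bool] at h4
  cases β
  · simp only [Bool.not_false] at h3
    rw [h2, h3] at h4
    simpa using h4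
  · simp only [Bool.not_true] at h3
    rw [h2, h3] at h4
    simpa using h4

open Pool.Agent.Lib.MP_0c183c_co_P9T in
/-- case (a), whole statement: if `R` is bounded, the hull of a near block `N` over the far data
of `P T'` is zero (`N` = the transported near array `σ (P T)`, its relations extend to `a`
by `rel_ext_a` and `σ`). -/
theorem hull_eq_bot_of_bounded (W : World) {n₀ c : ℕ}
    (h : ∀ N v, n₀ ≤ N → n₀ ≤ v → W.R N v = c)
    {k : Type*} [Field k] [Algebra k W.Ω]
    {T T' J : Finset ℚ} {a b : ℚ} (hJ : J ⊆ T) (haT : a ∈ T) (hbT : b ∈ T)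
    (hJ' : J ⊆ T') (hbT' : b ∈ T') (hab : a < b) (haJ : a ∉ J) (hbJ : b ∉ J)
    (hl : n₀ ≤ (lft J a).card) (hr : n₀ ≤ (rgt J b).card)
    (σ : W.Ω ≃+* W.Ω)
    (hS : ∀ p ∈ SS J a b, σ (W.P T p.1 p.2) = W.P T' p.1 p.2) :
    Hull (FF k J a b (W.P T')) (bk (fun x y => σ (W.P T x y)) a b) = ⊥ := by
  classical
  rw [eq_bot_iff]
  intro δ hδ
  rw [Submodule.mem_bot]
  have hXJ : lft J a ⊆ J := Finset.filter_subset _ _
  have hYJ : rgt J b ⊆ J := Finset.filter_subset _ _
  have hXa : ∀ x ∈ lft J a, x < a := fun x hx => (mem_lft.1 hx).2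
  have hbY : ∀ y ∈ rgt J b, b < y := fun y hy => (mem_rgt.1 hy).2
  refine eq_zero_of_bounded W h (hXJ.trans hJ') (hYJ.trans hJ') hbT'
    (fun x hx => (hXa x hx).trans hab) hbY hl hr δ ?_
  intro κ hκ α
  refine hull_right (k := k) (fun x y => σ (W.P T x y)) (W.P T') J a b hab.ne haJ hbJ hS
    (V (lft J a)) (V (insert b (rgt J b))) (fun β => mem_V.2 (Finset.mem_insert_self _ _))
    (fun x hx => hXJ (mem_V.1 hx)) ?_ ?_ ?_ κ hκ hδ α
  · intro y hy
    exact Finset.insert_subset_insert _ hYJ (mem_V.1 hy)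
  · intro x hx y hy
    have hx' := hXa _ (mem_V.1 hx)
    rcases Finset.mem_insert.1 (mem_V.1 hy) with e | e
    · exact (e ▸ (hx'.trans hab)).ne
    · exact (hx'.trans (hab.trans (hbY _ e))).ne
  · intro κ' hκ' α'
    have e1 : ∀ x : Vx, ∑ y ∈ V (insert b (rgt J b)), σ (W.P T x y) * κ' y =
        σ (∑ y ∈ V (insert b (rgt J b)), W.P T x y * σ.symm (κ' y)) := by
      intro x
      rw [map_sum]
      refine Finset.sum_congr rfl fun y _ => ?_
      rw [map_mul, RingEquiv.apply_symm_apply]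
    have h2 := rel_ext_a W h (hXJ.trans hJ) (hYJ.trans hJ) haT hbT hab hXa hbY hl hr
      (fun y => σ.symm (κ' y)) (fun x hx => by
        have h3 := hκ' x hx
        rw [e1] at h3
        exact (map_eq_zero_iff σ σ.injective).1 h3) α'
    show ∑ y ∈ V (insert b (rgt J b)), σ (W.P T (a, α') y) * κ' y = 0
    rw [e1, h2, map_zero]

end Pool.Agent.Lib.MP_0c183c_co_P9A
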