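import Mathlib

/-! Ranks of finite submatrices of an arbitrary (possibly infinite) matrix: monotonicity,
submodularity, supermodularity, extension of relations. For P9 (helper29's text, section 4).
[helper72] -/

namespace Pool.Agent.Lib.P9RankMat

open Module

variable {α β F : Type*} [Field F] (M : Matrix α β F)

/-- the space of row vectors on the columns `B` -/
abbrev RowVec (F : Type*) (B : Finset β) : Type _ := B → F

/-- row `a` of `M` restricted to the columns `B` -/
def rowOn (B : Finset β) (a : α) : B → F := fun b => M a b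

/-- the span of the rows in `A` on the columns `B` -/
def rowSpan (A : Finset α) (B : Finset β) : Submodule F (B → F) :=
  Submodule.span F (rowOn M B '' (A : Set α))

/-- the rank of the submatrix `M[A, B]` -/
noncomputable def rk (A : Finset α) (B : Finset β) : ℕ := finrank F (rowSpan M A B)

theorem rk_eq_rank (A : Finset α) (B : Finset β) :
    rk M A B = (M.submatrix (fun a : A => (a : α)) (fun b : B => (b : β))).rank := by
  classical
  rw [Matrix.rank_eq_finrank_span_row]
  have h : rowOn M B '' (A : Set α) =
      Set.range (M.submatrix (fun a : A => (a : α)) (fun b : B => (b : β))).row := by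
    apply Set.ext
    intro x
    constructor
    · rintro ⟨a, ha, rfl⟩
      exact ⟨⟨a, ha⟩, rfl⟩
    · rintro ⟨a, rfl⟩
      exact ⟨a.1, a.2, rfl⟩
  unfold rk rowSpan
  rw [h]

theorem rk_transpose (A : Finset α) (B : Finset β) : rk M.transpose B A = rk M A B := by
  rw [rk_eq_rank, rk_eq_rank, ← Matrix.rank_transpose]
  rfl

theorem rowSpan_mono {A A' : Finset α} (h : A ⊆ A') (B : Finset β) :
    rowSpan M A B ≤ rowSpan M A' B :=
  Submodule.span_mono (Set.image_mono (by exact_mod_cast h))

theorem rk_mono_left {A A' : Finset α} (h : A ⊆ A') (B : Finset β) : rk M A B ≤ rk M A' B :=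
  Submodule.finrank_mono (rowSpan_mono M h B)

theorem rk_mono_right (A : Finset α) {B B' : Finset β} (h : B ⊆ B') : rk M A B ≤ rk M A B' := by
  rw [← rk_transpose, ← rk_transpose M]
  exact rk_mono_left _ h A

theorem rk_mono {A A' : Finset α} {B B' : Finset β} (h : A ⊆ A') (h' : B ⊆ B') :
    rk M A B ≤ rk M A' B' := (rk_mono_left M h B).trans (rk_mono_right M A' h')

theorem rk_le_card_right (A : Finset α) (B : Finset β) : rk M A B ≤ B.card := by
  have := Submodule.finrank_le (rowSpan M A B)
  rwa [Module.finrank_pi, Fintype.card_coe] at this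

theorem rk_le_card_left (A : Finset α) (B : Finset β) : rk M A B ≤ A.card := by
  rw [← rk_transpose]
  exact rk_le_card_right _ _ _

theorem rowSpan_union [DecidableEq α] (A A' : Finset α) (B : Finset β) :
    rowSpan M (A ∪ A') B = rowSpan M A B ⊔ rowSpan M A' B := by
  unfold rowSpan
  rw [Finset.coe_union, Set.image_union, Submodule.span_union]

/-- submodularity in the rows -/
theorem rk_submod_left [DecidableEq α] (A A' : Finset α) (B : Finset β) :
    rk M (A ∪ A') B + rk M (A ∩ A') B ≤ rk M A B + rk M A' B := by
  unfold rk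
  rw [rowSpan_union, ← Submodule.finrank_sup_add_finrank_inf_eq (rowSpan M A B)]
  have h : rowSpan M (A ∩ A') B ≤ rowSpan M A B ⊓ rowSpan M A' B :=
    le_inf (rowSpan_mono M Finset.inter_subset_left B)
      (rowSpan_mono M Finset.inter_subset_right B)
  exact Nat.add_le_add_left (Submodule.finrank_mono h) _

/-- submodularity in the columns -/
theorem rk_submod_right [DecidableEq β] (A : Finset α) (B B' : Finset β) :
    rk M A (B ∪ B') + rk M A (B ∩ B') ≤ rk M A B + rk M A B' := by
  have := rk_submod_left M.transpose B B' A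
  rwa [rk_transpose, rk_transpose, rk_transpose, rk_transpose] at this

/-- restriction of the columns -/
def colRes (F : Type*) [Field F] {B B' : Finset β} (h : B ⊆ B') : (B' → F) →ₗ[F] (B → F) :=
  LinearMap.funLeft F F (fun b : B => (⟨b.1, h b.2⟩ : B'))

theorem colRes_rowOn {B B' : Finset β} (h : B ⊆ B') (a : α) :
    colRes F h (rowOn M B' a) = rowOn M B a := rfl

theorem map_colRes_rowSpan {B B' : Finset β} (h : B ⊆ B') (A : Finset α) :
    (rowSpan M A B').map (colRes F h) = rowSpan M A B := by
  unfold rowSpan
  rw [Submodule.map_span]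
  congr 1
  rw [← Set.image_comp]
  rfl

theorem finrank_map_add_ker {V W : Type*} [AddCommGroup V] [Module F V] [FiniteDimensional F V]
    [AddCommGroup W] [Module F W] (f : V →ₗ[F] W) (S : Submodule F V) :
    finrank F (S.map f) + finrank F (S ⊓ LinearMap.ker f : Submodule F V) = finrank F S := by
  have h := LinearMap.finrank_range_add_finrank_ker (f.domRestrict S)
  have h1 : LinearMap.range (f.domRestrict S) = S.map f := by
    rw [LinearMap.domRestrict, LinearMap.range_comp, Submodule.range_subtype]
  have h2 : finrank F (LinearMap.ker (f.domRestrict S)) =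
      finrank F (S ⊓ LinearMap.ker f : Submodule F V) := by
    have h3 : (LinearMap.ker (f.domRestrict S)).map S.subtype = S ⊓ LinearMap.ker f := by
      rw [LinearMap.domRestrict, LinearMap.ker_comp, Submodule.map_comap_subtype]
    rw [← h3]
    exact (LinearEquiv.finrank_eq
      (Submodule.equivMapOfInjective S.subtype S.injective_subtype _))
  rw [h1, h2] at h
  exact h

theorem finrank_map_super {V W : Type*} [AddCommGroup V] [Module F V] [FiniteDimensional F V]
    [AddCommGroup W] [Module F W] (f : V →ₗ[F] W) {S S' : Submodule F V} (h : S ≤ S') :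
    finrank F (S'.map f) + finrank F S ≤ finrank F S' + finrank F (S.map f) := by
  have h1 := finrank_map_add_ker f S
  have h2 := finrank_map_add_ker f S'
  have h3 : finrank F (S ⊓ LinearMap.ker f : Submodule F V) ≤
      finrank F (S' ⊓ LinearMap.ker f : Submodule F V) :=
    Submodule.finrank_mono (inf_le_inf_right _ h)
  omega

/-- supermodularity: a row gains more on more columns -/
theorem rk_supermod {A A' : Finset α} {B B' : Finset β} (hA : A ⊆ A') (hB : B ⊆ B') :
    rk M A' B + rk M A B' ≤ rk M A' B' + rk M A B := by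
  have h := finrank_map_super (colRes F hB) (rowSpan_mono M hA B')
  rw [map_colRes_rowSpan, map_colRes_rowSpan] at h
  exact h

/-- (4.3) EXTENSION OF RELATIONS: if `M[A,B]` and `M[A,B']` have the same rank (`B ⊆ B'`) then every
linear relation between the rows `A` valid on `B` is valid on `B'`. -/
theorem relation_extends {A : Finset α} {B B' : Finset β} (hB : B ⊆ B')
    (hr : rk M A B' ≤ rk M A B) (c : α → F) (hc : ∀ b ∈ B, ∑ a ∈ A, c a * M a b = 0) :
    ∀ b ∈ B', ∑ a ∈ A, c a * M a b = 0 := by
  intro b hb
  have hinj : (rowSpan M A B' ⊓ LinearMap.ker (colRes F hB) : Submodule F (B' → F)) = ⊥ := by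
    have h1 := finrank_map_add_ker (colRes F hB) (rowSpan M A B')
    rw [map_colRes_rowSpan] at h1
    unfold rk at hr
    have h2 : finrank F (rowSpan M A B' ⊓ LinearMap.ker (colRes F hB) : Submodule F (B' → F)) = 0 := by
      omega
    exact Submodule.finrank_eq_zero.1 h2
  have hmem : (∑ a ∈ A, c a • rowOn M B' a) ∈
      (rowSpan M A B' ⊓ LinearMap.ker (colRes F hB) : Submodule F (B' → F)) := by
    refine ⟨?_, ?_⟩
    · refine Submodule.sum_mem _ fun a ha => Submodule.smul_mem _ _ ?_
      exact Submodule.subset_span ⟨a, by exact_mod_cast ha, rfl⟩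
    · rw [SetLike.mem_coe, LinearMap.mem_ker, map_sum]
      funext x
      rw [Finset.sum_apply]
      have := hc x.1 x.2
      simpa [colRes_rowOn, rowOn, Pi.smul_apply, smul_eq_mul] using this
  rw [hinj, Submodule.mem_bot] at hmem
  have := congrFun hmem ⟨b, hb⟩
  rw [Finset.sum_apply] at this
  simpa [rowOn, Pi.smul_apply, smul_eq_mul] using this

/-- mirror image of `relation_extends` -/
theorem relation_extends_col {B : Finset β} {A A' : Finset α} (hA : A ⊆ A')
    (hr : rk M A' B ≤ rk M A B) (c : β → F) (hc : ∀ a ∈ A, ∑ b ∈ B, M a b * c b = 0) :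
    ∀ a ∈ A', ∑ b ∈ B, M a b * c b = 0 := by
  have h := relation_extends M.transpose (A := B) hA (by rwa [rk_transpose, rk_transpose]) c
    (fun a ha => by simpa [mul_comm] using hc a ha)
  intro a ha
  simpa [mul_comm] using h a ha

/-- If the rank does not change when `a` is added, row `a` is a combination of the rows `A` on `B`. -/
theorem mem_rowSpan_of_rk [DecidableEq α] {A : Finset α} {B : Finset β} {a : α}
    (h : rk M (insert a A) B ≤ rk M A B) : rowOn M B a ∈ rowSpan M A B := by
  have h1 : rowSpan M A B = rowSpan M (insert a A) B :=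
    Submodule.eq_of_le_of_finrank_le (rowSpan_mono M (Finset.subset_insert a A) B) h
  rw [h1]
  exact Submodule.subset_span ⟨a, by simp, rfl⟩

theorem mem_rowSpan_iff {A : Finset α} {B : Finset β} {x : B → F} :
    x ∈ rowSpan M A B ↔ ∃ c : α → F, x = ∑ a ∈ A, c a • rowOn M B a := by
  classical
  unfold rowSpan
  rw [Submodule.mem_span_image_iff_exists_fun]
  constructor
  · rintro ⟨t, ht, c, hc⟩
    refine ⟨fun a => if h : a ∈ t then c ⟨a, h⟩ else 0, ?_⟩
    rw [← hc]
    have hts : t ⊆ A := by exact_mod_cast ht
    rw [← Finset.sum_subset hts (fun a _ hat => by simp [hat]),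
      ← Finset.sum_coe_sort t (fun a => (if h : a ∈ t then c ⟨a, h⟩ else 0) • rowOn M B a)]
    refine Finset.sum_congr rfl fun a _ => ?_
    simp
  · rintro ⟨c, rfl⟩
    refine ⟨A, subset_rfl, fun a => c a, ?_⟩
    exact Finset.sum_coe_sort A (fun a => c a • rowOn M B a)

end Pool.Agent.Lib.P9RankMat
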