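import Pool.Agent.Lib.MP_0c183c_co_P9W.World
import Pool.Agent.Lib.MP_0c183c_p9.RankNum
import Pool.Agent.Lib.MP_0c183c_co_P9A.RankMat

/-!
# P9, block (A): ranks in a `World` (section 4 of p9_C_helper29.md)

`W.R N v` is the rank of `v` left elements against `N` right elements; `W.rankFun : RankFun W.R`
and `W.rk_eq`: it is the rank for ALL arrays `P T` and all `X < Y` inside `T`.
[helper72]
-/

set_option autoImplicit false

namespace Pool.Agent.Lib.MP_0c183c_co_P9A

open Module Pool.Agent.Lib.MP_0c183c_co_P9W Pool.Agent.MP_0c183c.P9 Pool.Agent.Lib.P9RankMat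

/-! ### Homogeneity of ℚ -/

/-- A finite partial isomorphism between countable dense orders without endpoints extends to an
order isomorphism (Cantor's back and forth). -/
theorem exists_orderIso_extend {α β : Type*} [LinearOrder α] [LinearOrder β]
    [Countable α] [DenselyOrdered α] [NoMinOrder α] [NoMaxOrder α] [Nonempty α]
    [Countable β] [DenselyOrdered β] [NoMinOrder β] [NoMaxOrder β] [Nonempty β]
    (p : Finset (α × β)) (hp : ∀ x ∈ p, ∀ y ∈ p, cmp x.1 y.1 = cmp x.2 y.2) :
    ∃ e : α ≃o β, ∀ x ∈ p, e x.1 = x.2 := by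
  cases nonempty_encodable α
  cases nonempty_encodable β
  let p0 : Order.PartialIso α β := ⟨p, hp⟩
  let to_cofinal : α ⊕ β → Order.Cofinal (Order.PartialIso α β) := fun q ↦
    Sum.recOn q (Order.PartialIso.definedAtLeft β) (Order.PartialIso.definedAtRight α)
  let our_ideal : Order.Ideal (Order.PartialIso α β) := Order.idealOfCofinals p0 to_cofinal
  have hp0 : p0 ∈ our_ideal := Order.mem_idealOfCofinals p0 to_cofinal
  let F a := Order.PartialIso.funOfIdeal a our_ideal
    (Order.cofinal_meets_idealOfCofinals _ to_cofinal (Sum.inl a))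
  let G b := Order.PartialIso.invOfIdeal b our_ideal
    (Order.cofinal_meets_idealOfCofinals _ to_cofinal (Sum.inr b))
  refine ⟨OrderIso.ofCmpEqCmp (fun a ↦ (F a).val) (fun b ↦ (G b).val) fun a b ↦ by
      rcases (F a).prop with ⟨f, hf, ha⟩
      rcases (G b).prop with ⟨g, hg, hb⟩
      rcases our_ideal.directed _ hf _ hg with ⟨m, _, fm, gm⟩
      exact m.prop (a, _) (fm ha) (_, b) (gm hb), ?_⟩
  rintro ⟨a, b⟩ hab
  show (F a).val = b
  rcases (F a).prop with ⟨f, hf, ha⟩
  rcases our_ideal.directed _ hf _ hp0 with ⟨m, _, fm, gm⟩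
  have h := m.prop (a, _) (fm ha) (a, b) (gm hab)
  rw [cmp_self_eq_eq] at h
  exact cmp_eq_eq_iff _ _ |>.1 h.symm

/-- the order isomorphism between two finite sets of the same cardinality, as a set of pairs -/
theorem exists_pairs {X X' : Finset ℚ} (h : X.card = X'.card) :
    ∃ p : Finset (ℚ × ℚ), (∀ x ∈ p, ∀ y ∈ p, cmp x.1 y.1 = cmp x.2 y.2) ∧
      p.image Prod.fst = X ∧ p.image Prod.snd = X' := by
  classical
  let f := X.orderIsoOfFin rfl
  let f' := X'.orderIsoOfFin h.symm
  refine ⟨Finset.univ.image fun i : Fin X.card => ((f i : ℚ), (f' i : ℚ)), ?_, ?_, ?_⟩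
  · intro x hx y hy
    obtain ⟨i, -, rfl⟩ := Finset.mem_image.1 hx
    obtain ⟨j, -, rfl⟩ := Finset.mem_image.1 hy
    show cmp (f i : ℚ) (f j) = cmp (f' i : ℚ) (f' j)
    have h1 : cmp (f i : ℚ) (f j) = cmp i j := by
      have : StrictMono fun i => (f i : ℚ) := fun a b hab => by
        have := f.strictMono hab
        exact_mod_cast this
      exact this.cmp_map_eq i j
    have h2 : cmp (f' i : ℚ) (f' j) = cmp i j := by
      have : StrictMono fun i => (f' i : ℚ) := fun a b hab => by
        have := f'.strictMono hab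
        exact_mod_cast this
      exact this.cmp_map_eq i j
    rw [h1, h2]
  · rw [Finset.image_image]
    ext q
    rw [Finset.mem_image]
    constructor
    · rintro ⟨i, -, rfl⟩
      exact (f i).2
    · intro hq
      exact ⟨f.symm ⟨q, hq⟩, Finset.mem_univ _, by simp⟩
  · rw [Finset.image_image]
    ext q
    rw [Finset.mem_image]
    constructor
    · rintro ⟨i, -, rfl⟩
      exact (f' i).2
    · intro hq
      exact ⟨f'.symm ⟨q, hq⟩, Finset.mem_univ _, by simp⟩

/-- two pairs `X < Y`, `X' < Y'` of finite sets of the same sizes are conjugate -/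
theorem exists_orderIso_pair {X Y X' Y' : Finset ℚ} (hX : X.card = X'.card) (hY : Y.card = Y'.card)
    (h : ∀ x ∈ X, ∀ y ∈ Y, x < y) (h' : ∀ x ∈ X', ∀ y ∈ Y', x < y) :
    ∃ g : ℚ ≃o ℚ, X.image g = X' ∧ Y.image g = Y' := by
  classical
  obtain ⟨p, hp, hp1, hp2⟩ := exists_pairs hX
  obtain ⟨q, hq, hq1, hq2⟩ := exists_pairs hY
  have m1 : ∀ x ∈ p, x.1 ∈ X := fun x hx => hp1 ▸ Finset.mem_image_of_mem _ hx
  have m2 : ∀ x ∈ p, x.2 ∈ X' := fun x hx => hp2 ▸ Finset.mem_image_of_mem _ hx
  have m3 : ∀ x ∈ q, x.1 ∈ Y := fun x hx => hq1 ▸ Finset.mem_image_of_mem _ hx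
  have m4 : ∀ x ∈ q, x.2 ∈ Y' := fun x hx => hq2 ▸ Finset.mem_image_of_mem _ hx
  obtain ⟨g, hg⟩ := exists_orderIso_extend (p ∪ q) (by
    intro x hx y hy
    rcases Finset.mem_union.1 hx with hx | hx <;> rcases Finset.mem_union.1 hy with hy | hy
    · exact hp x hx y hy
    · rw [(cmp_eq_lt_iff _ _).2 (h _ (m1 x hx) _ (m3 y hy)),
        (cmp_eq_lt_iff _ _).2 (h' _ (m2 x hx) _ (m4 y hy))]
    · rw [(cmp_eq_gt_iff _ _).2 (h _ (m1 y hy) _ (m3 x hx)),
        (cmp_eq_gt_iff _ _).2 (h' _ (m2 y hy) _ (m4 x hx))]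
    · exact hq x hx y hy)
  refine ⟨g, ?_, ?_⟩
  · rw [← hp1, ← hp2, Finset.image_image]
    exact Finset.image_congr fun x hx => hg x (Finset.mem_union_left _ hx)
  · rw [← hq1, ← hq2, Finset.image_image]
    exact Finset.image_congr fun x hx => hg x (Finset.mem_union_right _ hx)

/-! ### Ranks under field isomorphisms -/

/-- ranks are invariant under a field isomorphism together with a relabelling -/
theorem rk_map {α β α' β' F F' : Type*} [Field F] [Field F'] [DecidableEq α'] [DecidableEq β']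
    (σ : F ≃+* F') (M : Matrix α β F) (M' : Matrix α' β' F') (A : Finset α) (B : Finset β)
    (f : α → α') (g : β → β') (hg : Function.Injective g)
    (h : ∀ a ∈ A, ∀ b ∈ B, M' (f a) (g b) = σ (M a b)) :
    rk M' (A.image f) (B.image g) = rk M A B := by
  classical
  let gB : B ≃ ↥(B.image g) :=
    Equiv.ofBijective (fun b => ⟨g b, Finset.mem_image_of_mem g b.2⟩) ⟨fun a b hab => by
      exact Subtype.ext (hg (congrArg Subtype.val hab)), fun ⟨y, hy⟩ => by
      obtain ⟨b, hb, rfl⟩ := Finset.mem_image.1 hy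
      exact ⟨⟨b, hb⟩, rfl⟩⟩
  let e : (B → F) ≃+ (↥(B.image g) → F') :=
    { toFun := fun v y => σ (v (gB.symm y))
      invFun := fun w b => σ.symm (w (gB b))
      left_inv := fun v => by funext b; simp
      right_inv := fun w => by funext y; simp
      map_add' := fun v w => by funext y; simp }
  have hsmul : ∀ (c : F) (v : B → F), e (c • v) = σ c • e v := fun c v => by
    funext y
    show σ (c * v (gB.symm y)) = σ c * σ (v (gB.symm y))
    rw [map_mul]
  have hrow : ∀ a ∈ A, e (rowOn M B a) = rowOn M' (B.image g) (f a) := fun a ha => by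
    funext y
    obtain ⟨b, rfl⟩ := gB.surjective y
    show σ (M a (gB.symm (gB b))) = M' (f a) (gB b)
    rw [Equiv.symm_apply_apply]
    exact (h a ha b b.2).symm
  have h1 : ∀ v ∈ rowSpan M A B, e v ∈ rowSpan M' (A.image f) (B.image g) := by
    intro v hv
    unfold rowSpan at hv
    induction hv using Submodule.span_induction with
    | mem x hx =>
      obtain ⟨a, ha, rfl⟩ := hx
      rw [hrow a (by exact_mod_cast ha)]
      exact Submodule.subset_span
        ⟨f a, by exact_mod_cast Finset.mem_image_of_mem f (by exact_mod_cast ha), rfl⟩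
    | zero => rw [map_zero]; exact Submodule.zero_mem _
    | add x y _ _ hx hy => rw [map_add]; exact Submodule.add_mem _ hx hy
    | smul c x _ hx => rw [hsmul]; exact Submodule.smul_mem _ _ hx
  have h2 : ∀ w ∈ rowSpan M' (A.image f) (B.image g), e.symm w ∈ rowSpan M A B := by
    intro w hw
    unfold rowSpan at hw
    induction hw using Submodule.span_induction with
    | mem x hx =>
      obtain ⟨a', ha', rfl⟩ := hx
      obtain ⟨a, ha, rfl⟩ := Finset.mem_image.1 (by exact_mod_cast ha')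
      rw [← hrow a ha, AddEquiv.symm_apply_apply]
      exact Submodule.subset_span ⟨a, by exact_mod_cast ha, rfl⟩
    | zero => rw [map_zero]; exact Submodule.zero_mem _
    | add x y _ _ hx hy => rw [map_add]; exact Submodule.add_mem _ hx hy
    | smul c x _ hx =>
      have : e.symm (c • x) = σ.symm c • e.symm x := by
        apply e.injective
        rw [hsmul, AddEquiv.apply_symm_apply, AddEquiv.apply_symm_apply, RingEquiv.apply_symm_apply]
      rw [this]
      exact Submodule.smul_mem _ _ hx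
  let j : rowSpan M A B ≃+ rowSpan M' (A.image f) (B.image g) :=
    { toFun := fun v => ⟨e v, h1 v v.2⟩
      invFun := fun w => ⟨e.symm w, h2 w w.2⟩
      left_inv := fun v => Subtype.ext (e.symm_apply_apply _)
      right_inv := fun w => Subtype.ext (e.apply_symm_apply _)
      map_add' := fun v w => Subtype.ext (map_add e _ _) }
  unfold rk Module.finrank
  have hr := lift_rank_eq_of_equiv_equiv (σ : F → F') j σ.bijective
    (fun c v => Subtype.ext (hsmul c v))
  have := congrArg Cardinal.toNat hr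
  rw [Cardinal.toNat_lift, Cardinal.toNat_lift] at this
  exact this.symm

/-! ### Ranks in a World -/

/-- all the vertices over a set of elements -/
def V (X : Finset ℚ) : Finset Vx := X ×ˢ (Finset.univ : Finset Bool)

theorem mem_V {X : Finset ℚ} {x : Vx} : x ∈ V X ↔ x.1 ∈ X := by
  simp [V]

theorem V_union (X Y : Finset ℚ) : V (X ∪ Y) = V X ∪ V Y := by
  ext x; simp [mem_V]

theorem V_inter (X Y : Finset ℚ) : V (X ∩ Y) = V X ∩ V Y := by
  ext x; simp [mem_V]

theorem V_mono {X Y : Finset ℚ} (h : X ⊆ Y) : V X ⊆ V Y := fun x hx => mem_V.2 (h (mem_V.1 hx))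

theorem card_V (X : Finset ℚ) : (V X).card = 2 * X.card := by
  simp [V, Finset.card_product, mul_comm]

theorem V_image (X : Finset ℚ) (g : ℚ ≃o ℚ) :
    V (X.image g) = (V X).image fun x => (g x.1, x.2) := by
  ext ⟨q, s⟩
  simp only [mem_V, Finset.mem_image, Prod.mk.injEq, Prod.exists]
  constructor
  · rintro ⟨a, ha, rfl⟩
    exact ⟨a, s, ha, rfl, rfl⟩
  · rintro ⟨a, s', ha, rfl, rfl⟩
    exact ⟨a, ha, rfl⟩

end Pool.Agent.Lib.MP_0c183c_co_P9A

namespace Pool.Agent.Lib.MP_0c183c_co_P9W.World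

open Module Pool.Agent.Lib.MP_0c183c_co_P9A Pool.Agent.MP_0c183c.P9 Pool.Agent.Lib.P9RankMat

variable (W : World)

/-- the array `P T` as a matrix -/
def mat (T : Finset ℚ) : Matrix Vx Vx W.Ω := W.P T

theorem mat_symm (T : Finset ℚ) (x y : Vx) : W.mat T x y = W.mat T y x := W.symm T x y

theorem mat_transpose (T : Finset ℚ) : (W.mat T).transpose = W.mat T := by
  ext x y
  exact W.symm T y x

theorem rk_eq_sub_rank (T : Finset ℚ) (A B : Finset Vx) :
    rk (W.mat T) A B = (sub (W.P T) A B).rank := by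
  rw [rk_eq_rank]
  rfl

theorem rk_comm (T : Finset ℚ) (A B : Finset Vx) : rk (W.mat T) A B = rk (W.mat T) B A := by
  conv_lhs => rw [← rk_transpose, mat_transpose]

/-- world independence of the ranks (0.2) -/
theorem rk_indep {A B : Finset Vx} (hAB : ∀ a ∈ A, ∀ b ∈ B, a.1 ≠ b.1) {T T' : Finset ℚ}
    (hT : ∀ x ∈ A ∪ B, x.1 ∈ T) (hT' : ∀ x ∈ A ∪ B, x.1 ∈ T') :
    rk (W.mat T) A B = rk (W.mat T') A B := by
  rw [rk_eq_sub_rank, rk_eq_sub_rank]
  exact W.rank A B hAB T T' hT hT'

/-- standard left and right sets -/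
def stdL (v : ℕ) : Finset ℚ := (Finset.range v).image fun i : ℕ => -(i : ℚ) - 1

/-- standard right sets -/
def stdR (N : ℕ) : Finset ℚ := (Finset.range N).image fun i : ℕ => (i : ℚ)

theorem card_stdL (v : ℕ) : (stdL v).card = v := by
  unfold stdL
  rw [Finset.card_image_of_injective _ (fun a b h => by simpa using h), Finset.card_range]

theorem card_stdR (N : ℕ) : (stdR N).card = N := by
  unfold stdR
  rw [Finset.card_image_of_injective _ (fun a b h => by simpa using h), Finset.card_range]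

theorem stdL_lt_stdR {v N : ℕ} : ∀ x ∈ stdL v, ∀ y ∈ stdR N, x < y := by
  intro x hx y hy
  obtain ⟨i, -, rfl⟩ := Finset.mem_image.1 hx
  obtain ⟨j, -, rfl⟩ := Finset.mem_image.1 hy
  have h1 : (0 : ℚ) ≤ i := Nat.cast_nonneg i
  have h2 : (0 : ℚ) ≤ j := Nat.cast_nonneg j
  linarith

/-- the rank of `v` left elements against `N` right elements -/
noncomputable def R (N v : ℕ) : ℕ :=
  rk (W.mat (stdL v ∪ stdR N)) (V (stdL v)) (V (stdR N))

/-- the rank of `X < Y` is the same in all arrays and depends only on the cardinalities -/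
theorem rk_eq {T X Y : Finset ℚ} (hX : X ⊆ T) (hY : Y ⊆ T) (h : ∀ x ∈ X, ∀ y ∈ Y, x < y) :
    rk (W.mat T) (V X) (V Y) = W.R Y.card X.card := by
  classical
  obtain ⟨g, hg1, hg2⟩ := exists_orderIso_pair (X := X) (Y := Y) (X' := stdL X.card)
    (Y' := stdR Y.card) (card_stdL _).symm (card_stdR _).symm h stdL_lt_stdR
  obtain ⟨σ, hσ⟩ := W.aut g
  have hdis : ∀ a ∈ V X, ∀ b ∈ V Y, a.1 ≠ b.1 := fun a ha b hb =>
    (h _ (mem_V.1 ha) _ (mem_V.1 hb)).ne
  have h1 : rk (W.mat T) (V X) (V Y) = rk (W.mat (X ∪ Y)) (V X) (V Y) := by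
    refine W.rk_indep hdis ?_ ?_
    · intro x hx
      rcases Finset.mem_union.1 hx with hx | hx
      · exact hX (mem_V.1 hx)
      · exact hY (mem_V.1 hx)
    · intro x hx
      rcases Finset.mem_union.1 hx with hx | hx
      · exact Finset.mem_union_left _ (mem_V.1 hx)
      · exact Finset.mem_union_right _ (mem_V.1 hx)
  have h2 := rk_map σ (W.mat (X ∪ Y)) (W.mat ((X ∪ Y).image g)) (V X) (V Y)
    (fun x => (g x.1, x.2)) (fun x => (g x.1, x.2))
    (fun x y hxy => by
      have e1 := congrArg Prod.fst hxy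
      have e2 := congrArg Prod.snd hxy
      exact Prod.ext (g.injective e1) e2)
    (fun a ha b hb => (hσ (X ∪ Y) a b (Finset.mem_union_left _ (mem_V.1 ha))
      (Finset.mem_union_right _ (mem_V.1 hb))).symm)
  rw [h1, ← h2, ← V_image, ← V_image, Finset.image_union, hg1, hg2]
  rfl

theorem rankFun : RankFun W.R := by
  classical
  have e : ∀ {X Y : Finset ℚ}, (∀ x ∈ X, ∀ y ∈ Y, x < y) →
      rk (W.mat (X ∪ Y)) (V X) (V Y) = W.R Y.card X.card := fun h =>
    W.rk_eq Finset.subset_union_left Finset.subset_union_right h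
  -- everything inside one array
  have e' : ∀ (v N : ℕ) {X Y : Finset ℚ}, X ⊆ stdL v → Y ⊆ stdR N →
      rk (W.mat (stdL v ∪ stdR N)) (V X) (V Y) = W.R Y.card X.card := fun v N X Y hX hY =>
    W.rk_eq (hX.trans Finset.subset_union_left) (hY.trans Finset.subset_union_right)
      (fun x hx y hy => stdL_lt_stdR x (hX hx) y (hY hy))
  have subL : ∀ {a b : ℕ}, a ≤ b → stdL a ⊆ stdL b := fun h =>
    Finset.image_subset_image (Finset.range_subset_range.2 h)
  have subR : ∀ {a b : ℕ}, a ≤ b → stdR a ⊆ stdR b := fun h =>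
    Finset.image_subset_image (Finset.range_subset_range.2 h)
  have insL : ∀ a : ℕ, stdL (a + 1) = insert (-(a : ℚ) - 1) (stdL a) := fun a => by
    unfold stdL
    rw [Finset.range_add_one, Finset.image_insert]
  have insR : ∀ a : ℕ, stdR (a + 1) = insert (a : ℚ) (stdR a) := fun a => by
    unfold stdR
    rw [Finset.range_add_one, Finset.image_insert]
  have nmL : ∀ {a b : ℕ}, a ≤ b → -(b : ℚ) - 1 ∉ stdL a := fun {a b} h hm => by
    obtain ⟨i, hi, hib⟩ := Finset.mem_image.1 hm
    have h1 : (i : ℚ) = b := by linarith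
    have h2 : i = b := by exact_mod_cast h1
    have := Finset.mem_range.1 hi
    omega
  have nmR : ∀ {a b : ℕ}, a ≤ b → (b : ℚ) ∉ stdR a := fun {a b} h hm => by
    obtain ⟨i, hi, hib⟩ := Finset.mem_image.1 hm
    have h2 : i = b := by exact_mod_cast hib
    have := Finset.mem_range.1 hi
    omega
  have Vins : ∀ (q : ℚ) (X : Finset ℚ), V (insert q X) = V {q} ∪ V X := fun q X => by
    rw [← V_union]; rfl
  -- generic facts
  have stepR : ∀ N v, W.R (N + 1) v ≤ W.R N v + 2 := by
    intro N v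
    have h1 := e' v (N + 1) (subL le_rfl) (subR (le_refl (N + 1)))
    have h2 := e' v (N + 1) (subL le_rfl) (subR (Nat.le_succ N))
    rw [card_stdL, card_stdR] at h1 h2
    rw [← h1, ← h2, insR N, Vins]
    have h3 := rk_submod_right (W.mat (stdL v ∪ insert (N : ℚ) (stdR N))) (V (stdL v))
      (V {(N : ℚ)}) (V (stdR N))
    have h4 := rk_le_card_right (W.mat (stdL v ∪ insert (N : ℚ) (stdR N))) (V (stdL v))
      (V {(N : ℚ)})
    rw [card_V, Finset.card_singleton] at h4
    omega
  have stepL : ∀ N v, W.R N (v + 1) ≤ W.R N v + 2 := by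
    intro N v
    have h1 := e' (v + 1) N (subL (le_refl (v + 1))) (subR le_rfl)
    have h2 := e' (v + 1) N (subL (Nat.le_succ v)) (subR le_rfl)
    rw [card_stdL, card_stdR] at h1 h2
    rw [← h1, ← h2, insL v, Vins]
    have h3 := rk_submod_left (W.mat (insert (-(v : ℚ) - 1) (stdL v) ∪ stdR N))
      (V {-(v : ℚ) - 1}) (V (stdL v)) (V (stdR N))
    have h4 := rk_le_card_left (W.mat (insert (-(v : ℚ) - 1) (stdL v) ∪ stdR N))
      (V {-(v : ℚ) - 1}) (V (stdR N))
    rw [card_V, Finset.card_singleton] at h4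
    omega
  have monoR : ∀ N v, W.R N v ≤ W.R (N + 1) v := by
    intro N v
    have h1 := e' v (N + 1) (subL le_rfl) (subR (le_refl (N + 1)))
    have h2 := e' v (N + 1) (subL le_rfl) (subR (Nat.le_succ N))
    rw [card_stdL, card_stdR] at h1 h2
    rw [← h1, ← h2]
    exact rk_mono_right _ _ (V_mono (subR (Nat.le_succ N)))
  have monoL : ∀ N v, W.R N v ≤ W.R N (v + 1) := by
    intro N v
    have h1 := e' (v + 1) N (subL (le_refl (v + 1))) (subR le_rfl)
    have h2 := e' (v + 1) N (subL (Nat.le_succ v)) (subR le_rfl)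
    rw [card_stdL, card_stdR] at h1 h2
    rw [← h1, ← h2]
    exact rk_mono_left _ (V_mono (subL (Nat.le_succ v))) _
  have concR : ∀ N v, W.R (N + 2) v + W.R N v ≤ 2 * W.R (N + 1) v := by
    intro N v
    -- Y ∪ {N}, Y ∪ {N+1}
    have h1 := e' v (N + 2) (subL le_rfl) (subR (le_refl (N + 2)))
    have h2 := e' v (N + 2) (subL le_rfl) (subR (show N ≤ N + 2 by omega))
    have h3 := e' v (N + 2) (subL le_rfl) (subR (show N + 1 ≤ N + 2 by omega))
    have hY : insert (((N + 1 : ℕ) : ℚ)) (stdR N) ⊆ stdR (N + 2) := by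
      rw [insR (N + 1), insR N]
      exact Finset.insert_subset_insert _ (Finset.subset_insert _ _)
    have h4 := e' v (N + 2) (subL le_rfl) hY
    rw [Finset.card_insert_of_notMem (nmR (Nat.le_succ N))] at h4
    rw [card_stdL, card_stdR] at h1 h2 h3 h4
    have h5 := rk_submod_right (W.mat (stdL v ∪ stdR (N + 2))) (V (stdL v))
      (V (stdR (N + 1))) (V (insert (((N + 1 : ℕ) : ℚ)) (stdR N)))
    have h6 : stdR (N + 1) ∪ insert (((N + 1 : ℕ) : ℚ)) (stdR N) = stdR (N + 2) := by
      rw [insR (N + 1), insR N]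
      ext x
      simp only [Finset.mem_union, Finset.mem_insert]
      tauto
    have h7 : stdR (N + 1) ∩ insert (((N + 1 : ℕ) : ℚ)) (stdR N) = stdR N := by
      ext x
      simp only [Finset.mem_inter, Finset.mem_insert]
      constructor
      · rintro ⟨hx1, rfl | hx2⟩
        · exact absurd hx1 (nmR le_rfl)
        · exact hx2
      · intro hx
        exact ⟨subR (Nat.le_succ N) hx, Or.inr hx⟩
    rw [← V_union, ← V_inter, h6, h7, h1, h2, h3, h4] at h5
    omega
  have concL : ∀ N v, W.R N (v + 2) + W.R N v ≤ 2 * W.R N (v + 1) := by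
    intro N v
    have h1 := e' (v + 2) N (subL (le_refl (v + 2))) (subR le_rfl)
    have h2 := e' (v + 2) N (subL (show v ≤ v + 2 by omega)) (subR le_rfl)
    have h3 := e' (v + 2) N (subL (show v + 1 ≤ v + 2 by omega)) (subR le_rfl)
    have hY : insert (-((v + 1 : ℕ) : ℚ) - 1) (stdL v) ⊆ stdL (v + 2) := by
      rw [insL (v + 1), insL v]
      exact Finset.insert_subset_insert _ (Finset.subset_insert _ _)
    have h4 := e' (v + 2) N hY (subR le_rfl)
    rw [Finset.card_insert_of_notMem (nmL (Nat.le_succ v))] at h4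
    rw [card_stdL, card_stdR] at h1 h2 h3 h4
    have h5 := rk_submod_left (W.mat (stdL (v + 2) ∪ stdR N))
      (V (stdL (v + 1))) (V (insert (-((v + 1 : ℕ) : ℚ) - 1) (stdL v))) (V (stdR N))
    have h6 : stdL (v + 1) ∪ insert (-((v + 1 : ℕ) : ℚ) - 1) (stdL v) = stdL (v + 2) := by
      rw [insL (v + 1), insL v]
      ext x
      simp only [Finset.mem_union, Finset.mem_insert]
      tauto
    have h7 : stdL (v + 1) ∩ insert (-((v + 1 : ℕ) : ℚ) - 1) (stdL v) = stdL v := by
      ext x
      simp only [Finset.mem_inter, Finset.mem_insert]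
      constructor
      · rintro ⟨hx1, rfl | hx2⟩
        · exact absurd hx1 (nmL le_rfl)
        · exact hx2
      · intro hx
        exact ⟨subL (Nat.le_succ v) hx, Or.inr hx⟩
    rw [← V_union, ← V_inter, h6, h7, h1, h2, h3, h4] at h5
    omega
  have zeroR : ∀ v, W.R 0 v = 0 := by
    intro v
    have h1 := e' v 0 (subL le_rfl) (subR (le_refl 0))
    rw [card_stdL, card_stdR] at h1
    rw [← h1]
    have h2 := rk_le_card_right (W.mat (stdL v ∪ stdR 0)) (V (stdL v)) (V (stdR 0))
    rw [card_V, card_stdR] at h2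
    omega
  have zeroL : ∀ N, W.R N 0 = 0 := by
    intro N
    have h1 := e' 0 N (subL (le_refl 0)) (subR le_rfl)
    rw [card_stdL, card_stdR] at h1
    rw [← h1]
    have h2 := rk_le_card_left (W.mat (stdL 0 ∪ stdR N)) (V (stdL 0)) (V (stdR N))
    rw [card_V, card_stdL] at h2
    omega
  refine ⟨fun v => ⟨zeroR v, fun N => monoR N v, fun N => stepR N v, fun N => concR N v⟩,
    fun N => ⟨zeroL N, fun v => monoL N v, fun v => stepL N v, fun v => concL N v⟩, ?_⟩
  intro N v
  have h1 := e' (v + 1) (N + 1) (subL (le_refl (v + 1))) (subR (le_refl (N + 1)))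
  have h2 := e' (v + 1) (N + 1) (subL (Nat.le_succ v)) (subR (le_refl (N + 1)))
  have h3 := e' (v + 1) (N + 1) (subL (le_refl (v + 1))) (subR (Nat.le_succ N))
  have h4 := e' (v + 1) (N + 1) (subL (Nat.le_succ v)) (subR (Nat.le_succ N))
  rw [card_stdL, card_stdR] at h1 h2 h3 h4
  have h5 := rk_supermod (W.mat (stdL (v + 1) ∪ stdR (N + 1)))
    (V_mono (subL (Nat.le_succ v))) (V_mono (subR (Nat.le_succ N)))
  rw [h1, h2, h3, h4] at h5
  omega

end Pool.Agent.Lib.MP_0c183c_co_P9W.World
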