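import Pool.Agent.Lib.MP_0c183c_co_P9A.RankW

/-!
# P9, block (A): the reversed world, the two-sided rank and the dichotomy (H)
[helper72]
-/

set_option autoImplicit false

namespace Pool.Agent.Lib.MP_0c183c_co_P9A

open Module Pool.Agent.Lib.MP_0c183c_co_P9W Pool.Agent.MP_0c183c.P9 Pool.Agent.Lib.P9RankMat

/-- reversal of a vertex -/
def negV (x : Vx) : Vx := (-x.1, x.2)

theorem negV_negV (x : Vx) : negV (negV x) = x := by
  unfold negV; simp

theorem negV_injective : Function.Injective negV := fun x y h => by
  rw [← negV_negV x, h, negV_negV]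

/-- reversal of a finite set -/
def negF (T : Finset ℚ) : Finset ℚ := T.image fun q => -q

theorem mem_negF {T : Finset ℚ} {q : ℚ} : q ∈ negF T ↔ -q ∈ T := by
  unfold negF
  rw [Finset.mem_image]
  constructor
  · rintro ⟨a, ha, rfl⟩
    simpa using ha
  · intro h
    exact ⟨-q, h, by simp⟩

theorem negF_negF (T : Finset ℚ) : negF (negF T) = T := by
  ext q; simp [mem_negF]

theorem negF_erase (T : Finset ℚ) (b : ℚ) : negF (T.erase b) = (negF T).erase (-b) := by
  ext q
  simp only [mem_negF, Finset.mem_erase, ne_eq]
  constructor
  · rintro ⟨h1, h2⟩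
    exact ⟨fun h => h1 (by rw [h]; simp), h2⟩
  · rintro ⟨h1, h2⟩
    exact ⟨fun h => h1 (by rw [← h]; simp), h2⟩

theorem negF_union (T S : Finset ℚ) : negF (T ∪ S) = negF T ∪ negF S := by
  ext q; simp [mem_negF]

theorem card_negF (T : Finset ℚ) : (negF T).card = T.card :=
  Finset.card_image_of_injective _ neg_injective

theorem negF_mono {T S : Finset ℚ} (h : T ⊆ S) : negF T ⊆ negF S := Finset.image_subset_image h

theorem V_negF (X : Finset ℚ) : V (negF X) = (V X).image negV := by
  ext ⟨q, s⟩
  simp only [mem_V, mem_negF, Finset.mem_image, negV, Prod.mk.injEq, Prod.exists]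
  constructor
  · intro h
    exact ⟨-q, s, h, by simp, rfl⟩
  · rintro ⟨a, s', ha, rfl, rfl⟩
    simpa using ha

/-- the order automorphism `q ↦ - g (- q)` -/
def negIso (g : ℚ ≃o ℚ) : ℚ ≃o ℚ where
  toFun q := -g (-q)
  invFun q := -g.symm (-q)
  left_inv q := by simp
  right_inv q := by simp
  map_rel_iff' := by
    intro a b
    show -g (-a) ≤ -g (-b) ↔ a ≤ b
    rw [neg_le_neg_iff, g.le_iff_le, neg_le_neg_iff]

theorem rk_relabel {α β α' β' F : Type*} [Field F] [DecidableEq α'] [DecidableEq β']
    (M : Matrix α β F) (M' : Matrix α' β' F) (A : Finset α) (B : Finset β)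
    (f : α → α') (g : β → β') (hg : Function.Injective g)
    (h : ∀ a ∈ A, ∀ b ∈ B, M' (f a) (g b) = M a b) :
    rk M' (A.image f) (B.image g) = rk M A B :=
  rk_map (RingEquiv.refl F) M M' A B f g hg fun a ha b hb => by
    rw [h a ha b hb]; rfl

/-- the order reversed world -/
def _root_.Pool.Agent.Lib.MP_0c183c_co_P9W.World.rev (W : World) : World :=
  { W with
    P := fun T x y => W.P (negF T) (negV x) (negV y)
    symm := fun T x y => W.symm _ _ _
    abs := by
      intro T b hb
      obtain ⟨t, ht, h⟩ := W.abs (negF T) (-b) (by rw [mem_negF]; simpa using hb)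
      refine ⟨t, ?_, ?_⟩
      · have : entries T (fun x y => W.P (negF T) (negV x) (negV y)) =
            entries (negF T) (W.P (negF T)) := by
          apply Set.ext
          intro z
          constructor
          · rintro ⟨x, y, hx, hy, rfl⟩
            exact ⟨negV x, negV y, by rw [mem_negF]; simpa [negV] using hx,
              by rw [mem_negF]; simpa [negV] using hy, rfl⟩
          · rintro ⟨x, y, hx, hy, rfl⟩
            refine ⟨negV x, negV y, ?_, ?_, ?_⟩
            · rw [mem_negF] at hx; exact hx
            · rw [mem_negF] at hy; exact hy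
            · show W.P (negF T) x y = W.P (negF T) (negV (negV x)) (negV (negV y))
              rw [negV_negV, negV_negV]
        rw [this]
        exact ht
      · intro x y hx hy
        have h1 := h (negV x) (negV y)
          (by rw [← negF_erase, mem_negF]; simpa [negV] using hx)
          (by rw [← negF_erase, mem_negF]; simpa [negV] using hy)
        rw [negF_erase]
        exact h1
    rank := by
      intro A B hAB T T' hT hT'
      have key : ∀ T : Finset ℚ,
          (sub (fun x y => W.P (negF T) (negV x) (negV y)) A B).rank =
            (sub (W.P (negF T)) (A.image negV) (B.image negV)).rank := by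
        intro T
        have h1 := rk_relabel (F := W.Ω) (fun x y => W.P (negF T) (negV x) (negV y) : Matrix Vx Vx W.Ω)
          (W.mat (negF T)) A B negV negV negV_injective (fun a _ b _ => rfl)
        rw [rk_eq_rank, rk_eq_rank] at h1
        exact h1.symm
      rw [key T, key T']
      refine W.rank _ _ ?_ _ _ ?_ ?_
      · intro a ha b hb
        obtain ⟨a', ha', rfl⟩ := Finset.mem_image.1 ha
        obtain ⟨b', hb', rfl⟩ := Finset.mem_image.1 hb
        intro h
        exact hAB a' ha' b' hb' (neg_injective h)
      · intro x hx
        rw [mem_negF]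
        rw [← Finset.image_union] at hx
        obtain ⟨a, ha, rfl⟩ := Finset.mem_image.1 hx
        simpa [negV] using hT a ha
      · intro x hx
        rw [mem_negF]
        rw [← Finset.image_union] at hx
        obtain ⟨a, ha, rfl⟩ := Finset.mem_image.1 hx
        simpa [negV] using hT' a ha
    aut := by
      intro g
      obtain ⟨σ, hσ⟩ := W.aut (negIso g)
      refine ⟨σ, ?_⟩
      intro T x y hx hy
      have h1 := hσ (negF T) (negV x) (negV y) (by rw [mem_negF]; simpa [negV] using hx)
        (by rw [mem_negF]; simpa [negV] using hy)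
      rw [h1]
      have h2 : (negF T).image (negIso g) = negF (T.image g) := by
        ext q
        rw [mem_negF, Finset.mem_image, Finset.mem_image]
        constructor
        · rintro ⟨a, ha, rfl⟩
          rw [mem_negF] at ha
          exact ⟨-a, ha, by simp [negIso]⟩
        · rintro ⟨a, ha, hq⟩
          refine ⟨-a, by rw [mem_negF]; simpa using ha, ?_⟩
          show -g (- -a) = q
          rw [neg_neg, hq, neg_neg]
      rw [h2]
      have h3 : ∀ z : Vx, ((negIso g) (negV z).1, (negV z).2) = negV (g z.1, z.2) := by
        intro z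
        show (-g (- -z.1), z.2) = (-g z.1, z.2)
        rw [neg_neg]
      rw [h3, h3]
    nocomp := by
      intro T θ
      have h1 := W.nocomp (negF T) (fun q => θ (-q))
      let e : (T × Bool) ≃ (negF T × Bool) :=
        Equiv.prodCongr
          { toFun := fun q => ⟨-q.1, by rw [mem_negF, neg_neg]; exact q.2⟩
            invFun := fun q => ⟨-q.1, mem_negF.1 q.2⟩
            left_inv := fun q => Subtype.ext (neg_neg _)
            right_inv := fun q => Subtype.ext (neg_neg _) } (Equiv.refl Bool)
      have h2 : completed T (fun x y => W.P (negF T) (negV x) (negV y)) θ =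
          (completed (negF T) (W.P (negF T)) (fun q => θ (-q))).submatrix e e := by
        ext x y
        show completed T (fun x y => W.P (negF T) (negV x) (negV y)) θ x y =
          completed (negF T) (W.P (negF T)) (fun q => θ (-q)) (e x) (e y)
        unfold completed
        have e1 : ((e x).1 = (e y).1) ↔ (x.1 = y.1) := by
          constructor
          · intro h
            have := congrArg Subtype.val h
            exact Subtype.ext (neg_injective this)
          · intro h
            exact Subtype.ext (by
              show -(x.1 : ℚ) = -(y.1 : ℚ)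
              rw [h])
        have e2 : (e x).2 = x.2 := rfl
        have e3 : (e y).2 = y.2 := rfl
        have e4 : ((e x).1 : ℚ) = -(x.1 : ℚ) := rfl
        have e5 : ((e y).1 : ℚ) = -(y.1 : ℚ) := rfl
        simp only [e1, e2, e3, e4, e5, neg_neg]
        rfl
      have h3 : (completed T (fun x y => W.P (negF T) (negV x) (negV y)) θ).rank =
          (completed (negF T) (W.P (negF T)) (fun q => θ (-q))).rank := by
        rw [h2, Matrix.rank_submatrix]
      rw [card_negF] at h1
      exact lt_of_lt_of_eq h1 (by rw [h3]) }

end Pool.Agent.Lib.MP_0c183c_co_P9A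

namespace Pool.Agent.Lib.MP_0c183c_co_P9W.World

open Module Pool.Agent.Lib.MP_0c183c_co_P9A Pool.Agent.MP_0c183c.P9 Pool.Agent.Lib.P9RankMat

variable (W : World)

theorem rev_P (T : Finset ℚ) (x y : Vx) : W.rev.P T x y = W.P (negF T) (negV x) (negV y) := rfl

/-- ranks in the reversed world -/
theorem rev_rk (T A B : Finset ℚ) :
    rk (W.rev.mat T) (V A) (V B) = rk (W.mat (negF T)) (V (negF A)) (V (negF B)) := by
  rw [V_negF, V_negF]
  exact (rk_relabel (F := W.Ω) (W.rev.mat T) (W.mat (negF T)) (V A) (V B) negV negV
    negV_injective (fun a _ b _ => rfl)).symm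

/-- the rank function of the reversed world -/
theorem rev_R (N v : ℕ) : W.rev.R N v = W.R v N := by
  have h1 := W.rev.rk_eq (T := stdL v ∪ stdR N) Finset.subset_union_left Finset.subset_union_right
    stdL_lt_stdR
  rw [card_stdL, card_stdR, rev_rk, rk_comm, W.rk_eq] at h1
  · rw [← h1, card_negF, card_negF, card_stdL, card_stdR]
  · exact negF_mono Finset.subset_union_right
  · exact negF_mono Finset.subset_union_left
  · intro x hx y hy
    have := stdL_lt_stdR (-y) (mem_negF.1 hy) (-x) (mem_negF.1 hx)
    linarith

end Pool.Agent.Lib.MP_0c183c_co_P9W.World
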