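import Mathlib

/-!
Linear algebra of section 5 and of the filtration (3.3) of p9_C_helper29.md. Any field, no World.
[helper64]
-/

set_option autoImplicit false

namespace Pool.Agent.Lib.P9Sec5

open Module

variable {F : Type*} [Field F]

/-- dimension of the image of a subspace -/
theorem finrank_map_add_ker {E E' : Type*} [AddCommGroup E] [Module F E] [FiniteDimensional F E]
    [AddCommGroup E'] [Module F E'] (f : E →ₗ[F] E') (S : Submodule F E) :
    finrank F (S.map f) + finrank F (S ⊓ LinearMap.ker f : Submodule F E) = finrank F S := by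
  have h := LinearMap.finrank_range_add_finrank_ker (f.domRestrict S)
  have h1 : LinearMap.range (f.domRestrict S) = S.map f := by
    rw [LinearMap.domRestrict, LinearMap.range_comp, Submodule.range_subtype]
  have h2 : finrank F (LinearMap.ker (f.domRestrict S)) =
      finrank F (S ⊓ LinearMap.ker f : Submodule F E) := by
    have h3 : (LinearMap.ker (f.domRestrict S)).map S.subtype = S ⊓ LinearMap.ker f := by
      rw [LinearMap.domRestrict, LinearMap.ker_comp, Submodule.map_comap_subtype]
    rw [← h3]
    exact (LinearEquiv.finrank_eq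
      (Submodule.equivMapOfInjective S.subtype S.injective_subtype _))
  rw [h1, h2] at h
  exact h

/-! ### (L3) the filtration -/

/-- TRIANGULAR FILTRATION. `W j ≤ T` for `j < n`, and `π i` kills `W j` for `i < j`. -/
theorem sum_finrank_le {E E' : Type*} [AddCommGroup E] [Module F E] [FiniteDimensional F E]
    [AddCommGroup E'] [Module F E'] (n : ℕ) :
    ∀ (W : ℕ → Submodule F E) (π : ℕ → E →ₗ[F] E') (T : Submodule F E),
      (∀ j < n, W j ≤ T) → (∀ i j, i < j → j < n → W j ≤ LinearMap.ker (π i)) →
      ∑ j ∈ Finset.range n, finrank F ((W j).map (π j)) ≤ finrank F T := by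
  induction n with
  | zero => intro W π T _ _; simp
  | succ n ih =>
    intro W π T hT hk
    rw [Finset.sum_range_succ']
    have h1 := ih (fun j => W (j + 1)) (fun j => π (j + 1)) (T ⊓ LinearMap.ker (π 0))
      (fun j hj => le_inf (hT (j + 1) (by omega)) (hk 0 (j + 1) (by omega) (by omega)))
      (fun i j hij hj => hk (i + 1) (j + 1) (by omega) (by omega))
    have h2 := finrank_map_add_ker (π 0) T
    have h3 : finrank F ((W 0).map (π 0)) ≤ finrank F (T.map (π 0)) :=
      Submodule.finrank_mono (Submodule.map_mono (hT 0 (by omega)))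
    omega

/-- numerical consequence: rows `j` with `s ≤ j` and `j + s < n` contribute at least `β j - c` -/
theorem quadratic_lower (d : ℕ → ℕ) (β c s n : ℕ)
    (h : ∀ j, s ≤ j → j + s < n → β * j ≤ d j + c) :
    β * n ^ 2 ≤ 2 * ∑ j ∈ Finset.range n, d j + (2 * c + β * (4 * s + 1)) * n := by
  classical
  -- pointwise: `β j ≤ d j + c + β n [j < s or n ≤ j + s]`
  have hpt : ∀ j ∈ Finset.range n, β * j ≤ d j + c +
      (if j < s ∨ n ≤ j + s then β * n else 0) := by
    intro j hj
    rw [Finset.mem_range] at hj
    split_ifs with hc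
    · have : β * j ≤ β * n := Nat.mul_le_mul_left _ hj.le
      omega
    · push Not at hc
      have := h j hc.1 hc.2
      omega
  have hsum := Finset.sum_le_sum hpt
  rw [← Finset.mul_sum, Finset.sum_add_distrib, Finset.sum_add_distrib, Finset.sum_const,
    Finset.card_range, ← Finset.sum_filter, Finset.sum_const] at hsum
  have hcard : ((Finset.range n).filter fun j => j < s ∨ n ≤ j + s).card ≤ 2 * s := by
    have hsub : ((Finset.range n).filter fun j => j < s ∨ n ≤ j + s) ⊆
        Finset.range s ∪ Finset.Ico (n - s) n := by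
      intro j hj
      rw [Finset.mem_filter, Finset.mem_range] at hj
      rw [Finset.mem_union, Finset.mem_range, Finset.mem_Ico]
      omega
    refine (Finset.card_le_card hsub).trans ((Finset.card_union_le _ _).trans ?_)
    rw [Finset.card_range, Nat.card_Ico]
    omega
  have hgauss : (∑ j ∈ Finset.range n, j) * 2 = n * (n - 1) := Finset.sum_range_id_mul_two n
  have hg2 : n ^ 2 = (∑ j ∈ Finset.range n, j) * 2 + n := by
    rw [hgauss]
    cases n with
    | zero => rfl
    | succ m => simp only [Nat.add_sub_cancel]; ring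
  have h3 : ((Finset.range n).filter fun j => j < s ∨ n ≤ j + s).card * (β * n) ≤
      2 * s * (β * n) := Nat.mul_le_mul_right _ hcard
  simp only [smul_eq_mul] at hsum
  calc β * n ^ 2 = 2 * (β * ∑ j ∈ Finset.range n, j) + β * n := by rw [hg2]; ring
    _ ≤ 2 * (∑ j ∈ Finset.range n, d j + n * c + 2 * s * (β * n)) + β * n := by omega
    _ = 2 * ∑ j ∈ Finset.range n, d j + (2 * c + β * (4 * s + 1)) * n := by ring

/-- (3.3): the filtration together with the count -/
theorem filtration {E E' : Type*} [AddCommGroup E] [Module F E] [FiniteDimensional F E]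
    [AddCommGroup E'] [Module F E'] (n β c s : ℕ)
    (W : ℕ → Submodule F E) (π : ℕ → E →ₗ[F] E') (T : Submodule F E)
    (hT : ∀ j < n, W j ≤ T) (hk : ∀ i j, i < j → j < n → W j ≤ LinearMap.ker (π i))
    (h : ∀ j, s ≤ j → j + s < n → β * j ≤ finrank F ((W j).map (π j)) + c) :
    β * n ^ 2 ≤ 2 * finrank F T + (2 * c + β * (4 * s + 1)) * n := by
  have h1 := sum_finrank_le n W π T hT hk
  have h2 := quadratic_lower (fun j => finrank F ((W j).map (π j))) β c s n h
  omega

/-! ### (L1) multiplication by a matrix of almost full rank -/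

/-- `X ↦ X * P`, on plain functions -/
def mulR {κ β γ : Type*} [Fintype β] (P : Matrix β γ F) : (κ → β → F) →ₗ[F] (κ → γ → F) where
  toFun X i := P.vecMulLinear (X i)
  map_add' X Y := by
    funext i
    simp only [Pi.add_apply, map_add]
  map_smul' c X := by
    funext i
    simp only [Pi.smul_apply, map_smul, RingHom.id_apply]

theorem finrank_pi_submodule {κ M : Type*} [Fintype κ] [AddCommGroup M] [Module F M]
    [FiniteDimensional F M] (K : κ → Submodule F M) :
    finrank F (Submodule.pi Set.univ K : Submodule F (κ → M)) = ∑ i, finrank F (K i) := by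
  classical
  let e : (Submodule.pi Set.univ K : Submodule F (κ → M)) ≃ₗ[F] (∀ i, K i) :=
    { toFun := fun x i => ⟨x.1 i, x.2 i (Set.mem_univ i)⟩
      map_add' := fun _ _ => rfl
      map_smul' := fun _ _ => rfl
      invFun := fun y => ⟨fun i => (y i : M), fun i _ => (y i).2⟩
      left_inv := fun _ => rfl
      right_inv := fun _ => rfl }
  rw [e.finrank_eq, Module.finrank_pi_fintype]

theorem finrank_ker_vecMul {β γ : Type*} [Fintype β] [Fintype γ] (P : Matrix β γ F) :
    finrank F (LinearMap.ker P.vecMulLinear) + P.rank = Fintype.card β := by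
  classical
  have h := LinearMap.finrank_range_add_finrank_ker P.vecMulLinear
  have h1 : finrank F (LinearMap.range P.vecMulLinear) = P.rank := by
    rw [← Matrix.rank_transpose, Matrix.rank, Matrix.mulVecLin_transpose]
  rw [h1, Module.finrank_pi] at h
  omega

theorem ker_mulR {κ β γ : Type*} [Fintype β] (P : Matrix β γ F) :
    LinearMap.ker (mulR (κ := κ) P) =
      (Submodule.pi Set.univ fun _ : κ => LinearMap.ker P.vecMulLinear : Submodule F (κ → β → F)) := by
  ext X
  rw [LinearMap.mem_ker, Submodule.mem_pi]
  constructor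
  · intro h i _
    rw [LinearMap.mem_ker]
    exact congrFun h i
  · intro h
    funext i
    have := h i (Set.mem_univ i)
    rwa [LinearMap.mem_ker] at this

/-- (L1) -/
theorem finrank_le_map_mulR {κ β γ : Type*} [Fintype κ] [Fintype β] [Fintype γ]
    (P : Matrix β γ F) (S : Submodule F (κ → β → F)) :
    finrank F S ≤ finrank F (S.map (mulR P)) + Fintype.card κ * (Fintype.card β - P.rank) := by
  have h1 := finrank_map_add_ker (mulR (κ := κ) P) S
  have h2 : finrank F (S ⊓ LinearMap.ker (mulR (κ := κ) P) : Submodule F (κ → β → F)) ≤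
      finrank F (LinearMap.ker (mulR (κ := κ) P)) := Submodule.finrank_mono inf_le_right
  have h3 : finrank F (LinearMap.ker (mulR (κ := κ) P)) =
      Fintype.card κ * (Fintype.card β - P.rank) := by
    rw [ker_mulR]
    have h4 := finrank_pi_submodule (κ := κ) (fun _ => LinearMap.ker P.vecMulLinear)
    have h5 := finrank_ker_vecMul P
    have h6 : finrank F (LinearMap.ker P.vecMulLinear) = Fintype.card β - P.rank := by omega
    rw [Finset.sum_const, Finset.card_univ, smul_eq_mul, h6] at h4
    exact h4
  omega

/-- the tangent vector on the row `a` which belongs to the block `δ` and the element `b`: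
`δ J P_b.`, `J` the swap -/
def rowMap {ι γ : Type*} (P : ι × Bool → γ → F) (b : ι) :
    (Bool → Bool → F) →ₗ[F] (Bool → γ → F) where
  toFun δ i y := δ i false * P (b, true) y + δ i true * P (b, false) y
  map_add' δ ε := by
    funext i y
    simp only [Pi.add_apply]
    ring
  map_smul' c δ := by
    funext i y
    simp only [Pi.smul_apply, smul_eq_mul, RingHom.id_apply]
    ring

/-- the matrix `X` with `X * P = ∑ b, δ b J P_b` -/
def blockMat {ι : Type*} : (ι → Bool → Bool → F) →ₗ[F] (Bool → ι × Bool → F) where
  toFun δ i x := δ x.1 i (!x.2)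
  map_add' _ _ := rfl
  map_smul' _ _ := rfl

theorem blockMat_injective {ι : Type*} : Function.Injective (blockMat (F := F) (ι := ι)) := by
  intro δ ε h
  funext b i j
  have := congrFun (congrFun h i) (b, !j)
  simpa [blockMat] using this

theorem blockMat_mul {ι γ : Type*} [Fintype ι] (P : ι × Bool → γ → F) (δ : ι → Bool → Bool → F) :
    mulR (κ := Bool) (Matrix.of P) (blockMat δ) = ∑ b, rowMap P b (δ b) := by
  funext i y
  have h : (∑ b, rowMap P b (δ b)) i y = ∑ b, rowMap P b (δ b) i y := by
    rw [Finset.sum_apply, Finset.sum_apply]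
  rw [h]
  have h2 : mulR (κ := Bool) (Matrix.of P) (blockMat δ) i y =
      ∑ x : ι × Bool, blockMat δ i x * P x y := rfl
  rw [h2, Fintype.sum_prod_type]
  refine Finset.sum_congr rfl fun b _ => ?_
  rw [Fintype.sum_bool]
  simp only [blockMat, LinearMap.coe_mk, AddHom.coe_mk, rowMap, Bool.not_true, Bool.not_false]

/-- (L1), block form, case (2,2): the rows `∑ b, D b J P_b` -/
theorem sum_finrank_le_iSup_rowMap {ι γ : Type*} [Fintype ι] [Fintype γ] (P : ι × Bool → γ → F)
    (D : ι → Submodule F (Bool → Bool → F)) :
    ∑ b, finrank F (D b) ≤ finrank F (⨆ b, (D b).map (rowMap P b) : Submodule F (Bool → γ → F)) +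
      2 * (2 * Fintype.card ι - (Matrix.of P).rank) := by
  classical
  let S : Submodule F (Bool → ι × Bool → F) := (Submodule.pi Set.univ D).map blockMat
  have h1 := finrank_le_map_mulR (Matrix.of P) S
  have h2 : finrank F S = ∑ b, finrank F (D b) := by
    rw [← finrank_pi_submodule]
    exact (LinearEquiv.finrank_eq
      (Submodule.equivMapOfInjective blockMat blockMat_injective (Submodule.pi Set.univ D))).symm
  have h3 : S.map (mulR (κ := Bool) (Matrix.of P)) ≤
      (⨆ b, (D b).map (rowMap P b) : Submodule F (Bool → γ → F)) := by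
    rintro _ ⟨_, ⟨δ, hδ, rfl⟩, rfl⟩
    rw [blockMat_mul]
    refine Submodule.sum_mem _ fun b _ => ?_
    exact Submodule.mem_iSup_of_mem b ⟨δ b, hδ b (Set.mem_univ b), rfl⟩
  have h4 := Submodule.finrank_mono h3
  rw [Fintype.card_prod, Fintype.card_bool, h2] at h1
  have h5 : Fintype.card ι * 2 = 2 * Fintype.card ι := Nat.mul_comm _ _
  rw [h5] at h1
  omega

/-! ### (L2) tensor products with independent vectors -/

/-- `u ↦ u ⊗ n` -/
def tens {κ γ : Type*} (n : γ → F) : (κ → F) →ₗ[F] (κ → γ → F) where
  toFun u i y := u i * n y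
  map_add' u v := by
    funext i y
    simp only [Pi.add_apply]
    ring
  map_smul' c u := by
    funext i y
    simp only [Pi.smul_apply, smul_eq_mul, RingHom.id_apply]
    ring

/-- (L2) `dim ∑ b, A b ⊗ n b = ∑ b, dim A b` if the `n b` are linearly independent -/
theorem sum_finrank_eq_iSup_tens {ι κ γ : Type*} [Fintype ι] [Fintype κ] [Fintype γ]
    (n : ι → γ → F) (hn : LinearIndependent F n) (A : ι → Submodule F (κ → F)) :
    finrank F (⨆ b, (A b).map (tens (n b)) : Submodule F (κ → γ → F)) = ∑ b, finrank F (A b) := by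
  classical
  let f : (ι → κ → F) →ₗ[F] (κ → γ → F) := ∑ b, (tens (n b)).comp (LinearMap.proj b)
  have hf : ∀ u, f u = ∑ b, tens (n b) (u b) := by
    intro u
    simp only [f, LinearMap.sum_apply, LinearMap.comp_apply, LinearMap.proj_apply]
  have hinj : Function.Injective f := by
    rw [← LinearMap.ker_eq_bot, LinearMap.ker_eq_bot']
    intro u hu
    rw [hf] at hu
    funext b i
    have h1 : ∑ b, u b i • n b = 0 := by
      funext y
      have := congrFun (congrFun hu i) y
      rw [Finset.sum_apply, Finset.sum_apply] at this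
      rw [Finset.sum_apply]
      simpa [tens] using this
    exact Fintype.linearIndependent_iff.1 hn (fun b => u b i) h1 b
  have h1 : (⨆ b, (A b).map (tens (n b)) : Submodule F (κ → γ → F)) =
      (Submodule.pi Set.univ A).map f := by
    apply le_antisymm
    · refine iSup_le fun b => ?_
      rintro _ ⟨u, hu, rfl⟩
      refine ⟨Pi.single b u, ?_, ?_⟩
      · intro b' _
        by_cases h : b' = b
        · subst h
          simpa using hu
        · rw [Pi.single_eq_of_ne h]
          exact zero_mem _
      · rw [hf, Finset.sum_eq_single b]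
        · rw [Pi.single_eq_same]
        · intro b' _ h
          rw [Pi.single_eq_of_ne h, map_zero]
        · intro h
          exact absurd (Finset.mem_univ b) h
    · rintro _ ⟨u, hu, rfl⟩
      rw [hf]
      exact Submodule.sum_mem _ fun b _ =>
        Submodule.mem_iSup_of_mem b ⟨u b, hu b (Set.mem_univ b), rfl⟩
  rw [h1, ← finrank_pi_submodule]
  exact (LinearEquiv.finrank_eq (Submodule.equivMapOfInjective f hinj _)).symm

/-- (L2'): with `n b` spanning a space of dimension `r` and all `A b` of dimension at least `β` -/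
theorem mul_rank_le_iSup_tens {ι κ γ : Type*} [Fintype ι] [Fintype κ] [Fintype γ]
    (n : ι → γ → F) (A : ι → Submodule F (κ → F)) (β : ℕ) (hA : ∀ b, β ≤ finrank F (A b)) :
    β * finrank F (Submodule.span F (Set.range n)) ≤
      finrank F (⨆ b, (A b).map (tens (n b)) : Submodule F (κ → γ → F)) := by
  classical
  obtain ⟨κ', a, ha, hspan, hli⟩ := exists_linearIndependent' F n
  have : Finite κ' := Finite.of_injective a ha
  let _ : Fintype κ' := Fintype.ofFinite κ'
  have h1 := sum_finrank_eq_iSup_tens (n ∘ a) hli (fun b => A (a b))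
  have h2 : finrank F (Submodule.span F (Set.range n)) = Fintype.card κ' := by
    rw [← hspan, finrank_span_eq_card hli]
  have h3 : (⨆ b, (A (a b)).map (tens ((n ∘ a) b)) : Submodule F (κ → γ → F)) ≤
      (⨆ b, (A b).map (tens (n b)) : Submodule F (κ → γ → F)) :=
    iSup_le fun b => le_iSup (fun b => (A b).map (tens (n b))) (a b)
  have h4 := Submodule.finrank_mono h3
  have h5 : ∑ _b : κ', β ≤ ∑ b, finrank F (A (a b)) := Finset.sum_le_sum fun b _ => hA (a b)
  rw [Finset.sum_const, Finset.card_univ, smul_eq_mul, Nat.mul_comm] at h5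
  rw [h2]
  omega

/-- the block `u ⊗ λ` with `λ = (p, q)` a covector and `w = (q, p)` its kernel in characteristic two:
`(u ⊗ λ) J P_b = u ⊗ P(w, .)` with `P(w,.) = λ false * P (b, true) + λ true * P (b, false)` -/
theorem rowMap_tens {ι γ : Type*} (P : ι × Bool → γ → F) (b : ι) (lam : Bool → F) (u : Bool → F) :
    rowMap P b (tens lam u) =
      tens (fun y => lam false * P (b, true) y + lam true * P (b, false) y) u := by
  funext i y
  simp only [rowMap, tens, LinearMap.coe_mk, AddHom.coe_mk]
  ring

end Pool.Agent.Lib.P9Sec5
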